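import Pool.Agent.Lib.MP_3d9a2b_pr.U.Defs

set_option autoImplicit false
set_option linter.unusedSectionVars false

namespace Pool.Agent.Lib.MP_3d9a2b_pr

open MeasureTheory ProbabilityTheory Filter Topology
open scoped NNReal ENNReal

/-! # Average given the coarse increments (task UA) -/

section UAgen

variable {Ω : Type} [MeasurableSpace Ω] {P : Measure Ω} {B : ℝ≥0 → Ω → ℝ}

theorem ua_gauss {ι : Type} (hB : IsPreBrownianReal B P) (a b : ι → ℝ≥0) (w : ι → ℝ)
    (I : Finset ι) (f : ℕ → ι) :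
    IsGaussianProcess (Sum.elim (fun (_ : Unit) ω => ∑ s ∈ I, w s * (B (b s) ω - B (a s) ω))
      (fun (k : ℕ) ω => B (b (f k)) ω - B (a (f k)) ω)) P := by
  classical
  have h1 : IsGaussianProcess (fun s ω => B (b s) ω - B (a s) ω) P := by
    apply hB.isGaussianProcess.of_isGaussianProcess
    intro s
    refine ⟨{a s, b s}, ?_, ?_⟩
    · exact ContinuousLinearMap.proj (R := ℝ)
        (φ := fun _ : ({a s, b s} : Finset ℝ≥0) => ℝ) ⟨b s, by simp⟩ -
      ContinuousLinearMap.proj (R := ℝ)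
        (φ := fun _ : ({a s, b s} : Finset ℝ≥0) => ℝ) ⟨a s, by simp⟩
    · intro ω
      simp
  apply h1.of_isGaussianProcess
  rintro (_ | k)
  · refine ⟨I, ∑ s : I, w s • ContinuousLinearMap.proj (R := ℝ) (φ := fun _ : I => ℝ) s, ?_⟩
    intro ω
    rw [sum_apply]
    simp only [Sum.elim_inl, smul_apply, ContinuousLinearMap.proj_apply,
      Finset.restrict, smul_eq_mul]
    exact (Finset.sum_coe_sort I (fun s => w s * (B (b s) ω - B (a s) ω))).symm
  · refine ⟨{f k}, ContinuousLinearMap.proj (R := ℝ)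
        (φ := fun _ : ({f k} : Finset ι) => ℝ) ⟨f k, by simp⟩, ?_⟩
    intro ω
    simp

end UAgen

section UA
variable {α : ℝ} {Ω Ω' : Type} [MeasurableSpace Ω] [MeasurableSpace Ω'] {P : Measure Ω}
  {P' : Measure Ω'} [IsProbabilityMeasure P] [IsProbabilityMeasure P'] (M : Model α P P')

/-- the sign of an excursion, as a real number -/
noncomputable def ua_c (i : ℕ) (ω' : Ω') : ℝ := if M.ξ i ω' then 1 else 0

/-- fraction of the `j`-th cell spent below in the first `N` excursions -/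
noncomputable def ua_p (θ : ℝ) (N j : ℕ) (ω' : Ω') : ℝ :=
  (∑ i ∈ Finset.range N, ua_c M i ω' * (M.len (θ * (j + 1)) i ω' - M.len (θ * j) i ω')) / θ

/-- increment of the Brownian motion over the `j`-th cell -/
noncomputable def ua_d (θ : ℝ) (j : ℕ) (ω : Ω) : ℝ :=
  M.B (θ * (j + 1)).toNNReal ω - M.B (θ * j).toNNReal ω

/-- Wiener integral over the first `N` excursions -/
noncomputable def ua_S (θ : ℝ) (n N : ℕ) (ω' : Ω') (ω : Ω) : ℝ :=
  ∑ i ∈ Finset.range N, ua_c M i ω' * M.inc (θ * n) i ω ω'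

/-- the part of the Wiener integral which is orthogonal to the coarse increments -/
noncomputable def ua_rho (θ : ℝ) (n N : ℕ) (ω' : Ω') (ω : Ω) : ℝ :=
  ua_S M θ n N ω' ω - ∑ j ∈ Finset.range n, ua_p M θ N j ω' * ua_d M θ j ω

theorem ua_c_sq (i : ℕ) (ω' : Ω') : ua_c M i ω' ^ 2 = ua_c M i ω' := by
  unfold ua_c; split_ifs <;> simp

theorem ua_c_nonneg (i : ℕ) (ω' : Ω') : 0 ≤ ua_c M i ω' := by
  unfold ua_c; split_ifs <;> simp

theorem ua_c_le (i : ℕ) (ω' : Ω') : ua_c M i ω' ≤ 1 := by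
  unfold ua_c; split_ifs <;> simp

theorem ua_len_mono {s t : ℝ} (hst : s ≤ t) (i : ℕ) (ω' : Ω') : M.len s i ω' ≤ M.len t i ω' := by
  unfold Model.len
  have h := (M.left_lt_right i ω').le
  rcases le_total (M.left i ω') s with h1 | h1
  · have h2 := h1.trans hst
    rw [min_eq_left h1, min_eq_left h2]
    have := min_le_min_left (M.right i ω') hst
    linarith
  · rw [min_eq_right h1, min_eq_right (h1.trans h), sub_self]
    exact sub_nonneg.2 (min_le_min_right _ h)

theorem ua_len_zero (i : ℕ) (ω' : Ω') : M.len 0 i ω' = 0 := by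
  unfold Model.len
  have h := M.left_nonneg i ω'
  have h' := (M.left_lt_right i ω').le
  rw [min_eq_right h, min_eq_right (h.trans h'), sub_self]

theorem ua_p_nonneg {θ : ℝ} (hθ : 0 < θ) (N j : ℕ) (ω' : Ω') : 0 ≤ ua_p M θ N j ω' := by
  unfold ua_p
  refine div_nonneg (Finset.sum_nonneg fun i _ => mul_nonneg (ua_c_nonneg M i ω') ?_) hθ.le
  exact sub_nonneg.2 (ua_len_mono M (by nlinarith) i ω')

theorem ua_p_le {θ : ℝ} (hθ : 0 < θ) (N j : ℕ) (ω' : Ω') : ua_p M θ N j ω' ≤ 1 := by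
  unfold ua_p
  rw [div_le_one hθ]
  have h1 : HasSum (fun i => M.len (θ * (j + 1)) i ω' - M.len (θ * j) i ω')
      (θ * (j + 1) - θ * j) :=
    (M.hasSum_len (by positivity) ω').sub (M.hasSum_len (by positivity) ω')
  have h2 : ∀ i, 0 ≤ M.len (θ * (j + 1)) i ω' - M.len (θ * j) i ω' := fun i =>
    sub_nonneg.2 (ua_len_mono M (by nlinarith) i ω')
  calc ∑ i ∈ Finset.range N, ua_c M i ω' * (M.len (θ * (j + 1)) i ω' - M.len (θ * j) i ω')
      ≤ ∑ i ∈ Finset.range N, (M.len (θ * (j + 1)) i ω' - M.len (θ * j) i ω') := by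
        refine Finset.sum_le_sum fun i _ => ?_
        exact mul_le_of_le_one_left (h2 i) (ua_c_le M i ω')
    _ ≤ θ * (j + 1) - θ * j := sum_le_hasSum _ (fun i _ => h2 i) h1
    _ = θ := by ring

theorem ua_sum_p {θ : ℝ} (hθ : 0 < θ) (n N : ℕ) (ω' : Ω') :
    θ * ∑ j ∈ Finset.range n, ua_p M θ N j ω' =
      ∑ i ∈ Finset.range N, ua_c M i ω' * M.len (θ * n) i ω' := by
  unfold ua_p
  rw [← Finset.sum_div, mul_div_cancel₀ _ hθ.ne', Finset.sum_comm]
  refine Finset.sum_congr rfl fun i _ => ?_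
  rw [← Finset.mul_sum]
  congr 1
  have := Finset.sum_range_sub (fun j : ℕ => M.len (θ * j) i ω') n
  simp only [Nat.cast_add, Nat.cast_one, Nat.cast_zero, mul_zero, ua_len_zero, sub_zero] at this
  exact this

theorem ua_cov_inc_d {θ : ℝ} (hθ : 0 < θ) (n i j : ℕ) (ω' : Ω') :
    cov[fun ω => M.inc (θ * n) i ω ω', ua_d M θ j; P] =
      if j < n then M.len (θ * (j + 1)) i ω' - M.len (θ * j) i ω' else 0 := by
  have hB := M.brownian.toIsPreBrownianReal
  have h0 := M.left_nonneg i ω'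
  have h1 := (M.left_lt_right i ω').le
  have ht : 0 ≤ θ * n := by positivity
  have hj : 0 ≤ θ * j := by positivity
  have hj1 : 0 ≤ θ * (j + 1) := by positivity
  have := cov_incr_real hB (a := min (M.left i ω') (θ * n)) (b := min (M.right i ω') (θ * n))
    (c := θ * j) (d := θ * (j + 1)) (le_min h0 ht) (le_min (h0.trans h1) ht) hj hj1
  unfold Model.inc ua_d
  rw [this]
  have hjj : θ * j ≤ θ * (j + 1) := by nlinarith
  split_ifs with hjn
  · have h2 : θ * (j + 1) ≤ θ * n := by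
      refine mul_le_mul_of_nonneg_left ?_ hθ.le
      exact_mod_cast hjn
    have h3 := hjj.trans h2
    rw [min_assoc, min_assoc, min_assoc, min_assoc, min_eq_right h2, min_eq_right h3]
    unfold Model.len
    ring
  · push Not at hjn
    have h2 : θ * n ≤ θ * j := by
      refine mul_le_mul_of_nonneg_left ?_ hθ.le
      exact_mod_cast hjn
    have h3 := h2.trans hjj
    rw [min_assoc, min_assoc, min_assoc, min_assoc, min_eq_left h2, min_eq_left h3]
    ring

theorem ua_cov_d_d {θ : ℝ} (hθ : 0 < θ) (j k : ℕ) :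
    cov[ua_d M θ j, ua_d M θ k; P] = if j = k then θ else 0 := by
  have hB := M.brownian.toIsPreBrownianReal
  have := cov_incr_real hB (a := θ * j) (b := θ * (j + 1)) (c := θ * k) (d := θ * (k + 1))
    (by positivity) (by positivity) (by positivity) (by positivity)
  unfold ua_d
  rw [this]
  split_ifs with hjk
  · subst hjk
    have hjj : θ * j ≤ θ * (j + 1) := by nlinarith
    rw [min_self, min_self, min_eq_right hjj, min_eq_left hjj]
    ring
  · rcases Nat.lt_or_gt_of_ne hjk with h | h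
    · have h1 : θ * (j + 1) ≤ θ * k := by
        refine mul_le_mul_of_nonneg_left ?_ hθ.le
        exact_mod_cast h
      have h2 : θ * j ≤ θ * (j + 1) := by nlinarith
      have h3 : θ * k ≤ θ * (k + 1) := by nlinarith
      rw [min_eq_left (h1.trans h3), min_eq_left h1, min_eq_left (h2.trans (h1.trans h3)),
        min_eq_left (h2.trans h1)]
      ring
    · have h1 : θ * (k + 1) ≤ θ * j := by
        refine mul_le_mul_of_nonneg_left ?_ hθ.le
        exact_mod_cast h
      have h2 : θ * j ≤ θ * (j + 1) := by nlinarith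
      have h3 : θ * k ≤ θ * (k + 1) := by nlinarith
      rw [min_eq_right (h1.trans h2), min_eq_right (h3.trans (h1.trans h2)), min_eq_right h1,
        min_eq_right (h3.trans h1)]
      ring

theorem ua_memLp_inc (t : ℝ) (i : ℕ) (ω' : Ω') : MemLp (fun ω => M.inc t i ω ω') 2 P :=
  memLp_incr M.brownian.toIsPreBrownianReal _ _

theorem ua_memLp_d (θ : ℝ) (j : ℕ) : MemLp (ua_d M θ j) 2 P :=
  memLp_incr M.brownian.toIsPreBrownianReal _ _

theorem ua_memLp_S (θ : ℝ) (n N : ℕ) (ω' : Ω') : MemLp (ua_S M θ n N ω') 2 P :=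
  memLp_finsetSum _ fun i _ => (ua_memLp_inc M _ i ω').const_mul _

theorem ua_cov_S_d {θ : ℝ} (hθ : 0 < θ) (n N k : ℕ) (ω' : Ω') :
    cov[ua_S M θ n N ω', ua_d M θ k; P] = if k < n then θ * ua_p M θ N k ω' else 0 := by
  unfold ua_S
  rw [covariance_fun_sum_left' (fun i _ => (ua_memLp_inc M _ i ω').const_mul _) (ua_memLp_d M θ k)]
  simp_rw [covariance_const_mul_left, ua_cov_inc_d M hθ]
  split_ifs with h
  · unfold ua_p
    rw [mul_div_cancel₀ _ hθ.ne']
  · simp

theorem ua_cov_rho_d {θ : ℝ} (hθ : 0 < θ) (n N k : ℕ) (ω' : Ω') :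
    cov[ua_rho M θ n N ω', ua_d M θ k; P] = 0 := by
  unfold ua_rho
  rw [covariance_fun_sub_left (ua_memLp_S M θ n N ω')
    (memLp_finsetSum _ fun j _ => (ua_memLp_d M θ j).const_mul _) (ua_memLp_d M θ k),
    covariance_fun_sum_left' (fun j _ => (ua_memLp_d M θ j).const_mul _) (ua_memLp_d M θ k),
    ua_cov_S_d M hθ]
  simp_rw [covariance_const_mul_left, ua_cov_d_d M hθ]
  simp only [mul_ite, mul_zero, Finset.sum_ite_eq', Finset.mem_range]
  split_ifs <;> ring

/-- the variance of `rho` -/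
noncomputable def ua_v (θ : ℝ) (n N : ℕ) (ω' : Ω') : ℝ :=
  θ * ∑ j ∈ Finset.range n, ua_p M θ N j ω' * (1 - ua_p M θ N j ω')

theorem ua_v_nonneg {θ : ℝ} (hθ : 0 < θ) (n N : ℕ) (ω' : Ω') : 0 ≤ ua_v M θ n N ω' :=
  mul_nonneg hθ.le (Finset.sum_nonneg fun j _ => mul_nonneg (ua_p_nonneg M hθ N j ω')
    (sub_nonneg.2 (ua_p_le M hθ N j ω')))

theorem ua_cov_S_S {θ : ℝ} (hθ : 0 < θ) (n N : ℕ) (ω' : Ω') :
    cov[ua_S M θ n N ω', ua_S M θ n N ω'; P] = θ * ∑ j ∈ Finset.range n, ua_p M θ N j ω' := by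
  have ht : 0 ≤ θ * n := by positivity
  rw [covariance_self (ua_memLp_S M θ n N ω').aestronglyMeasurable.aemeasurable]
  have h := (M.hasLaw_inc_sum ht (fun i => ua_c M i ω') N ω').variance_eq
  have h2 : Var[ua_S M θ n N ω'; P] = (∑ i ∈ Finset.range N, ua_c M i ω' ^ 2 *
      M.len (θ * n) i ω').toNNReal := by
    rw [← variance_id_gaussianReal (μ := 0), ← h]
    rfl
  rw [h2, Real.coe_toNNReal _ (M.var_nonneg (θ * n) (fun i => ua_c M i ω') N ω'), ua_sum_p M hθ]
  simp_rw [ua_c_sq]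

theorem ua_var_rho {θ : ℝ} (hθ : 0 < θ) (n N : ℕ) (ω' : Ω') :
    cov[ua_rho M θ n N ω', ua_rho M θ n N ω'; P] = ua_v M θ n N ω' := by
  have hm : MemLp (fun ω => ∑ j ∈ Finset.range n, ua_p M θ N j ω' * ua_d M θ j ω) 2 P :=
    memLp_finsetSum _ fun j _ => (ua_memLp_d M θ j).const_mul _
  have hr : MemLp (ua_rho M θ n N ω') 2 P := (ua_memLp_S M θ n N ω').sub hm
  have hS := ua_memLp_S M θ n N ω'
  have e1 : cov[ua_rho M θ n N ω', fun ω => ∑ j ∈ Finset.range n, ua_p M θ N j ω' * ua_d M θ j ω; P]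
      = 0 := by
    rw [covariance_fun_sum_right' (fun j _ => (ua_memLp_d M θ j).const_mul _) hr]
    refine Finset.sum_eq_zero fun j _ => ?_
    rw [covariance_const_mul_right, ua_cov_rho_d M hθ, mul_zero]
  have e2 : cov[fun ω => ∑ j ∈ Finset.range n, ua_p M θ N j ω' * ua_d M θ j ω, ua_S M θ n N ω'; P]
      = ∑ j ∈ Finset.range n, ua_p M θ N j ω' * (θ * ua_p M θ N j ω') := by
    rw [covariance_fun_sum_left' (fun j _ => (ua_memLp_d M θ j).const_mul _) hS]
    refine Finset.sum_congr rfl fun j hj => ?_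
    rw [covariance_const_mul_left, covariance_comm, ua_cov_S_d M hθ,
      if_pos (Finset.mem_range.1 hj)]
  have e3 : cov[ua_rho M θ n N ω', ua_rho M θ n N ω'; P] =
      cov[ua_rho M θ n N ω', ua_S M θ n N ω'; P] -
      cov[ua_rho M θ n N ω', fun ω => ∑ j ∈ Finset.range n, ua_p M θ N j ω' * ua_d M θ j ω; P] :=
    covariance_sub_right hr hS hm
  have e4 : cov[ua_rho M θ n N ω', ua_S M θ n N ω'; P] =
      cov[ua_S M θ n N ω', ua_S M θ n N ω'; P] -
      cov[fun ω => ∑ j ∈ Finset.range n, ua_p M θ N j ω' * ua_d M θ j ω, ua_S M θ n N ω'; P] :=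
    covariance_sub_left hS hm hS
  rw [e3, e1, e4, e2, ua_cov_S_S M hθ, ua_v, Finset.mul_sum, Finset.mul_sum, sub_zero,
    ← Finset.sum_sub_distrib]
  refine Finset.sum_congr rfl fun j _ => ?_
  ring

theorem ua_gauss_rho (θ : ℝ) (n N : ℕ) (ω' : Ω') :
    IsGaussianProcess (Sum.elim (fun (_ : Unit) => ua_rho M θ n N ω')
      (fun (k : ℕ) => ua_d M θ k)) P := by
  have h := ua_gauss (P := P) (ι := ℕ ⊕ ℕ) M.brownian.toIsPreBrownianReal
    (Sum.elim (fun i => (min (M.left i ω') (θ * n)).toNNReal) (fun j => (θ * j).toNNReal))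
    (Sum.elim (fun i => (min (M.right i ω') (θ * n)).toNNReal) (fun j => (θ * (j + 1)).toNNReal))
    (Sum.elim (fun i => ua_c M i ω') (fun j => -ua_p M θ N j ω'))
    ((Finset.range N).disjSum (Finset.range n)) Sum.inr
  convert h using 2
  · funext u ω
    rw [Finset.sum_disjSum]
    simp only [Sum.elim_inl, Sum.elim_inr, ua_rho, ua_S, Model.inc, ua_d]
    rw [sub_eq_add_neg, ← Finset.sum_neg_distrib]
    congr 1
    refine Finset.sum_congr rfl fun j _ => ?_
    ring
  · rfl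

theorem ua_indep {θ : ℝ} (hθ : 0 < θ) (n N : ℕ) (ω' : Ω') :
    IndepFun (ua_rho M θ n N ω') (fun ω (k : ℕ) => ua_d M θ k ω) P := by
  have hG := ua_gauss_rho M θ n N ω'
  have h := hG.indepFun_of_covariance_eq_zero (fun s => hG.aemeasurable (Sum.inl s))
    (fun t => hG.aemeasurable (Sum.inr t)) (fun s t => ua_cov_rho_d M hθ n N t ω')
  exact h.comp (φ := fun x : Unit → ℝ => x ()) (ψ := fun x : ℕ → ℝ => x) (by fun_prop) (by fun_prop)

theorem ua_law_rho {θ : ℝ} (hθ : 0 < θ) (n N : ℕ) (ω' : Ω') :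
    HasLaw (ua_rho M θ n N ω') (gaussianReal 0 (ua_v M θ n N ω').toNNReal) P := by
  have hB := M.brownian.toIsPreBrownianReal
  have hG := (ua_gauss_rho M θ n N ω').hasGaussianLaw_eval (Sum.inl ())
  simp only [Sum.elim_inl] at hG
  refine ⟨hG.aemeasurable, ?_⟩
  have hm : ∫ ω, ua_rho M θ n N ω' ω ∂P = 0 := by
    unfold ua_rho ua_S
    rw [integral_sub, integral_finsetSum, integral_finsetSum]
    · have h1 : ∀ i, ∫ ω, ua_c M i ω' * M.inc (θ * n) i ω ω' ∂P = 0 := by
        intro i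
        rw [integral_const_mul]
        unfold Model.inc
        rw [integral_incr hB, mul_zero]
      have h2 : ∀ j, ∫ ω, ua_p M θ N j ω' * ua_d M θ j ω ∂P = 0 := by
        intro i
        rw [integral_const_mul]
        unfold ua_d
        rw [integral_incr hB, mul_zero]
      simp [h1, h2]
    · intro j _
      exact ((ua_memLp_d M θ j).const_mul _).integrable (by norm_num)
    · intro j _
      exact ((ua_memLp_inc M _ j ω').const_mul _).integrable (by norm_num)
    · exact (ua_memLp_S M θ n N ω').integrable (by norm_num)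
    · exact (memLp_finsetSum _ fun j _ => (ua_memLp_d M θ j).const_mul _).integrable (by norm_num)
  have hv : Var[ua_rho M θ n N ω'; P] = ua_v M θ n N ω' := by
    rw [← covariance_self hG.aemeasurable, ua_var_rho M hθ]
  rw [hG.map_eq_gaussianReal, hm, hv]

theorem ua_measurable_d (θ : ℝ) (j : ℕ) : Measurable (ua_d M θ j) :=
  (M.measurable_B _).sub (M.measurable_B _)

theorem ua_measurable_S (θ : ℝ) (n N : ℕ) (ω' : Ω') : Measurable (ua_S M θ n N ω') :=
  Finset.measurable_fun_sum _ fun i _ => (M.measurable_inc_left _ i ω').const_mul _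

theorem ua_measurable_rho (θ : ℝ) (n N : ℕ) (ω' : Ω') : Measurable (ua_rho M θ n N ω') :=
  (ua_measurable_S M θ n N ω').sub
    (Finset.measurable_fun_sum _ fun j _ => (ua_measurable_d M θ j).const_mul _)

theorem ua_X_eq (lam h : ℝ) {θ : ℝ} (j : ℕ) (ω : Ω) :
    M.X lam h θ ω j = lam * (ua_d M θ j ω + h * θ) := by
  unfold Model.X Model.y ua_d
  ring

theorem ua_measurable_X (lam h θ : ℝ) : Measurable (M.X lam h θ) := by
  rw [measurable_pi_iff]
  intro j
  simp_rw [ua_X_eq]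
  exact ((ua_measurable_d M θ j).add_const _).const_mul _

/-- the average for finitely many excursions -/
theorem ua_exact {lam h θ : ℝ} (hθ : 0 < θ) (n N : ℕ) (g : (ℕ → ℝ) → ℝ)
    (hg : Measurable g) (hg0 : ∀ x, 0 ≤ g x) (ω' : Ω') :
    ∫⁻ ω, ENNReal.ofReal (g (M.X lam h θ ω) *
      Real.exp (-2 * lam * (ua_S M θ n N ω' ω +
        h * (θ * ∑ j ∈ Finset.range n, ua_p M θ N j ω')))) ∂P ≤
    ∫⁻ ω, ENNReal.ofReal (g (M.X lam h θ ω) *
      ∏ j ∈ Finset.range n, psi (lam ^ 2 * θ) (ua_p M θ N j ω') (M.X lam h θ ω j)) ∂P := by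
  set G : (ℕ → ℝ) → ℝ := fun d => g (fun j => lam * (d j + h * θ)) *
    Real.exp (-2 * ∑ j ∈ Finset.range n, ua_p M θ N j ω' * (lam * (d j + h * θ))) with hG
  have hGm : Measurable G := by
    refine (hg.comp ?_).mul ?_
    · rw [measurable_pi_iff]
      intro j
      exact ((measurable_pi_apply j).add_const _).const_mul _
    · refine Real.measurable_exp.comp (Measurable.const_mul ?_ _)
      refine Finset.measurable_fun_sum _ fun j _ => ?_
      exact (((measurable_pi_apply j).add_const _).const_mul _).const_mul _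
  have hG0 : ∀ d, 0 ≤ G d := fun d => mul_nonneg (hg0 _) (Real.exp_pos _).le
  have hX : ∀ ω, M.X lam h θ ω = fun j => lam * (ua_d M θ j ω + h * θ) := fun ω =>
    funext fun j => ua_X_eq M lam h j ω
  have hL : ∀ ω, g (M.X lam h θ ω) * Real.exp (-2 * lam * (ua_S M θ n N ω' ω +
        h * (θ * ∑ j ∈ Finset.range n, ua_p M θ N j ω'))) =
      Real.exp ((-2 * lam) * ua_rho M θ n N ω' ω) * G (fun k => ua_d M θ k ω) := by
    intro ω
    have e : Real.exp (-2 * lam * (ua_S M θ n N ω' ω +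
        h * (θ * ∑ j ∈ Finset.range n, ua_p M θ N j ω'))) =
        Real.exp ((-2 * lam) * ua_rho M θ n N ω' ω) *
        Real.exp (-2 * ∑ j ∈ Finset.range n,
          ua_p M θ N j ω' * (lam * (ua_d M θ j ω + h * θ))) := by
      rw [← Real.exp_add]
      congr 1
      unfold ua_rho
      have e1 : ∑ j ∈ Finset.range n, ua_p M θ N j ω' * (lam * (ua_d M θ j ω + h * θ)) =
          lam * ∑ j ∈ Finset.range n, ua_p M θ N j ω' * ua_d M θ j ω +
          lam * h * θ * ∑ j ∈ Finset.range n, ua_p M θ N j ω' := by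
        rw [Finset.mul_sum, Finset.mul_sum, ← Finset.sum_add_distrib]
        refine Finset.sum_congr rfl fun j _ => ?_
        ring
      rw [e1]
      ring
    rw [e, hX]
    simp only [hG]
    ring
  have hR : ∀ ω, g (M.X lam h θ ω) *
      ∏ j ∈ Finset.range n, psi (lam ^ 2 * θ) (ua_p M θ N j ω') (M.X lam h θ ω j) =
      Real.exp (ua_v M θ n N ω' * (-2 * lam) ^ 2 / 2) * G (fun k => ua_d M θ k ω) := by
    intro ω
    have e : ∏ j ∈ Finset.range n, psi (lam ^ 2 * θ) (ua_p M θ N j ω') (M.X lam h θ ω j) =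
        Real.exp (ua_v M θ n N ω' * (-2 * lam) ^ 2 / 2) *
        Real.exp (-2 * ∑ j ∈ Finset.range n,
          ua_p M θ N j ω' * (lam * (ua_d M θ j ω + h * θ))) := by
      unfold psi
      rw [← Real.exp_sum, ← Real.exp_add]
      congr 1
      unfold ua_v
      rw [Finset.mul_sum, Finset.mul_sum, Finset.sum_mul, Finset.sum_div,
        ← Finset.sum_add_distrib]
      refine Finset.sum_congr rfl fun j _ => ?_
      rw [ua_X_eq]
      ring
    rw [e, hX]
    simp only [hG]
    ring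
  simp_rw [hL, hR]
  simp_rw [ENNReal.ofReal_mul (Real.exp_pos _).le]
  have hdm : Measurable (fun ω (k : ℕ) => ua_d M θ k ω) := by
    rw [measurable_pi_iff]; exact fun k => ua_measurable_d M θ k
  have hGd : Measurable (fun ω => ENNReal.ofReal (G (fun k => ua_d M θ k ω))) :=
    (hGm.comp hdm).ennreal_ofReal
  have hind := (ua_indep M hθ n N ω').comp
    (φ := fun x : ℝ => ENNReal.ofReal (Real.exp ((-2 * lam) * x)))
    (ψ := fun d : ℕ → ℝ => ENNReal.ofReal (G d)) (by fun_prop) (by fun_prop)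
  have h1 := lintegral_mul_eq_lintegral_mul_lintegral_of_indepFun (μ := P)
    (f := fun ω => ENNReal.ofReal (Real.exp ((-2 * lam) * ua_rho M θ n N ω' ω)))
    (g := fun ω => ENNReal.ofReal (G (fun k => ua_d M θ k ω)))
    (by have := ua_measurable_rho M θ n N ω'; fun_prop) hGd hind
  simp only [Pi.mul_apply] at h1
  rw [h1, lintegral_const_mul _ hGd]
  gcongr
  exact lintegral_exp_le_of_law (ua_v_nonneg M hθ n N ω') le_rfl (-2 * lam)
    (ua_law_rho M hθ n N ω')

theorem ua_law_d {θ : ℝ} (hθ : 0 < θ) (j : ℕ) :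
    HasLaw (ua_d M θ j) (gaussianReal 0 θ.toNNReal) P := by
  have hB := M.brownian.toIsPreBrownianReal
  have hG := (ua_gauss_rho M θ 0 0 (Classical.choice
    (P'.nonempty_of_neZero))).hasGaussianLaw_eval (Sum.inr j)
  simp only [Sum.elim_inr] at hG
  refine ⟨hG.aemeasurable, ?_⟩
  have hm : ∫ ω, ua_d M θ j ω ∂P = 0 := by
    unfold ua_d
    rw [integral_incr hB]
  have hv : Var[ua_d M θ j; P] = θ := by
    rw [← covariance_self hG.aemeasurable, ua_cov_d_d M hθ, if_pos rfl]
  rw [hG.map_eq_gaussianReal, hm, hv]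

theorem ua_exp_X (lam h : ℝ) {θ : ℝ} (hθ : 0 < θ) (s : ℝ) (j : ℕ) :
    ∫⁻ ω, ENNReal.ofReal (Real.exp (s * M.X lam h θ ω j)) ∂P ≠ ∞ := by
  have h1 : ∀ ω, ENNReal.ofReal (Real.exp (s * M.X lam h θ ω j)) =
      ENNReal.ofReal (Real.exp (s * lam * h * θ)) *
        ENNReal.ofReal (Real.exp ((s * lam) * ua_d M θ j ω)) := by
    intro ω
    rw [← ENNReal.ofReal_mul (Real.exp_pos _).le, ← Real.exp_add, ua_X_eq]
    congr 2
    ring
  simp_rw [h1]
  have hd := ua_measurable_d M θ j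
  rw [lintegral_const_mul _ (by fun_prop)]
  refine ENNReal.mul_ne_top ENNReal.ofReal_ne_top ?_
  exact ne_top_of_le_ne_top ENNReal.ofReal_ne_top
    (lintegral_exp_le_of_law hθ.le le_rfl (s * lam) (ua_law_d M hθ j))

theorem ua_exp_sum_le (n : ℕ) (y : ℕ → ℝ) :
    Real.exp (∑ j ∈ Finset.range n, y j) ≤ 1 + ∑ j ∈ Finset.range n, Real.exp (n * y j) := by
  rcases Nat.eq_zero_or_pos n with rfl | hn
  · simp
  · obtain ⟨j, hj, hmax⟩ := Finset.exists_max_image (Finset.range n) y
      ⟨0, Finset.mem_range.2 hn⟩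
    have h1 : ∑ i ∈ Finset.range n, y i ≤ n * y j := by
      refine (Finset.sum_le_card_nsmul _ _ _ hmax).trans ?_
      simp
    calc Real.exp (∑ j ∈ Finset.range n, y j) ≤ Real.exp (n * y j) := Real.exp_le_exp.2 h1
      _ ≤ ∑ j ∈ Finset.range n, Real.exp (n * y j) :=
          Finset.single_le_sum (f := fun j => Real.exp (n * y j))
            (fun i _ => (Real.exp_pos _).le) hj
      _ ≤ _ := by linarith

theorem ua_integrable_exp_X (lam h : ℝ) {θ : ℝ} (hθ : 0 < θ) (s : ℝ) (j : ℕ) :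
    Integrable (fun ω => Real.exp (s * M.X lam h θ ω j)) P := by
  have hX : Measurable (fun ω => M.X lam h θ ω j) :=
    (measurable_pi_apply j).comp (ua_measurable_X M lam h θ)
  exact (lintegral_ofReal_ne_top_iff_integrable (by fun_prop)
    (ae_of_all _ fun ω => (Real.exp_pos _).le)).1 (ua_exp_X M lam h hθ s j)

theorem ua_exp_abs_sum (lam h : ℝ) {θ : ℝ} (hθ : 0 < θ) (n : ℕ) (K : ℝ) :
    ∫⁻ ω, ENNReal.ofReal (K * Real.exp (∑ j ∈ Finset.range n, 2 * |M.X lam h θ ω j|)) ∂P ≠ ∞ := by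
  have hX : ∀ j, Measurable (fun ω => M.X lam h θ ω j) := fun j =>
    (measurable_pi_apply j).comp (ua_measurable_X M lam h θ)
  have hint : Integrable (fun ω => 1 + ∑ j ∈ Finset.range n, (Real.exp ((2 * n) * M.X lam h θ ω j) +
          Real.exp ((-(2 * n)) * M.X lam h θ ω j))) P := by
    refine (integrable_const _).add (integrable_finsetSum _ fun j _ => ?_)
    exact (ua_integrable_exp_X M lam h hθ _ j).add (ua_integrable_exp_X M lam h hθ _ j)
  have hint2 : Integrable (fun ω => Real.exp (∑ j ∈ Finset.range n, 2 * |M.X lam h θ ω j|)) P := by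
    refine hint.mono' ?_ (ae_of_all _ fun ω => ?_)
    · refine Measurable.aestronglyMeasurable ?_
      refine Real.measurable_exp.comp (Finset.measurable_fun_sum _ fun j _ => ?_)
      exact ((hX j).abs).const_mul 2
    · rw [Real.norm_eq_abs, abs_of_nonneg (Real.exp_pos _).le]
      refine (ua_exp_sum_le n _).trans ?_
      gcongr with j _
      have p1 := Real.exp_pos (2 * n * M.X lam h θ ω j)
      have p2 := Real.exp_pos (-(2 * n) * M.X lam h θ ω j)
      rcases abs_cases (M.X lam h θ ω j) with ⟨e, _⟩ | ⟨e, _⟩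
      · rw [e, show (n : ℝ) * (2 * M.X lam h θ ω j) = 2 * n * M.X lam h θ ω j by ring]
        linarith
      · rw [e, show (n : ℝ) * (2 * -M.X lam h θ ω j) = -(2 * n) * M.X lam h θ ω j by ring]
        linarith
  exact (hint2.const_mul K).lintegral_lt_top.ne

theorem ua_psi_le {a p x : ℝ} (ha : 0 ≤ a) (hp0 : 0 ≤ p) (hp1 : p ≤ 1) :
    psi a p x ≤ Real.exp (a / 2) * Real.exp (2 * |x|) := by
  unfold psi
  rw [← Real.exp_add]
  apply Real.exp_le_exp.2
  have h1 : -2 * p * x ≤ 2 * |x| := by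
    have := neg_abs_le x
    nlinarith [abs_nonneg x]
  have h2 : 2 * a * (p * (1 - p)) ≤ a / 2 := by
    nlinarith [mul_nonneg ha (sq_nonneg (2 * p - 1))]
  linarith

theorem ua_T_zero (ω' : Ω') : M.T 0 ω' = 0 := by
  unfold Model.T
  simp

theorem ua_sum_pp {θ : ℝ} (hθ : 0 < θ) (n : ℕ) (ω' : Ω') :
    θ * ∑ j ∈ Finset.range n, M.pp θ j ω' = M.T (θ * n) ω' := by
  unfold Model.pp
  rw [← Finset.sum_div, mul_div_cancel₀ _ hθ.ne']
  have := Finset.sum_range_sub (fun j : ℕ => M.T (θ * j) ω') n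
  simp only [Nat.cast_add, Nat.cast_one, Nat.cast_zero, mul_zero, ua_T_zero, sub_zero] at this
  exact this

theorem ua_tendsto_p {θ : ℝ} (hθ : 0 < θ) (j : ℕ) (ω' : Ω') :
    Tendsto (fun N => ua_p M θ N j ω') atTop (𝓝 (M.pp θ j ω')) := by
  unfold ua_p Model.pp
  refine Tendsto.div_const ?_ _
  have h1 := (M.hasSum_T (t := θ * (j + 1)) (by positivity) ω').tendsto_sum_nat
  have h2 := (M.hasSum_T (t := θ * j) (by positivity) ω').tendsto_sum_nat
  refine (h1.sub h2).congr fun N => ?_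
  rw [← Finset.sum_sub_distrib]
  refine Finset.sum_congr rfl fun i _ => ?_
  unfold ua_c
  ring

theorem coarse {lam h θ : ℝ} (hlam : 0 < lam) (hθ : 0 < θ) (n : ℕ) (g : (ℕ → ℝ) → ℝ)
    (hg : Measurable g) (hg0 : ∀ x, 0 ≤ g x) (C : ℝ) (hgC : ∀ x, g x ≤ C) : ∀ᵐ ω' ∂P',
    ∫⁻ ω, ENNReal.ofReal (g (M.X lam h θ ω) *
      Real.exp (-2 * lam * (M.J (θ * n) ω ω' + h * M.T (θ * n) ω'))) ∂P ≤
    ∫⁻ ω, ENNReal.ofReal (g (M.X lam h θ ω) *
      ∏ j ∈ Finset.range n, psi (lam ^ 2 * θ) (M.pp θ j ω') (M.X lam h θ ω j)) ∂P := by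
  have ht : 0 ≤ θ * n := by positivity
  filter_upwards [M.wiener' ht] with ω' hω'
  have hXm := ua_measurable_X M lam h θ
  have hXj : ∀ j, Measurable (fun ω => M.X lam h θ ω j) := fun j =>
    (measurable_pi_apply j).comp hXm
  have hSm : ∀ N, Measurable (ua_S M θ n N ω') := fun N => ua_measurable_S M θ n N ω'
  have h1 : TendstoInMeasure P (fun N => ua_S M θ n N ω') atTop (fun ω => M.J (θ * n) ω ω') := by
    refine tendstoInMeasure_of_tendsto_eLpNorm (p := 2) (by norm_num)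
      (fun N => (hSm N).aestronglyMeasurable) (M.measurable_J_left _ ω').aestronglyMeasurable ?_
    refine hω'.congr fun N => ?_
    rw [← eLpNorm_neg]
    congr 1
    ext ω
    simp [ua_S, ua_c]
  obtain ⟨ns, hmono, hns⟩ := h1.exists_seq_tendsto_ae
  have hp : ∀ j, Tendsto (fun k => ua_p M θ (ns k) j ω') atTop (𝓝 (M.pp θ j ω')) := fun j =>
    (ua_tendsto_p M hθ j ω').comp hmono.tendsto_atTop
  have hpsi : ∀ a p x : ℝ, ContinuousAt (fun p => psi a p x) p := fun a p x => by
    unfold psi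
    fun_prop
  set F : ℕ → Ω → ℝ≥0∞ := fun k ω => ENNReal.ofReal (g (M.X lam h θ ω) *
      Real.exp (-2 * lam * (ua_S M θ n (ns k) ω' ω +
        h * (θ * ∑ j ∈ Finset.range n, ua_p M θ (ns k) j ω')))) with hF
  set G : ℕ → Ω → ℝ≥0∞ := fun k ω => ENNReal.ofReal (g (M.X lam h θ ω) *
      ∏ j ∈ Finset.range n, psi (lam ^ 2 * θ) (ua_p M θ (ns k) j ω') (M.X lam h θ ω j)) with hGdef
  have hgX : Measurable (fun ω => g (M.X lam h θ ω)) := hg.comp hXm
  have hFm : ∀ k, Measurable (F k) := by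
    intro k
    have := hSm (ns k)
    simp only [hF]
    fun_prop
  have hGm : ∀ k, Measurable (G k) := by
    intro k
    simp only [hGdef]
    refine (hgX.mul (Finset.measurable_fun_prod _ fun j _ => ?_)).ennreal_ofReal
    have := hXj j
    unfold psi
    fun_prop
  have ha : 0 ≤ lam ^ 2 * θ := by positivity
  have hG : Tendsto (fun k => ∫⁻ ω, G k ω ∂P) atTop (𝓝 (∫⁻ ω, ENNReal.ofReal
      (g (M.X lam h θ ω) * ∏ j ∈ Finset.range n,
        psi (lam ^ 2 * θ) (M.pp θ j ω') (M.X lam h θ ω j)) ∂P)) := by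
    refine tendsto_lintegral_of_dominated_convergence
      (fun ω => ENNReal.ofReal (|C| * Real.exp (lam ^ 2 * θ / 2) ^ n *
        Real.exp (∑ j ∈ Finset.range n, 2 * |M.X lam h θ ω j|))) hGm ?_
      (ua_exp_abs_sum M lam h hθ n _) ?_
    · intro k
      refine ae_of_all _ fun ω => ?_
      simp only [hGdef]
      apply ENNReal.ofReal_le_ofReal
      have e1 : ∏ j ∈ Finset.range n, psi (lam ^ 2 * θ) (ua_p M θ (ns k) j ω')
          (M.X lam h θ ω j) ≤ ∏ j ∈ Finset.range n,
            (Real.exp (lam ^ 2 * θ / 2) * Real.exp (2 * |M.X lam h θ ω j|)) := by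
        refine Finset.prod_le_prod (fun j _ => ?_) fun j _ => ?_
        · unfold psi; exact (Real.exp_pos _).le
        · exact ua_psi_le ha (ua_p_nonneg M hθ _ _ _) (ua_p_le M hθ _ _ _)
      rw [Finset.prod_mul_distrib, Finset.prod_const, Finset.card_range, ← Real.exp_sum] at e1
      rw [mul_assoc]
      refine mul_le_mul ((hgC _).trans (le_abs_self C)) e1 ?_ (abs_nonneg C)
      exact Finset.prod_nonneg fun j _ => by unfold psi; exact (Real.exp_pos _).le
    · refine ae_of_all _ fun ω => ?_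
      simp only [hGdef]
      apply ENNReal.tendsto_ofReal
      refine Tendsto.const_mul _ ?_
      refine tendsto_finsetProd _ fun j _ => ?_
      exact (hpsi _ _ _).tendsto.comp (hp j)
  calc ∫⁻ ω, ENNReal.ofReal (g (M.X lam h θ ω) *
      Real.exp (-2 * lam * (M.J (θ * n) ω ω' + h * M.T (θ * n) ω'))) ∂P
      = ∫⁻ ω, liminf (fun k => F k ω) atTop ∂P := by
        refine lintegral_congr_ae ?_
        filter_upwards [hns] with ω hω
        have : Tendsto (fun k => F k ω) atTop (𝓝 (ENNReal.ofReal (g (M.X lam h θ ω) *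
            Real.exp (-2 * lam * (M.J (θ * n) ω ω' + h * M.T (θ * n) ω'))))) := by
          simp only [hF]
          apply ENNReal.tendsto_ofReal
          refine Tendsto.const_mul _ ((Real.continuous_exp.tendsto _).comp
            (Tendsto.const_mul _ (hω.add (Tendsto.const_mul _ ?_))))
          rw [← ua_sum_pp M hθ]
          exact Tendsto.const_mul _ (tendsto_finsetSum _ fun j _ => hp j)
        exact this.liminf_eq.symm
    _ ≤ liminf (fun k => ∫⁻ ω, F k ω ∂P) atTop := lintegral_liminf_le hFm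
    _ ≤ liminf (fun k => ∫⁻ ω, G k ω ∂P) atTop := by
        refine liminf_le_liminf (Eventually.of_forall fun k => ?_)
        exact ua_exact M hθ n (ns k) g hg hg0 ω'
    _ = _ := hG.liminf_eq

end UA

end Pool.Agent.Lib.MP_3d9a2b_pr
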