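import Pool.Agent.Lib.MP_3d9a2b_pr.U.Defs
import Pool.Agent.Lib.MP_3d9a2b_pr.Window

set_option autoImplicit false
set_option linter.unusedSectionVars false

/-!
# The weight of a skeleton

On the event that a skeleton of visited cells is realised, the cells between two visited ones are
covered by distinct excursions, whose signs are independent of the regenerative set.
-/

namespace Pool.Agent.Lib.MP_3d9a2b_pr

open MeasureTheory ProbabilityTheory Filter Topology
open scoped NNReal ENNReal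

theorem psi_le {a p x : ℝ} (ha : 0 ≤ a) (hp0 : 0 ≤ p) (hp1 : p ≤ 1) : psi a p x ≤ NN a x := by
  unfold psi NN
  have h1 : 2 * a * (p * (1 - p)) ≤ a / 2 := by nlinarith [sq_nonneg (2 * p - 1)]
  have h2 : Real.exp (-2 * p * x) ≤ max 1 (Real.exp (-2 * x)) := by
    rcases le_total 0 x with hx | hx
    · refine le_trans ?_ (le_max_left _ _)
      rw [← Real.exp_zero]
      exact Real.exp_le_exp.2 (by nlinarith [mul_nonneg hp0 hx])
    · refine le_trans ?_ (le_max_right _ _)
      exact Real.exp_le_exp.2 (by nlinarith)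
  rw [Real.exp_add, mul_comm (Real.exp (a / 2))]
  exact mul_le_mul h2 (Real.exp_le_exp.2 h1) (Real.exp_pos _).le (le_trans zero_le_one (le_max_left _ _))

theorem uc_psi_nonneg (a p x : ℝ) : 0 ≤ psi a p x := (Real.exp_pos _).le

theorem uc_one_le_NN {a x : ℝ} (ha : 0 ≤ a) : 1 ≤ NN a x := by
  unfold NN
  have h1 : 1 ≤ Real.exp (a / 2) := Real.one_le_exp (by linarith)
  have h2 : (1 : ℝ) ≤ max 1 (Real.exp (-2 * x)) := le_max_left _ _
  nlinarith

namespace Model

section geo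
variable {α : ℝ} {Ω Ω' : Type} [MeasurableSpace Ω] [mΩ' : MeasurableSpace Ω'] {P : Measure Ω}
  {P' : Measure Ω'} (M : Model α P P')

theorem uc_len_mono {t t' : ℝ} (htt' : t ≤ t') (n : ℕ) (ω' : Ω') :
    0 ≤ M.len t' n ω' - M.len t n ω' := by
  have h := M.left_lt_right n ω'
  unfold len
  rcases le_total (M.right n ω') t with h1 | h1 <;> rcases le_total (M.left n ω') t with h2 | h2 <;>
  rcases le_total (M.right n ω') t' with h3 | h3 <;>
  rcases le_total (M.left n ω') t' with h4 | h4 <;>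
  simp only [min_eq_left, min_eq_right, h1, h2, h3, h4] <;> linarith

theorem uc_hasSum_T {t t' : ℝ} (ht : 0 ≤ t) (htt' : t ≤ t') (ω' : Ω') :
    HasSum (fun n => (if M.ξ n ω' then (1 : ℝ) else 0) * (M.len t' n ω' - M.len t n ω'))
      (M.T t' ω' - M.T t ω') := by
  have h := (M.hasSum_T (ht.trans htt') ω').sub (M.hasSum_T ht ω')
  simpa only [mul_sub] using h

theorem uc_hasSum_len {t t' : ℝ} (ht : 0 ≤ t) (htt' : t ≤ t') (ω' : Ω') :
    HasSum (fun n => M.len t' n ω' - M.len t n ω') (t' - t) :=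
  (M.hasSum_len (ht.trans htt') ω').sub (M.hasSum_len ht ω')

theorem uc_T_diff_nonneg {t t' : ℝ} (ht : 0 ≤ t) (htt' : t ≤ t') (ω' : Ω') :
    0 ≤ M.T t' ω' - M.T t ω' :=
  (M.uc_hasSum_T ht htt' ω').nonneg fun n =>
    mul_nonneg (by split_ifs <;> simp) (M.uc_len_mono htt' n ω')

theorem uc_T_diff_le {t t' : ℝ} (ht : 0 ≤ t) (htt' : t ≤ t') (ω' : Ω') :
    M.T t' ω' - M.T t ω' ≤ t' - t := by
  refine hasSum_le (fun n => ?_) (M.uc_hasSum_T ht htt' ω') (M.uc_hasSum_len ht htt' ω')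
  have := M.uc_len_mono htt' n ω'
  split_ifs <;> simp [this]

/-- Inside an excursion the time spent below grows at rate `0` or `1`. -/
theorem uc_T_diff_eq {t t' : ℝ} (ht : 0 ≤ t) (htt' : t ≤ t') {ω' : Ω'} {ν : ℕ}
    (h1 : M.left ν ω' ≤ t) (h2 : t' ≤ M.right ν ω') :
    M.T t' ω' - M.T t ω' = (if M.ξ ν ω' then 1 else 0) * (t' - t) := by
  refine (M.uc_hasSum_T ht htt' ω').unique ?_
  have h3 : M.len t' ν ω' - M.len t ν ω' = t' - t := by
    unfold len
    rw [min_eq_right h2, min_eq_right (htt'.trans h2), min_eq_left h1, min_eq_left (h1.trans htt')]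
    ring
  have h4 : ∀ m, m ≠ ν → (if M.ξ m ω' then (1 : ℝ) else 0) *
      (M.len t' m ω' - M.len t m ω') = 0 := by
    intro m hm
    have h5 : M.len t' m ω' - M.len t m ω' = 0 := by
      unfold len
      have hl := M.left_lt_right m ω'
      rcases M.right_le_left_or ω' hm with h | h
      · rw [min_eq_left (h.trans (h1.trans htt')), min_eq_left (h.trans h1),
          min_eq_left (hl.le.trans (h.trans (h1.trans htt'))),
          min_eq_left (hl.le.trans (h.trans h1))]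
        ring
      · rw [min_eq_right (h2.trans (h.trans hl.le)), min_eq_right (h2.trans h),
          min_eq_right (htt'.trans (h2.trans (h.trans hl.le))),
          min_eq_right (htt'.trans (h2.trans h))]
        ring
    rw [h5, mul_zero]
  have h6 := hasSum_single (f := fun m => (if M.ξ m ω' then (1 : ℝ) else 0) *
      (M.len t' m ω' - M.len t m ω')) ν h4
  simp only [h3] at h6
  exact h6

/-- The fraction of time spent below in a cell covered by an excursion. -/
theorem uc_pp_eq {θ : ℝ} (hθ : 0 < θ) {j : ℕ} {ω' : Ω'} {ν : ℕ}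
    (h1 : M.left ν ω' ≤ θ * j) (h2 : θ * (j + 1) ≤ M.right ν ω') :
    M.pp θ j ω' = if M.ξ ν ω' then 1 else 0 := by
  unfold pp
  rw [M.uc_T_diff_eq (by positivity) (by nlinarith) h1 h2]
  field_simp
  ring

end geo

end Model

section UC
variable {α : ℝ} {Ω Ω' : Type} [MeasurableSpace Ω] [MeasurableSpace Ω'] {P : Measure Ω}
  {P' : Measure Ω'} [IsProbabilityMeasure P] [IsProbabilityMeasure P'] (M : Model α P P')

theorem measurable_pp {θ : ℝ} (hθ : 0 < θ) (j : ℕ) : Measurable (M.pp θ j) := by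
  unfold Model.pp
  exact ((M.measurable_T (by positivity)).sub (M.measurable_T (by positivity))).div_const _

theorem pp_mem {θ : ℝ} (hθ : 0 < θ) (j : ℕ) (ω' : Ω') : M.pp θ j ω' ∈ Set.Icc (0 : ℝ) 1 := by
  have h1 := M.uc_T_diff_nonneg (t := θ * j) (t' := θ * (j + 1)) (by positivity) (by nlinarith) ω'
  have h2 := M.uc_T_diff_le (t := θ * j) (t' := θ * (j + 1)) (by positivity) (by nlinarith) ω'
  unfold Model.pp
  refine ⟨by positivity, ?_⟩
  rw [div_le_one hθ]
  linarith

/-- The weight of the cells covered by one excursion. -/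
noncomputable def uc_g (x : ℕ → ℝ) (c m : ℕ) (b : Bool) : ℝ :=
  if b then Real.exp (-2 * ∑ j ∈ Finset.Ico 2 m, x (j + c)) else 1

theorem uc_g_nonneg (x : ℕ → ℝ) (c m : ℕ) (b : Bool) : 0 ≤ uc_g x c m b := by
  unfold uc_g
  split_ifs
  · exact (Real.exp_pos _).le
  · exact zero_le_one

theorem uc_g_trivial (x : ℕ → ℝ) {c m : ℕ} (hm : m ≤ 2) (b : Bool) : uc_g x c m b = 1 := by
  unfold uc_g
  rw [Finset.Ico_eq_empty (by omega)]
  simp

/-- The index of the excursion after the cells `c` and `c + 1`. -/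
noncomputable def uc_nu (θ : ℝ) (q : ℕ → ℕ) (ω' : Ω') (i : ℕ) : ℕ := M.idx (θ * (q i + 2)) ω'

theorem uc_measurable_nu (θ : ℝ) (q : ℕ → ℕ) : Measurable[M.𝒢] (uc_nu M θ q) :=
  @measurable_pi_lambda _ _ _ M.𝒢 _ _ fun i => M.measurable_idx (θ * (q i + 2))

theorem uc_straddle {θ : ℝ} (hθ : 0 < θ) {c m : ℕ} (hm : 3 ≤ m) {ω' : Ω'}
    (h : θ * (c + m) ≤ nextPt (M.R ω') (θ * (c + 2))) :
    M.left (M.idx (θ * (c + 2)) ω') ω' ≤ θ * (c + 2) ∧
      θ * (c + m) ≤ M.right (M.idx (θ * (c + 2)) ω') ω' ∧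
      M.right (M.idx (θ * (c + 2)) ω') ω' = nextPt (M.R ω') (θ * (c + 2)) := by
  have hm' : (3 : ℝ) ≤ m := by exact_mod_cast hm
  have h0 : θ * (c + 2) < nextPt (M.R ω') (θ * (c + 2)) := by
    refine lt_of_lt_of_le ?_ h
    nlinarith
  have h1 := M.idx_spec (M.exists_excursion (x := θ * (c + 2)) (by positivity) h0)
  have h2 := M.nextPt_eq_right h1.1 h1.2
  exact ⟨h1.1, by rw [← h2]; exact h, h2.symm⟩

/-- The weight of a block of cells. -/
theorem uc_block {θ a : ℝ} (hθ : 0 < θ) (ha : 0 ≤ a) (x : ℕ → ℝ) {c m : ℕ} (hm : 1 ≤ m) {ω' : Ω'}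
    (h : θ * (c + m) ≤ nextPt (M.R ω') (θ * (c + 2))) :
    ∏ j ∈ Finset.Ico c (c + m), psi a (M.pp θ j ω') (x j) ≤
      NN a (x c) * NN a (x (c + 1)) * uc_g x c m (M.ξ (M.idx (θ * (c + 2)) ω') ω') := by
  have hN : ∀ y : ℝ, 1 ≤ NN a y := fun y => uc_one_le_NN ha
  have hN0 : ∀ y : ℝ, 0 ≤ NN a y := fun y => zero_le_one.trans (hN y)
  have hpsi : ∀ j : ℕ, psi a (M.pp θ j ω') (x j) ≤ NN a (x j) := fun j =>
    psi_le ha (pp_mem M hθ j ω').1 (pp_mem M hθ j ω').2
  rcases Nat.lt_or_ge m 3 with hm3 | hm3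
  · rw [uc_g_trivial x (by omega), mul_one]
    obtain rfl | rfl : m = 1 ∨ m = 2 := by omega
    · rw [Finset.prod_Ico_succ_top (by omega), Finset.Ico_self, Finset.prod_empty, one_mul]
      exact (hpsi c).trans (le_mul_of_one_le_right (hN0 _) (hN _))
    · rw [Finset.prod_Ico_succ_top (by omega), Finset.prod_Ico_succ_top (by omega),
        Finset.Ico_self, Finset.prod_empty, one_mul]
      exact mul_le_mul (hpsi c) (hpsi (c + 1)) (uc_psi_nonneg _ _ _) (hN0 _)
  · obtain ⟨h1, h2, -⟩ := uc_straddle M hθ hm3 h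
    set ν := M.idx (θ * (c + 2)) ω' with hν
    rw [Finset.prod_eq_prod_Ico_succ_bot (by omega), Finset.prod_eq_prod_Ico_succ_bot (by omega),
      ← mul_assoc]
    refine mul_le_mul (mul_le_mul (hpsi c) (hpsi (c + 1)) (uc_psi_nonneg _ _ _) (hN0 _)) (le_of_eq ?_)
      (Finset.prod_nonneg fun j _ => uc_psi_nonneg _ _ _) (mul_nonneg (hN0 _) (hN0 _))
    have h3 : ∀ j ∈ Finset.Ico (c + 1 + 1) (c + m), psi a (M.pp θ j ω') (x j) =
        if M.ξ ν ω' then Real.exp (-2 * x j) else 1 := by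
      intro j hj
      rw [Finset.mem_Ico] at hj
      have hj1 : ((c : ℕ) : ℝ) + 2 ≤ j := by exact_mod_cast hj.1
      have hj2 : ((j : ℕ) : ℝ) + 1 ≤ c + m := by exact_mod_cast hj.2
      rw [M.uc_pp_eq hθ (ν := ν) (h1.trans (by nlinarith)) (le_trans (by nlinarith) h2)]
      unfold psi
      split_ifs <;> simp
    rw [Finset.prod_congr rfl h3]
    unfold uc_g
    split_ifs with hb
    · rw [← Real.exp_sum, ← Finset.mul_sum]
      congr 2
      rw [Finset.sum_Ico_add' (fun j => x j) 2 m c]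
      congr 1
      ext j
      simp only [Finset.mem_Ico]
      omega
    · simp

/-- The mean of a function of one bit. -/
theorem uc_integral_bit (g : Bool → ℝ) (n : ℕ) :
    ∫ ω', g (M.ξ n ω') ∂P' = (g true + g false) / 2 := by
  have hm : MeasurableSet {ω' | M.ξ n ω' = true} := M.measurable_ξ n (MeasurableSet.of_discrete (s := {true}))
  have h1 : ∀ ω', g (M.ξ n ω') = g false +
      Set.indicator {ω' | M.ξ n ω' = true} (fun _ => g true - g false) ω' := by
    intro ω'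
    by_cases h : M.ξ n ω' = true
    · rw [Set.indicator_of_mem (show ω' ∈ {ω' | M.ξ n ω' = true} from h), h]
      ring
    · rw [Set.indicator_of_notMem (show ω' ∉ {ω' | M.ξ n ω' = true} from h),
        Bool.eq_false_iff.2 h]
      ring
  simp_rw [h1]
  rw [integral_add (integrable_const _) ((integrable_const _).indicator hm),
    integral_const, integral_indicator_const _ hm, measureReal_def, measureReal_def, M.fair n]
  simp
  ring

theorem uc_integral_prod (g : ℕ → Bool → ℝ) (I : Finset ℕ) (m : ℕ → ℕ)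
    (hinj : Set.InjOn m I) :
    ∫ ω', ∏ i ∈ I, g i (M.ξ (m i) ω') ∂P' = ∏ i ∈ I, ((g i true + g i false) / 2) := by
  have hg : Function.Injective (fun i : I => m i) := by
    intro i j hij
    exact Subtype.ext (hinj i.2 j.2 hij)
  have h1 := (M.iIndep_ξ.precomp hg).integral_fun_prod_comp (𝕜 := ℝ) (f := fun i : I => g i)
    (fun i => (M.measurable_ξ (m i)).aemeasurable)
    (fun i => (measurable_of_countable (g i)).aestronglyMeasurable)
  have h2 : ∀ ω', ∏ i ∈ I, g i (M.ξ (m i) ω') = ∏ i : I, g i (M.ξ (m i) ω') := by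
    intro ω'
    rw [← Finset.prod_coe_sort]
  simp_rw [h2]
  rw [h1, ← Finset.prod_coe_sort I (fun i => (g i true + g i false) / 2)]
  exact Finset.prod_congr rfl fun i _ => uc_integral_bit M (g i) (m i)

theorem uc_integral_prod' (g : ℕ → Bool → ℝ) (K : ℕ) (I : ℕ → Prop) (m : ℕ → ℕ)
    (hI : ∀ i, ¬ I i → ∀ b, g i b = 1)
    (hinj : ∀ i < K, ∀ j < K, I i → I j → m i = m j → i = j) :
    ∫ ω', ∏ i ∈ Finset.range K, g i (M.ξ (m i) ω') ∂P' =
      ∏ i ∈ Finset.range K, ((g i true + g i false) / 2) := by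
  classical
  have h1 : ∀ ω', ∏ i ∈ Finset.range K, g i (M.ξ (m i) ω') =
      ∏ i ∈ (Finset.range K).filter I, g i (M.ξ (m i) ω') := by
    intro ω'
    rw [Finset.prod_filter]
    refine Finset.prod_congr rfl fun i _ => ?_
    split_ifs with h
    · rfl
    · exact hI i h _
  simp_rw [h1]
  rw [uc_integral_prod M g _ m, Finset.prod_filter]
  · refine Finset.prod_congr rfl fun i _ => ?_
    split_ifs with h
    · rfl
    · rw [hI i h, hI i h]
      norm_num
  · intro i hi j hj hij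
    simp only [Finset.coe_filter, Finset.mem_range, Set.mem_ofPred_eq] at hi hj
    exact hinj i hi.1 j hj.1 hi.2 hj.2 hij

/-- The event of a skeleton. -/
def uc_E (θ : ℝ) (q : ℕ → ℕ) (k : ℕ) : Set Ω' :=
  {ω | (∀ i < k, nextPt (M.R ω) (θ * (q i + 2)) ∈
      Set.Ico (θ * q (i + 1)) (θ * (q (i + 1) + 1))) ∧
      θ * q (k + 1) ≤ nextPt (M.R ω) (θ * (q k + 2))}

theorem uc_measurableSet_E (θ : ℝ) (q : ℕ → ℕ) (k : ℕ) : MeasurableSet[M.𝒢] (uc_E M θ q k) := by
  have h : uc_E M θ q k = (⋂ i ∈ Finset.range k, (fun ω => nextPt (M.R ω) (θ * (q i + 2))) ⁻¹'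
      Set.Ico (θ * q (i + 1)) (θ * (q (i + 1) + 1))) ∩
      (fun ω => nextPt (M.R ω) (θ * (q k + 2))) ⁻¹' Set.Ici (θ * q (k + 1)) := by
    ext ω
    simp [uc_E]
  rw [h]
  refine @MeasurableSet.inter _ M.𝒢 _ _
    (@Finset.measurableSet_biInter _ _ M.𝒢 _ _ fun i _ => ?_) ?_
  · exact M.measurable_nextPt _ measurableSet_Ico
  · exact M.measurable_nextPt _ measurableSet_Ici

theorem uc_E_le {θ : ℝ} {q : ℕ → ℕ} {k : ℕ} {ω' : Ω'} (h : ω' ∈ uc_E M θ q k) {i : ℕ}
    (hi : i ≤ k) : θ * q (i + 1) ≤ nextPt (M.R ω') (θ * (q i + 2)) := by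
  rcases hi.lt_or_eq with hi | rfl
  · exact (h.1 i hi).1
  · exact h.2

theorem uc_inj {θ : ℝ} (hθ : 0 < θ) {q : ℕ → ℕ} {k : ℕ} (hq : ∀ i ≤ k, q i < q (i + 1))
    {ω' : Ω'} (h : ω' ∈ uc_E M θ q k) :
    ∀ i < k + 1, ∀ j < k + 1, q i + 3 ≤ q (i + 1) → q j + 3 ≤ q (j + 1) →
      uc_nu M θ q ω' i = uc_nu M θ q ω' j → i = j := by
  have hst : ∀ i < k + 1, q i + 3 ≤ q (i + 1) →
      θ * q (i + 1) ≤ M.right (uc_nu M θ q ω' i) ω' ∧
      M.right (uc_nu M θ q ω' i) ω' = nextPt (M.R ω') (θ * (q i + 2)) := by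
    intro i hi h3
    have h1 := uc_E_le M h (i := i) (by omega)
    have h4 : ((q (i + 1) : ℕ) : ℝ) = (q i : ℝ) + ((q (i + 1) - q i : ℕ) : ℝ) := by
      rw [Nat.cast_sub (by omega)]
      ring
    have h2 := uc_straddle M hθ (c := q i) (m := q (i + 1) - q i) (by omega) (ω' := ω')
      (by rw [← h4]; exact h1)
    rw [← h4] at h2
    exact h2.2
  have key : ∀ i j, i < j → j < k + 1 → q i + 3 ≤ q (i + 1) → q j + 3 ≤ q (j + 1) →
      uc_nu M θ q ω' i ≠ uc_nu M θ q ω' j := by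
    intro i j hij hj hi3 hj3 heq
    have h1 := (hst i (by omega) hi3).2
    have h2 := (hst j hj hj3).1
    have h3 : q (i + 1) ≤ q j := Model.p_mono (k := k + 1) (fun i hi => hq i (by omega)) (by omega) (by omega)
    have h4 : ((q (i + 1) : ℕ) : ℝ) ≤ q j := by exact_mod_cast h3
    have h5 := (h.1 i (by omega)).2
    rw [heq] at h1
    rw [h1] at h2
    have h6 : ((q j : ℕ) : ℝ) + 3 ≤ q (j + 1) := by exact_mod_cast hj3
    nlinarith
  intro i hi j hj hi3 hj3 heq
  rcases lt_trichotomy i j with hij | hij | hij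
  · exact absurd heq (key i j hij hj hi3 hj3)
  · exact hij
  · exact absurd heq.symm (key j i hij hi hj3 hi3)

/-- The weight of the cells on the event of a skeleton. -/
theorem uc_prod_le {θ a : ℝ} (hθ : 0 < θ) (ha : 0 ≤ a) (x : ℕ → ℝ) {q : ℕ → ℕ} {k : ℕ}
    (hq0 : q 0 = 0) (hq : ∀ i ≤ k, q i < q (i + 1)) {ω' : Ω'} (h : ω' ∈ uc_E M θ q k) :
    ∏ j ∈ Finset.range (q (k + 1)), psi a (M.pp θ j ω') (x j) ≤
      (∏ i ∈ Finset.range (k + 1), NN a (x (q i)) * NN a (x (q i + 1))) *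
      ∏ i ∈ Finset.range (k + 1),
        uc_g x (q i) (q (i + 1) - q i) (M.ξ (uc_nu M θ q ω' i) ω') := by
  rw [← Finset.prod_mul_distrib]
  have hN0 : ∀ y : ℝ, 0 ≤ NN a y := fun y => zero_le_one.trans (uc_one_le_NN ha)
  have key : ∀ l ≤ k + 1, ∏ j ∈ Finset.range (q l), psi a (M.pp θ j ω') (x j) ≤
      ∏ i ∈ Finset.range l, NN a (x (q i)) * NN a (x (q i + 1)) *
        uc_g x (q i) (q (i + 1) - q i) (M.ξ (uc_nu M θ q ω' i) ω') := by
    intro l
    induction l with
    | zero =>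
      intro _
      rw [hq0]
      simp
    | succ l ih =>
      intro hl
      have h1 := ih (by omega)
      have h2 := hq l (by omega)
      have h3 : Finset.range (q (l + 1)) =
          Finset.range (q l) ∪ Finset.Ico (q l) (q l + (q (l + 1) - q l)) := by
        ext j
        simp only [Finset.mem_range, Finset.mem_union, Finset.mem_Ico]
        omega
      rw [h3, Finset.prod_union, Finset.prod_range_succ]
      · have h4 : ((q (l + 1) : ℕ) : ℝ) = (q l : ℝ) + ((q (l + 1) - q l : ℕ) : ℝ) := by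
          rw [Nat.cast_sub (by omega)]
          ring
        refine mul_le_mul h1 (uc_block M hθ ha x (by omega) ?_)
          (Finset.prod_nonneg fun j _ => uc_psi_nonneg _ _ _) ?_
        · rw [← h4]
          exact uc_E_le M h (by omega)
        · exact Finset.prod_nonneg fun i _ =>
            mul_nonneg (mul_nonneg (hN0 _) (hN0 _)) (uc_g_nonneg _ _ _ _)
      · rw [Finset.disjoint_left]
        intro j hj hj'
        simp only [Finset.mem_range, Finset.mem_Ico] at hj hj'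
        omega
  exact key (k + 1) le_rfl

theorem uc_measurable_gprod (x : ℕ → ℝ) (q : ℕ → ℕ) (K : ℕ) :
    Measurable (fun r : (ℕ → ℕ) × (ℕ → Bool) =>
      ∏ i ∈ Finset.range K, uc_g x (q i) (q (i + 1) - q i) (r.2 (r.1 i))) := by
  apply Finset.measurable_prod
  intro i _
  have h0 : Measurable (fun r : (ℕ → ℕ) × (ℕ → Bool) => (r.1 i, r.2)) :=
    ((measurable_pi_apply i).comp measurable_fst).prodMk measurable_snd
  have h1 : Measurable (fun r : (ℕ → ℕ) × (ℕ → Bool) => r.2 (r.1 i)) :=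
    Measurable.comp (g := fun r : ℕ × (ℕ → Bool) => r.2 r.1) Model.measurable_eval h0
  exact (measurable_of_countable (uc_g x (q i) (q (i + 1) - q i))).comp h1

theorem uc_main {θ a : ℝ} (hθ : 0 < θ) (ha : 0 ≤ a) (x : ℕ → ℝ) {q : ℕ → ℕ} {k : ℕ}
    (hq0 : q 0 = 0) (hq : ∀ i ≤ k, q i < q (i + 1)) :
    ∫ ω' in uc_E M θ q k, ∏ j ∈ Finset.range (q (k + 1)), psi a (M.pp θ j ω') (x j) ∂P' ≤
      P'.real (uc_E M θ q k) *
        ∏ i ∈ Finset.range (k + 1), UU a (q (i + 1) - q i) (shx (q i) x) := by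
  have hEm𝒢 := uc_measurableSet_E M θ q k
  have hEm : MeasurableSet (uc_E M θ q k) := M.𝒢_le _ hEm𝒢
  set A : ℝ := ∏ i ∈ Finset.range (k + 1), NN a (x (q i)) * NN a (x (q i + 1)) with hA
  set G : ℕ → Bool → ℝ := fun i => uc_g x (q i) (q (i + 1) - q i) with hG
  have hN0 : ∀ y : ℝ, 0 ≤ NN a y := fun y => zero_le_one.trans (uc_one_le_NN ha)
  have hA0 : 0 ≤ A := Finset.prod_nonneg fun i _ => mul_nonneg (hN0 _) (hN0 _)
  set I1 : Ω' → ℝ := (uc_E M θ q k).indicator (fun _ => (1 : ℝ)) with hI1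
  have hI1m𝒢 : Measurable[M.𝒢] I1 := by
    rw [hI1]
    exact (@measurable_const _ _ _ M.𝒢 _).indicator hEm𝒢
  have hνm := uc_measurable_nu M θ q
  -- the function to be frozen
  set F : (ℝ × (ℕ → ℕ)) × (ℕ → Bool) → ℝ := fun r =>
    r.1.1 * ∏ i ∈ Finset.range (k + 1), G i (r.2 (r.1.2 i)) with hF
  have hgm := uc_measurable_gprod x q (k + 1)
  have hFm : Measurable F := by
    rw [hF]
    refine Measurable.mul (measurable_fst.comp measurable_fst) ?_
    exact hgm.comp ((measurable_snd.comp measurable_fst).prodMk measurable_snd)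
  set B : ℝ := ∏ i ∈ Finset.range (k + 1), (|G i true| + |G i false|) with hB
  have hGb : ∀ i b, |G i b| ≤ |G i true| + |G i false| := by
    intro i b
    cases b
    · linarith [abs_nonneg (G i true)]
    · linarith [abs_nonneg (G i false)]
  have hprodb : ∀ ω', |∏ i ∈ Finset.range (k + 1), G i (M.ξ (uc_nu M θ q ω' i) ω')| ≤ B := by
    intro ω'
    rw [Finset.abs_prod]
    exact Finset.prod_le_prod (fun i _ => abs_nonneg _) fun i _ => hGb i _
  have hXm : Measurable (fun ω' => ((I1 ω', uc_nu M θ q ω'), fun n => M.ξ n ω')) :=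
    ((hI1m𝒢.mono M.𝒢_le le_rfl).prodMk (hνm.mono M.𝒢_le le_rfl)).prodMk M.measurable_bits
  have hI1b : ∀ ω', |I1 ω'| ≤ 1 := by
    intro ω'
    classical
    rw [hI1, Set.indicator_apply]
    split_ifs <;> simp
  have hint : Integrable (fun ω' => F ((I1 ω', uc_nu M θ q ω'), fun n => M.ξ n ω')) P' := by
    refine Integrable.of_bound (hFm.comp hXm).aestronglyMeasurable (1 * B)
      (ae_of_all _ fun ω' => ?_)
    rw [Real.norm_eq_abs, hF]
    simp only
    rw [abs_mul]
    exact mul_le_mul (hI1b ω') (hprodb ω') (abs_nonneg _) zero_le_one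
  have hfr := M.freeze (fun ω' => (I1 ω', uc_nu M θ q ω')) (hI1m𝒢.prodMk hνm) F hFm hint
  have hinner : ∀ ω', ∫ ω'', F ((I1 ω', uc_nu M θ q ω'), fun n => M.ξ n ω'') ∂P' =
      I1 ω' * ∏ i ∈ Finset.range (k + 1), ((G i true + G i false) / 2) := by
    intro ω'
    rw [hF]
    simp only
    rw [integral_const_mul]
    by_cases h : ω' ∈ uc_E M θ q k
    · rw [uc_integral_prod' M G (k + 1) (fun i => q i + 3 ≤ q (i + 1)) (uc_nu M θ q ω')]
      · intro i hi b
        exact uc_g_trivial x (by omega) b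
      · exact uc_inj M hθ hq h
    · rw [hI1, Set.indicator_of_notMem h, zero_mul, zero_mul]
  simp_rw [hinner] at hfr
  rw [integral_mul_const] at hfr
  have hI1i : ∫ ω', I1 ω' ∂P' = P'.real (uc_E M θ q k) := by
    rw [hI1, integral_indicator_const _ hEm, smul_eq_mul, mul_one]
  rw [hI1i] at hfr
  -- comparison
  have hle : ∫ ω' in uc_E M θ q k, ∏ j ∈ Finset.range (q (k + 1)), psi a (M.pp θ j ω') (x j) ∂P' ≤
      ∫ ω', A * F ((I1 ω', uc_nu M θ q ω'), fun n => M.ξ n ω') ∂P' := by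
    rw [← integral_indicator hEm]
    refine integral_mono_of_nonneg (ae_of_all _ fun ω' => ?_) (hint.const_mul A)
      (ae_of_all _ fun ω' => ?_)
    · exact Set.indicator_nonneg (fun ω' _ => Finset.prod_nonneg fun j _ => uc_psi_nonneg _ _ _) ω'
    · simp only
      by_cases h : ω' ∈ uc_E M θ q k
      · rw [Set.indicator_of_mem h, hF]
        simp only
        rw [hI1, Set.indicator_of_mem h, one_mul]
        exact uc_prod_le M hθ ha x hq0 hq h
      · rw [Set.indicator_of_notMem h, hF]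
        simp only
        rw [hI1, Set.indicator_of_notMem h, zero_mul, mul_zero]
  refine hle.trans (le_of_eq ?_)
  rw [integral_const_mul, hfr, mul_left_comm]
  congr 1
  rw [hA, ← Finset.prod_mul_distrib]
  refine Finset.prod_congr rfl fun i _ => ?_
  have e1 : G i true = Real.exp (-2 * ∑ j ∈ Finset.Ico 2 (q (i + 1) - q i), shx (q i) x j) := by
    simp [hG, uc_g, shx]
  have e2 : G i false = 1 := by simp [hG, uc_g]
  have e3 : shx (q i) x 0 = x (q i) := by simp [shx]
  have e4 : shx (q i) x 1 = x (q i + 1) := by simp [shx, add_comm]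
  unfold UU
  rw [e1, e2, e3, e4]
  ring

theorem core_le {θ : ℝ} (hθ : 0 < θ) {n : ℕ} {a : ℝ} (ha : 0 ≤ a) (x : ℕ → ℝ) (p : ℕ → ℕ)
    (k : ℕ) (hp0 : p 0 = 0) (hp : ∀ i < k, p i + 2 ≤ p (i + 1)) (hpn : p k < n) :
    ∫ ω' in {ω | (∀ i < k, nextPt (M.R ω) (θ * (p i + 2)) ∈
          Set.Ico (θ * p (i + 1)) (θ * (p (i + 1) + 1))) ∧
          θ * n ≤ nextPt (M.R ω) (θ * (p k + 2))},
        ∏ j ∈ Finset.range n, psi a (M.pp θ j ω') (x j) ∂P' ≤
      P'.real {ω | ∀ i < k, nextPt (M.R ω) (θ * (p i + 2)) ∈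
          Set.Ico (θ * p (i + 1)) (θ * (p (i + 1) + 1))} *
        (∏ i ∈ Finset.range k, UU a (p (i + 1) - p i) (shx (p i) x)) *
        UU a (n - p k) (shx (p k) x) := by
  set q : ℕ → ℕ := fun i => if i ≤ k then p i else n with hqdef
  have hqp : ∀ i ≤ k, q i = p i := fun i hi => by simp [hqdef, hi]
  have hqn : q (k + 1) = n := by simp [hqdef]
  have hq : ∀ i ≤ k, q i < q (i + 1) := by
    intro i hi
    rw [hqp i hi]
    rcases hi.lt_or_eq with h | rfl
    · rw [hqp (i + 1) h]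
      have := hp i h
      omega
    · rw [hqn]
      exact hpn
  have hE : {ω | (∀ i < k, nextPt (M.R ω) (θ * (p i + 2)) ∈
          Set.Ico (θ * p (i + 1)) (θ * (p (i + 1) + 1))) ∧
          θ * n ≤ nextPt (M.R ω) (θ * (p k + 2))} = uc_E M θ q k := by
    ext ω
    unfold uc_E
    simp only [Set.mem_ofPred_eq]
    rw [hqn, hqp k le_rfl]
    refine and_congr_left fun _ => ?_
    refine forall₂_congr fun i hi => ?_
    rw [hqp i hi.le, hqp (i + 1) hi]
  have h := uc_main M hθ ha x (q := q) (k := k) (by rw [hqp 0 (Nat.zero_le _), hp0]) hq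
  rw [← hE, hqn, Finset.prod_range_succ, hqn, hqp k le_rfl] at h
  have h2 : ∏ i ∈ Finset.range k, UU a (q (i + 1) - q i) (shx (q i) x) =
      ∏ i ∈ Finset.range k, UU a (p (i + 1) - p i) (shx (p i) x) := by
    refine Finset.prod_congr rfl fun i hi => ?_
    have hi' := Finset.mem_range.1 hi
    rw [hqp i hi'.le, hqp (i + 1) hi']
  rw [h2] at h
  refine h.trans ?_
  have hU : ∀ m y, 0 ≤ UU a m y := by
    intro m y
    unfold UU
    have h1 := uc_one_le_NN (x := y 0) ha
    have h3 := uc_one_le_NN (x := y 1) ha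
    have h4 := Real.exp_pos (-2 * ∑ j ∈ Finset.Ico 2 m, y j)
    positivity
  rw [mul_assoc]
  refine mul_le_mul_of_nonneg_right ?_ (mul_nonneg (Finset.prod_nonneg fun i _ => hU _ _) (hU _ _))
  refine measureReal_mono ?_ (measure_ne_top _ _)
  intro ω hω
  exact hω.1

end UC

end Pool.Agent.Lib.MP_3d9a2b_pr
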