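import Pool.Agent.Lib.MP_3d9a2b_pr.Wiener

set_option autoImplicit false

namespace Pool.Agent.Lib.MP_3d9a2b_pr

open MeasureTheory ProbabilityTheory Filter Topology
open scoped NNReal ENNReal

/-! Definitions for the upper bound on the slope. A cell is an interval `[θ j, θ (j + 1))`,
`a = lam ^ 2 * θ`, `x j` is the normalised increment of the drifted Brownian path over the cell. -/

/-- weight of a cell in which a fraction `p` of the time is spent below, the path being averaged
given its increment `x` -/
noncomputable def psi (a p x : ℝ) : ℝ := Real.exp (-2 * p * x + 2 * a * (p * (1 - p)))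

/-- bound for the weight of a visited cell -/
noncomputable def NN (a x : ℝ) : ℝ := Real.exp (a / 2) * max 1 (Real.exp (-2 * x))

/-- the shifted sequence -/
def shx (m : ℕ) (x : ℕ → ℝ) : ℕ → ℝ := fun j => x (j + m)

/-- weight of a step of `m` cells: two cells are visited, the others are covered by one excursion -/
noncomputable def UU (a : ℝ) (m : ℕ) (x : ℕ → ℝ) : ℝ :=
  NN a (x 0) * NN a (x 1) * ((1 + Real.exp (-2 * ∑ j ∈ Finset.Ico 2 m, x j)) / 2)

/-- bound for the probability of a step of `m` cells -/
noncomputable def qq (α : ℝ) (m : ℕ) : ℝ :=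
  if m ≤ 2 then 3 * α else 5 / 4 * α * 2 ^ α * ((m - 2 : ℕ) : ℝ) ^ (-(1 + α))

/-- renewal-type upper bound for the partition function of `n` cells -/
noncomputable def YY (a α : ℝ) : ℕ → (ℕ → ℝ) → ℝ
  | n, x => UU a n x + ∑ m : Fin n, if _h : 2 ≤ (m : ℕ) then
      qq α m * UU a m x * YY a α (n - m) (shx m x) else 0
termination_by n => n
decreasing_by omega

/-- Green function of the steps with all long excursions above -/
noncomputable def GG (α : ℝ) : ℕ → ℝ
  | 0 => 1
  | n + 1 => ∑ m : Fin (n + 2), if _h : 2 ≤ (m : ℕ) then qq α m / 2 * GG α (n + 1 - m) else 0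
termination_by n => n
decreasing_by omega

/-- law of the normalised increments -/
noncomputable def nuX (a B : ℝ) : Measure (ℕ → ℝ) :=
  Measure.infinitePi (fun _ : ℕ => gaussianReal (B * a) a.toNNReal)

namespace Model

variable {α : ℝ} {Ω Ω' : Type} [MeasurableSpace Ω] [MeasurableSpace Ω'] {P : Measure Ω}
  {P' : Measure Ω'} (M : Model α P P')

/-- normalised increment of the drifted Brownian path over the `j`-th cell -/
noncomputable def X (lam h θ : ℝ) (ω : Ω) (j : ℕ) : ℝ :=
  lam * (M.y h (θ * (j + 1)) ω - M.y h (θ * j) ω)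

/-- fraction of the `j`-th cell spent below the interface -/
noncomputable def pp (θ : ℝ) (j : ℕ) (ω' : Ω') : ℝ :=
  (M.T (θ * (j + 1)) ω' - M.T (θ * j) ω') / θ

end Model

end Pool.Agent.Lib.MP_3d9a2b_pr
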