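import Pool.Agent.Lib.MP_3d9a2b_pr.U.Defs

/-! # Gaussian estimates (task UF) -/

set_option autoImplicit false

namespace Pool.Agent.Lib.MP_3d9a2b_pr

open MeasureTheory ProbabilityTheory Filter Topology
open scoped NNReal ENNReal

/-- integrals of product functions -/
theorem uf_prod (a B : ℝ) (f : ℕ → ℝ → ℝ≥0∞) (hf : ∀ j, Measurable (f j)) (s : Finset ℕ) :
    ∫⁻ x, ∏ j ∈ s, f j (x j) ∂nuX a B =
      ∏ j ∈ s, ∫⁻ y, f j y ∂gaussianReal (B * a) a.toNNReal := by
  unfold nuX
  rw [lintegral_prod_eq_prod_lintegral_of_indepFun s (fun j (x : ℕ → ℝ) => f j (x j))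
    (iIndepFun_infinitePi (P := fun _ : ℕ => gaussianReal (B * a) a.toNNReal) (X := f) hf)
    (fun j => (hf j).comp (measurable_pi_apply j))]
  refine Finset.prod_congr rfl fun j _ => ?_
  exact (measurePreserving_eval_infinitePi
    (fun _ : ℕ => gaussianReal (B * a) a.toNNReal) j).lintegral_comp (hf j)

theorem uf_three (a B : ℝ) (F E : ℝ → ℝ≥0∞) (hF : Measurable F) (hE : Measurable E) (m : ℕ) :
    ∫⁻ x, F (x 0) * F (x 1) * ∏ j ∈ Finset.Ico 2 m, E (x j) ∂nuX a B =
      (∫⁻ y, F y ∂gaussianReal (B * a) a.toNNReal) ^ 2 *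
        (∫⁻ y, E y ∂gaussianReal (B * a) a.toNNReal) ^ (m - 2) := by
  have h := uf_prod a B (fun j => if j < 2 then F else E) (fun j => by split_ifs; exacts [hF, hE])
    (insert 0 (insert 1 (Finset.Ico 2 m)))
  have h0 : (0 : ℕ) ∉ insert 1 (Finset.Ico 2 m) := by simp
  have h1 : (1 : ℕ) ∉ Finset.Ico 2 m := by simp
  simp only [Finset.prod_insert h0, Finset.prod_insert h1] at h
  have e1 : ∀ x : ℕ → ℝ, ∏ j ∈ Finset.Ico 2 m, (if j < 2 then F else E) (x j)
      = ∏ j ∈ Finset.Ico 2 m, E (x j) := by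
    intro x
    refine Finset.prod_congr rfl fun j hj => ?_
    have := (Finset.mem_Ico.mp hj).1
    rw [if_neg (by omega)]
  have e2 : ∏ j ∈ Finset.Ico 2 m, ∫⁻ y, (if j < 2 then F else E) y
      ∂gaussianReal (B * a) a.toNNReal
      = (∫⁻ y, E y ∂gaussianReal (B * a) a.toNNReal) ^ (m - 2) := by
    rw [← Nat.card_Ico 2 m, ← Finset.prod_const]
    refine Finset.prod_congr rfl fun j hj => ?_
    have := (Finset.mem_Ico.mp hj).1
    rw [if_neg (by omega)]
  rw [e2] at h
  simp only [e1] at h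
  rw [if_pos (by norm_num : (0 : ℕ) < 2), if_pos (by norm_num : (1 : ℕ) < 2)] at h
  simp only [← mul_assoc] at h
  rw [h]
  ring

theorem uf_exp {a : ℝ} (ha : 0 < a) (B s : ℝ) :
    ∫ y, Real.exp (s * y) ∂gaussianReal (B * a) a.toNNReal =
      Real.exp (s * B * a + s ^ 2 * a / 2) := by
  have := mgf_gaussianReal (p := gaussianReal (B * a) a.toNNReal) (X := id) (μ := B * a)
    (v := a.toNNReal) (by simp) s
  simp only [mgf, id_eq] at this
  rw [this, Real.coe_toNNReal _ ha.le]
  congr 1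
  ring

theorem uf_lexp {a : ℝ} (ha : 0 < a) (B s : ℝ) :
    ∫⁻ y, ENNReal.ofReal (Real.exp (s * y)) ∂gaussianReal (B * a) a.toNNReal =
      ENNReal.ofReal (Real.exp (s * B * a + s ^ 2 * a / 2)) := by
  rw [← ofReal_integral_eq_lintegral_ofReal (integrable_exp_mul_gaussianReal s)
    (ae_of_all _ fun y => (Real.exp_pos _).le), uf_exp ha]

theorem uf_exp_le {y : ℝ} : Real.exp y - 1 ≤ y * Real.exp y := by
  have h := Real.add_one_le_exp (-y)
  have h2 : Real.exp y * Real.exp (-y) = 1 := by rw [← Real.exp_add]; simp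
  nlinarith [Real.exp_pos y]

theorem uf_e1 : Real.exp 1 < 2.7182818286 := Real.exp_one_lt_d9

theorem uf_half : Real.exp (1 / 2) ≤ 2 := by
  have h : Real.exp (1 / 2) ^ 2 = Real.exp 1 := by
    rw [← Real.exp_nat_mul]; norm_num
  nlinarith [uf_e1, Real.exp_pos (1 / 2)]

theorem uf_six : Real.exp 6 ≤ 410 := by
  have h : Real.exp 6 = Real.exp 1 ^ 6 := by
    rw [← Real.exp_nat_mul]; norm_num
  have h1 : Real.exp 1 ≤ 2.7183 := by linarith [uf_e1]
  rw [h]
  calc Real.exp 1 ^ 6 ≤ 2.7183 ^ 6 := pow_le_pow_left₀ (Real.exp_pos 1).le h1 6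
    _ ≤ 410 := by norm_num

/-- first moment of `NN - 1` -/
theorem uf_NN1 {a B : ℝ} (ha : 0 < a) (ha1 : a ≤ 1) (hB : 1 / 2 ≤ B) (hB1 : B ≤ 1) :
    ∫⁻ y, ENNReal.ofReal (NN a y - 1) ∂gaussianReal (B * a) a.toNNReal ≤
      ENNReal.ofReal (2500 * √a) := by
  set t : ℝ := √a with ht
  have ht0 : 0 < t := Real.sqrt_pos.2 ha
  have hta : t ^ 2 = a := Real.sq_sqrt ha.le
  have ht1 : t ≤ 1 := Real.sqrt_le_one.mpr ha1
  have hat : a ≤ t := by nlinarith
  have hea : Real.exp (a / 2) ≤ 1 + a := by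
    have h1 : Real.exp (a / 2) - 1 ≤ a / 2 * Real.exp (a / 2) := uf_exp_le
    have h2 : Real.exp (a / 2) ≤ Real.exp (1 / 2) := Real.exp_le_exp.mpr (by linarith)
    have h3 := uf_half
    nlinarith [Real.exp_pos (a / 2)]
  have hpt : ∀ y, NN a y - 1 ≤ 2 * t +
      (Real.exp (-4 * y) - 2 * Real.exp (-2 * y) + 1) / t := by
    intro y
    have e4 : Real.exp (-4 * y) = Real.exp (-2 * y) ^ 2 := by
      rw [← Real.exp_nat_mul]; congr 1; push_cast; ring
    set z := Real.exp (-2 * y) with hz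
    have hz0 : 0 < z := Real.exp_pos _
    have hmax : max 1 z ≤ 1 + |z - 1| := by
      apply max_le
      · linarith [abs_nonneg (z - 1)]
      · linarith [le_abs_self (z - 1)]
    have hd : |z - 1| ≤ ((z - 1) ^ 2 / t + t) / 2 := by
      rw [div_add' _ _ _ ht0.ne', div_div, le_div_iff₀ (by positivity)]
      have := sq_nonneg (|z - 1| - t)
      have h2 := sq_abs (z - 1)
      nlinarith
    have hsq : z ^ 2 - 2 * z + 1 = (z - 1) ^ 2 := by ring
    rw [e4, hsq]
    unfold NN
    rw [← hz]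
    have h5 : Real.exp (a / 2) * max 1 z ≤ (1 + a) * (1 + |z - 1|) := by
      apply mul_le_mul hea hmax (by positivity) (by linarith)
    have h6 : a * |z - 1| ≤ |z - 1| := by nlinarith [abs_nonneg (z - 1)]
    have h7 : 0 ≤ (z - 1) ^ 2 / t := by positivity
    nlinarith
  have hi1 := integrable_exp_mul_gaussianReal (μ := B * a) (v := a.toNNReal) (-4)
  have hi2 := integrable_exp_mul_gaussianReal (μ := B * a) (v := a.toNNReal) (-2)
  have hint : Integrable (fun y => 2 * t +
      (Real.exp (-4 * y) - 2 * Real.exp (-2 * y) + 1) / t) (gaussianReal (B * a) a.toNNReal) :=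
    (integrable_const _).add (((hi1.sub (hi2.const_mul 2)).add (integrable_const _)).div_const t)
  calc ∫⁻ y, ENNReal.ofReal (NN a y - 1) ∂gaussianReal (B * a) a.toNNReal
      ≤ ∫⁻ y, ENNReal.ofReal (2 * t +
          (Real.exp (-4 * y) - 2 * Real.exp (-2 * y) + 1) / t) ∂gaussianReal (B * a) a.toNNReal :=
        lintegral_mono fun y => ENNReal.ofReal_le_ofReal (hpt y)
    _ = ENNReal.ofReal (∫ y, (2 * t +
          (Real.exp (-4 * y) - 2 * Real.exp (-2 * y) + 1) / t)
            ∂gaussianReal (B * a) a.toNNReal) := by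
        rw [ofReal_integral_eq_lintegral_ofReal hint]
        refine ae_of_all _ fun y => ?_
        have e4 : Real.exp (-4 * y) = Real.exp (-2 * y) ^ 2 := by
          rw [← Real.exp_nat_mul]; congr 1; push_cast; ring
        have : 0 ≤ Real.exp (-4 * y) - 2 * Real.exp (-2 * y) + 1 := by
          rw [e4]; nlinarith [sq_nonneg (Real.exp (-2 * y) - 1)]
        change 0 ≤ 2 * t + _ / t
        positivity
    _ ≤ ENNReal.ofReal (2500 * t) := by
        apply ENNReal.ofReal_le_ofReal
        have i3 : Integrable (fun y => Real.exp (-4 * y) - 2 * Real.exp (-2 * y))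
          (gaussianReal (B * a) a.toNNReal) := hi1.sub (hi2.const_mul 2)
        have i4 : Integrable (fun y => Real.exp (-4 * y) - 2 * Real.exp (-2 * y) + 1)
          (gaussianReal (B * a) a.toNNReal) := i3.add (integrable_const _)
        have i5 : Integrable (fun y => (Real.exp (-4 * y) - 2 * Real.exp (-2 * y) + 1) / t)
          (gaussianReal (B * a) a.toNNReal) := i4.div_const t
        rw [integral_add (integrable_const _) i5, integral_div, integral_add i3
          (integrable_const _), integral_sub hi1 (hi2.const_mul 2), 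
          integral_const_mul (2 : ℝ) (fun y => Real.exp (-2 * y)), uf_exp ha, uf_exp ha]
        simp only [integral_const, probReal_univ, one_smul]
        have h1 : Real.exp (-4 * B * a + (-4) ^ 2 * a / 2) ≤ Real.exp (6 * a) :=
          Real.exp_le_exp.mpr (by nlinarith)
        have h2 : 1 ≤ Real.exp (-2 * B * a + (-2) ^ 2 * a / 2) :=
          Real.one_le_exp (by nlinarith)
        have h3 : Real.exp (6 * a) - 1 ≤ 6 * a * Real.exp (6 * a) := uf_exp_le
        have h4 : Real.exp (6 * a) ≤ Real.exp 6 := Real.exp_le_exp.mpr (by linarith)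
        have h5 := uf_six
        have h6 : Real.exp (-4 * B * a + (-4) ^ 2 * a / 2)
            - 2 * Real.exp (-2 * B * a + (-2) ^ 2 * a / 2) + 1 ≤ 2460 * a := by
          nlinarith
        have h7 : (Real.exp (-4 * B * a + (-4) ^ 2 * a / 2)
            - 2 * Real.exp (-2 * B * a + (-2) ^ 2 * a / 2) + 1) / t ≤ 2460 * t := by
          rw [div_le_iff₀ ht0]
          nlinarith
        linarith

theorem uf_NN_ge {a x : ℝ} (ha : 0 ≤ a) : 1 ≤ NN a x := by
  unfold NN
  have h1 : 1 ≤ Real.exp (a / 2) := Real.one_le_exp (by positivity)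
  have h2 : (1 : ℝ) ≤ max 1 (Real.exp (-2 * x)) := le_max_left _ _
  nlinarith

theorem uf_NN_rpow {a x ζ : ℝ} (ha : 0 < a) (ha1 : a ≤ 1) (h1 : ζ ≤ 1) :
    NN a x ^ ζ ≤ 2 * (1 + Real.exp (-2 * ζ * x)) := by
  unfold NN
  rw [Real.mul_rpow (Real.exp_pos _).le (by positivity)]
  have e1 : Real.exp (a / 2) ^ ζ ≤ 2 := by
    calc Real.exp (a / 2) ^ ζ ≤ Real.exp (a / 2) ^ (1 : ℝ) :=
          Real.rpow_le_rpow_of_exponent_le (Real.one_le_exp (by positivity)) h1
      _ = Real.exp (a / 2) := Real.rpow_one _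
      _ ≤ Real.exp (1 / 2) := Real.exp_le_exp.mpr (by linarith)
      _ ≤ 2 := uf_half
  have e2 : (max 1 (Real.exp (-2 * x))) ^ ζ ≤ 1 + Real.exp (-2 * ζ * x) := by
    rcases le_total 1 (Real.exp (-2 * x)) with h | h
    · rw [max_eq_right h, ← Real.exp_mul]
      have : -2 * x * ζ = -2 * ζ * x := by ring
      rw [this]
      linarith
    · rw [max_eq_left h, Real.one_rpow]
      linarith [Real.exp_pos (-2 * ζ * x)]
  exact mul_le_mul e1 e2 (by positivity) (by norm_num)

theorem uf_measurable_NN (a : ℝ) : Measurable (NN a) := by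
  unfold NN
  fun_prop

theorem uf_F {a B ζ : ℝ} (ha : 0 < a) (h0 : 0 ≤ ζ) (hB : ζ ≤ B) :
    ∫⁻ y, ENNReal.ofReal (2 * (1 + Real.exp (-2 * ζ * y))) ∂gaussianReal (B * a) a.toNNReal ≤
      ENNReal.ofReal 4 := by
  have e : ∀ y, ENNReal.ofReal (2 * (1 + Real.exp (-2 * ζ * y))) =
      ENNReal.ofReal 2 + ENNReal.ofReal 2 * ENNReal.ofReal (Real.exp (-2 * ζ * y)) := by
    intro y
    rw [mul_add, mul_one, ENNReal.ofReal_add (by norm_num) (by positivity),
      ENNReal.ofReal_mul (by norm_num)]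
  simp_rw [e]
  rw [lintegral_add_left measurable_const, lintegral_const, measure_univ, mul_one,
    lintegral_const_mul _ (by fun_prop), uf_lexp ha,
    ← ENNReal.ofReal_mul (by norm_num), ← ENNReal.ofReal_add (by norm_num) (by positivity)]
  apply ENNReal.ofReal_le_ofReal
  have : Real.exp (-2 * ζ * B * a + (-2 * ζ) ^ 2 * a / 2) ≤ 1 := by
    rw [Real.exp_le_one_iff]
    have : -2 * ζ * B * a + (-2 * ζ) ^ 2 * a / 2 = -(2 * ζ * a * (B - ζ)) := by ring
    rw [this]
    have : 0 ≤ 2 * ζ * a * (B - ζ) := by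
      have : 0 ≤ B - ζ := by linarith
      positivity
    linarith
  linarith

theorem uf_E {a B ζ : ℝ} (ha : 0 < a) (k : ℕ) :
    (∫⁻ y, ENNReal.ofReal (Real.exp (-2 * ζ * y)) ∂gaussianReal (B * a) a.toNNReal) ^ k =
      ENNReal.ofReal (Real.exp (-(2 * ζ * (a * (B - ζ) * k)))) := by
  rw [uf_lexp ha, ← ENNReal.ofReal_pow (Real.exp_pos _).le, ← Real.exp_nat_mul]
  congr 2
  ring

theorem uf_FFE {a B ζ : ℝ} (ha : 0 < a) (h0 : 1 / 2 ≤ ζ) (hB : ζ ≤ B) (m : ℕ) :
    ∫⁻ x, ENNReal.ofReal (2 * (1 + Real.exp (-2 * ζ * x 0))) *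
        ENNReal.ofReal (2 * (1 + Real.exp (-2 * ζ * x 1))) *
        ∏ j ∈ Finset.Ico 2 m, ENNReal.ofReal (Real.exp (-2 * ζ * x j)) ∂nuX a B ≤
      ENNReal.ofReal (16 * Real.exp (-(a * (B - ζ) * (m - 2 : ℕ)))) := by
  rw [uf_three a B (fun y => ENNReal.ofReal (2 * (1 + Real.exp (-2 * ζ * y))))
    (fun y => ENNReal.ofReal (Real.exp (-2 * ζ * y))) (by fun_prop) (by fun_prop) m, uf_E ha,
    ENNReal.ofReal_mul (by norm_num)]
  have h16 : ENNReal.ofReal 16 = ENNReal.ofReal 4 ^ 2 := by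
    rw [← ENNReal.ofReal_pow (by norm_num)]; norm_num
  rw [h16]
  refine mul_le_mul' (pow_le_pow_left' (uf_F ha (by linarith) hB) 2) ?_
  apply ENNReal.ofReal_le_ofReal
  rw [Real.exp_le_exp]
  have h1 : 0 ≤ a * (B - ζ) * ((m - 2 : ℕ) : ℝ) := by
    have : 0 ≤ B - ζ := by linarith
    positivity
  nlinarith

theorem uf_sum_exp (ζ : ℝ) (m : ℕ) (x : ℕ → ℝ) :
    ENNReal.ofReal (Real.exp (-2 * ∑ j ∈ Finset.Ico 2 m, x j) ^ ζ) =
      ∏ j ∈ Finset.Ico 2 m, ENNReal.ofReal (Real.exp (-2 * ζ * x j)) := by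
  rw [← Real.exp_mul, ← ENNReal.ofReal_prod_of_nonneg (fun j _ => (Real.exp_pos _).le),
    ← Real.exp_sum]
  congr 2
  rw [Finset.mul_sum, Finset.sum_mul]
  refine Finset.sum_congr rfl fun j _ => ?_
  ring

theorem gauss_est : ∃ C : ℝ, 1 ≤ C ∧ ∀ a B ζ : ℝ, 0 < a → a ≤ 1 → B ≤ 1 → 1 / 2 ≤ ζ → ζ ≤ B →
    (∀ m : ℕ, ∫⁻ x, ENNReal.ofReal ((UU a m x) ^ ζ) ∂nuX a B ≤ ENNReal.ofReal C) ∧
    ∀ m : ℕ, 2 ≤ m → ∫⁻ x, ENNReal.ofReal ((UU a m x - 1 / 2) ^ ζ) ∂nuX a B ≤
      ENNReal.ofReal (C * (a ^ (1 / 4 : ℝ) + Real.exp (-(a * (B - ζ) * (m - 2))))) := by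
  refine ⟨7000000, by norm_num, fun a B ζ ha ha1 hB1 hζ hζB => ?_⟩
  have hζ1 : ζ ≤ 1 := hζB.trans hB1
  have hζ0 : 0 ≤ ζ := by linarith
  set F : ℝ → ℝ≥0∞ := fun y => ENNReal.ofReal (2 * (1 + Real.exp (-2 * ζ * y))) with hF
  have hFm : Measurable F := by fun_prop
  have hNF : ∀ x, ENNReal.ofReal (NN a x ^ ζ) ≤ F x := fun x =>
    ENNReal.ofReal_le_ofReal (uf_NN_rpow ha ha1 hζ1)
  have hprob : IsProbabilityMeasure (nuX a B) := by unfold nuX; infer_instance
  constructor
  · intro m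
    have hpt : ∀ x : ℕ → ℝ, ENNReal.ofReal ((UU a m x) ^ ζ) ≤
        F (x 0) * F (x 1) * ∏ j ∈ Finset.Ico 2 2, ENNReal.ofReal (Real.exp (-2 * ζ * x j)) +
        F (x 0) * F (x 1) * ∏ j ∈ Finset.Ico 2 m, ENNReal.ofReal (Real.exp (-2 * ζ * x j)) := by
      intro x
      have n0 : 0 ≤ NN a (x 0) := by linarith [uf_NN_ge (x := x 0) ha.le]
      have n1 : 0 ≤ NN a (x 1) := by linarith [uf_NN_ge (x := x 1) ha.le]
      set w := Real.exp (-2 * ∑ j ∈ Finset.Ico 2 m, x j) with hw
      have hw0 : 0 < w := Real.exp_pos _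
      have h1 : ((1 + w) / 2) ^ ζ ≤ 1 + w ^ ζ := by
        calc ((1 + w) / 2) ^ ζ ≤ (1 + w) ^ ζ :=
              Real.rpow_le_rpow (by positivity) (by linarith) hζ0
          _ ≤ 1 ^ ζ + w ^ ζ := Real.rpow_add_le_add_rpow (by norm_num) hw0.le hζ0 hζ1
          _ = 1 + w ^ ζ := by rw [Real.one_rpow]
      have h2 : (UU a m x) ^ ζ ≤ NN a (x 0) ^ ζ * NN a (x 1) ^ ζ * (1 + w ^ ζ) := by
        unfold UU
        rw [Real.mul_rpow (by positivity) (by positivity), Real.mul_rpow n0 n1]
        exact mul_le_mul_of_nonneg_left h1 (by positivity)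
      refine (ENNReal.ofReal_le_ofReal h2).trans ?_
      rw [ENNReal.ofReal_mul (by positivity), ENNReal.ofReal_mul (by positivity),
        ENNReal.ofReal_add (by norm_num) (by positivity), mul_add, hw, uf_sum_exp]
      simp only [ENNReal.ofReal_one, Finset.Ico_self, Finset.prod_empty]
      gcongr
      · exact hNF _
      · exact hNF _
      · exact hNF _
      · exact hNF _
    refine (lintegral_mono hpt).trans ?_
    rw [lintegral_add_left (by
      simp only [Finset.Ico_self, Finset.prod_empty, mul_one]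
      exact (hFm.comp (measurable_pi_apply 0)).mul (hFm.comp (measurable_pi_apply 1)))]
    refine (add_le_add (uf_FFE ha hζ hζB 2) (uf_FFE ha hζ hζB m)).trans ?_
    rw [← ENNReal.ofReal_add (by positivity) (by positivity)]
    apply ENNReal.ofReal_le_ofReal
    have hexp : ∀ k : ℕ, Real.exp (-(a * (B - ζ) * k)) ≤ 1 := by
      intro k
      rw [Real.exp_le_one_iff]
      have : 0 ≤ a * (B - ζ) * k := by
        have : 0 ≤ B - ζ := by linarith
        positivity
      linarith
    linarith [hexp (2 - 2), hexp (m - 2)]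
  · intro m hm
    set t : ℝ := √a with ht
    have ht0 : 0 < t := Real.sqrt_pos.2 ha
    have hta : t ^ 2 = a := Real.sq_sqrt ha.le
    have ht1 : t ≤ 1 := Real.sqrt_le_one.mpr ha1
    set b : ℝ := a ^ (1 / 4 : ℝ) with hb
    have hb0 : 0 < b := by positivity
    set G : ℝ → ℝ≥0∞ := fun y => ENNReal.ofReal (NN a y - 1) with hG
    have hGm : Measurable G := ((uf_measurable_NN a).sub_const 1).ennreal_ofReal
    have hgint : ∫⁻ y, G y ∂gaussianReal (B * a) a.toNNReal ≤ ENNReal.ofReal (2500 * t) :=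
      uf_NN1 ha ha1 (by linarith) hB1
    have hpt : ∀ x : ℕ → ℝ, ENNReal.ofReal ((UU a m x - 1 / 2) ^ ζ) ≤
        (ENNReal.ofReal b + ENNReal.ofReal (b / t) * (G (x 0) + G (x 1) + G (x 0) * G (x 1))) +
        F (x 0) * F (x 1) * ∏ j ∈ Finset.Ico 2 m, ENNReal.ofReal (Real.exp (-2 * ζ * x j)) := by
      intro x
      have n0' := uf_NN_ge (x := x 0) ha.le
      have n1' := uf_NN_ge (x := x 1) ha.le
      have n0 : 0 ≤ NN a (x 0) := by linarith
      have n1 : 0 ≤ NN a (x 1) := by linarith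
      set w := Real.exp (-2 * ∑ j ∈ Finset.Ico 2 m, x j) with hw
      have hw0 : 0 < w := Real.exp_pos _
      set y := NN a (x 0) * NN a (x 1) - 1 with hy
      have hy0 : 0 ≤ y := by nlinarith
      have hyw : UU a m x - 1 / 2 ≤ y + NN a (x 0) * NN a (x 1) * w := by
        unfold UU
        rw [← hw]
        have : 0 < NN a (x 0) * NN a (x 1) * w := by positivity
        nlinarith
      have hU0 : 0 ≤ UU a m x - 1 / 2 := by
        unfold UU
        rw [← hw]
        have : 0 < NN a (x 0) * NN a (x 1) * w := by positivity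
        nlinarith
      have h1 : (UU a m x - 1 / 2) ^ ζ ≤ y ^ ζ + NN a (x 0) ^ ζ * NN a (x 1) ^ ζ * w ^ ζ := by
        calc (UU a m x - 1 / 2) ^ ζ ≤ (y + NN a (x 0) * NN a (x 1) * w) ^ ζ :=
              Real.rpow_le_rpow hU0 hyw hζ0
          _ ≤ y ^ ζ + (NN a (x 0) * NN a (x 1) * w) ^ ζ :=
              Real.rpow_add_le_add_rpow hy0 (by positivity) hζ0 hζ1
          _ = _ := by
              rw [Real.mul_rpow (by positivity) hw0.le, Real.mul_rpow n0 n1]
      have h2 : y ^ ζ ≤ b * (1 + y / t) := by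
        have e1 : y ^ ζ = t ^ ζ * (y / t) ^ ζ := by
          rw [← Real.mul_rpow ht0.le (by positivity)]
          congr 1
          field_simp
        have e2 : t ^ ζ ≤ b := by
          rw [ht, Real.sqrt_eq_rpow, ← Real.rpow_mul ha.le, hb]
          exact Real.rpow_le_rpow_of_exponent_ge ha ha1 (by linarith)
        have e3 : (y / t) ^ ζ ≤ 1 + y / t := by
          have hr : 0 ≤ y / t := by positivity
          rcases le_total (y / t) 1 with h | h
          · have := Real.rpow_le_one hr h hζ0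
            linarith
          · have : (y / t) ^ ζ ≤ (y / t) ^ (1 : ℝ) := Real.rpow_le_rpow_of_exponent_le h hζ1
            rw [Real.rpow_one] at this
            linarith
        rw [e1]
        exact mul_le_mul e2 e3 (by positivity) hb0.le
      have h3 : ENNReal.ofReal (b * (1 + y / t)) = ENNReal.ofReal b + ENNReal.ofReal (b / t) *
          (G (x 0) + G (x 1) + G (x 0) * G (x 1)) := by
        have hs : G (x 0) + G (x 1) + G (x 0) * G (x 1) = ENNReal.ofReal y := by
          simp only [hG]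
          rw [← ENNReal.ofReal_mul (by linarith), ← ENNReal.ofReal_add (by linarith) (by linarith),
            ← ENNReal.ofReal_add (by linarith) (by nlinarith)]
          congr 1
          rw [hy]
          ring
        rw [hs, ← ENNReal.ofReal_mul (by positivity), ← ENNReal.ofReal_add hb0.le (by positivity)]
        congr 1
        field_simp
      refine (ENNReal.ofReal_le_ofReal (h1.trans (add_le_add h2 le_rfl))).trans ?_
      rw [ENNReal.ofReal_add (by positivity) (by positivity), h3, ENNReal.ofReal_mul (by positivity),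
        ENNReal.ofReal_mul (by positivity), hw, uf_sum_exp]
      gcongr
      · exact hNF _
      · exact hNF _
    refine (lintegral_mono hpt).trans ?_
    have hG0 : Measurable fun x : ℕ → ℝ => G (x 0) := hGm.comp (measurable_pi_apply 0)
    have hG1 : Measurable fun x : ℕ → ℝ => G (x 1) := hGm.comp (measurable_pi_apply 1)
    rw [lintegral_add_left (by fun_prop), lintegral_add_left measurable_const,
      lintegral_const, measure_univ, mul_one, lintegral_const_mul _ (by fun_prop),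
      lintegral_add_left (by fun_prop), lintegral_add_left hG0]
    have i0 : ∫⁻ x, G (x 0) ∂nuX a B = ∫⁻ y, G y ∂gaussianReal (B * a) a.toNNReal := by
      have := uf_prod a B (fun _ => G) (fun _ => hGm) {0}
      simpa using this
    have i1 : ∫⁻ x, G (x 1) ∂nuX a B = ∫⁻ y, G y ∂gaussianReal (B * a) a.toNNReal := by
      have := uf_prod a B (fun _ => G) (fun _ => hGm) {1}
      simpa using this
    have i2 : ∫⁻ x, G (x 0) * G (x 1) ∂nuX a B =
        (∫⁻ y, G y ∂gaussianReal (B * a) a.toNNReal) ^ 2 := by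
      have := uf_three a B G (fun _ => 1) hGm measurable_const 2
      simpa using this
    rw [i0, i1, i2]
    have hsum : (∫⁻ y, G y ∂gaussianReal (B * a) a.toNNReal) +
        (∫⁻ y, G y ∂gaussianReal (B * a) a.toNNReal) +
        (∫⁻ y, G y ∂gaussianReal (B * a) a.toNNReal) ^ 2 ≤ ENNReal.ofReal (6255000 * t) := by
      calc _ ≤ ENNReal.ofReal (2500 * t) + ENNReal.ofReal (2500 * t) +
            ENNReal.ofReal (2500 * t) ^ 2 := by gcongr
        _ = ENNReal.ofReal (2500 * t + 2500 * t + (2500 * t) ^ 2) := by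
            rw [← ENNReal.ofReal_pow (by positivity), ← ENNReal.ofReal_add (by positivity)
              (by positivity), ← ENNReal.ofReal_add (by positivity) (by positivity)]
        _ ≤ _ := by
            apply ENNReal.ofReal_le_ofReal
            nlinarith
    refine (add_le_add (add_le_add le_rfl (mul_le_mul' le_rfl hsum))
      (uf_FFE ha hζ hζB m)).trans ?_
    rw [← ENNReal.ofReal_mul (by positivity), ← ENNReal.ofReal_add (by positivity) (by positivity),
      ← ENNReal.ofReal_add (by positivity) (by positivity)]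
    apply ENNReal.ofReal_le_ofReal
    have hcast : ((m - 2 : ℕ) : ℝ) = (m : ℝ) - 2 := by
      push_cast [Nat.cast_sub hm]; ring
    rw [hcast]
    have e1 : b / t * (6255000 * t) = 6255000 * b := by field_simp
    rw [e1]
    nlinarith [Real.exp_pos (-(a * (B - ζ) * (m - 2)))]

end Pool.Agent.Lib.MP_3d9a2b_pr
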