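import Pool.Agent.Lib.MP_3d9a2b_pr.U.Defs

set_option autoImplicit false

namespace Pool.Agent.Lib.MP_3d9a2b_pr

open MeasureTheory ProbabilityTheory Filter Topology
open scoped NNReal ENNReal

theorem qq_nonneg {α : ℝ} (h0 : 0 < α) (m : ℕ) : 0 ≤ qq α m := by
  unfold qq
  split_ifs <;> positivity

theorem ud_two_rpow {α : ℝ} (h1 : α ≤ 1 / 20) : (2 : ℝ) ^ α ≤ 104 / 100 := by
  have h2 : (2 : ℝ) ^ α ≤ (2 : ℝ) ^ (1 / 20 : ℝ) :=
    Real.rpow_le_rpow_of_exponent_le (by norm_num) h1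
  refine h2.trans ?_
  have h3 : ((2 : ℝ) ^ (1 / 20 : ℝ)) ^ (20 : ℕ) = 2 := by
    rw [← Real.rpow_natCast, ← Real.rpow_mul (by norm_num)]
    norm_num
  by_contra hne
  push Not at hne
  have h4 : (104 / 100 : ℝ) ^ 20 < ((2 : ℝ) ^ (1 / 20 : ℝ)) ^ (20 : ℕ) :=
    pow_lt_pow_left₀ hne (by norm_num) (by norm_num)
  rw [h3] at h4
  norm_num at h4

theorem ud_three_rpow {α : ℝ} (h1 : α ≤ 1 / 20) : (3 : ℝ) ^ α ≤ 106 / 100 := by
  have h2 : (3 : ℝ) ^ α ≤ (3 : ℝ) ^ (1 / 20 : ℝ) :=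
    Real.rpow_le_rpow_of_exponent_le (by norm_num) h1
  refine h2.trans ?_
  have h3 : ((3 : ℝ) ^ (1 / 20 : ℝ)) ^ (20 : ℕ) = 3 := by
    rw [← Real.rpow_natCast, ← Real.rpow_mul (by norm_num)]
    norm_num
  by_contra hne
  push Not at hne
  have h4 : (106 / 100 : ℝ) ^ 20 < ((3 : ℝ) ^ (1 / 20 : ℝ)) ^ (20 : ℕ) :=
    pow_lt_pow_left₀ hne (by norm_num) (by norm_num)
  rw [h3] at h4
  norm_num at h4

theorem ud_ten_rpow {α : ℝ} (h1 : α ≤ 1 / 20) : (10 : ℝ) ^ α ≤ 113 / 100 := by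
  have h2 : (10 : ℝ) ^ α ≤ (10 : ℝ) ^ (1 / 20 : ℝ) :=
    Real.rpow_le_rpow_of_exponent_le (by norm_num) h1
  refine h2.trans ?_
  have h3 : ((10 : ℝ) ^ (1 / 20 : ℝ)) ^ (20 : ℕ) = 10 := by
    rw [← Real.rpow_natCast, ← Real.rpow_mul (by norm_num)]
    norm_num
  by_contra hne
  push Not at hne
  have h4 : (113 / 100 : ℝ) ^ 20 < ((10 : ℝ) ^ (1 / 20 : ℝ)) ^ (20 : ℕ) :=
    pow_lt_pow_left₀ hne (by norm_num) (by norm_num)
  rw [h3] at h4
  norm_num at h4

/-- comparison of powers: if `i ≤ c j` then `j^{-(1+α)} ≤ c^{1+α} i^{-(1+α)}` -/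
theorem ud_rpow_le {α c x y : ℝ} (h0 : 0 < α) (hx : 0 < x) (hc : 0 < c)
    (hxy : x ≤ c * y) : y ^ (-(1 + α)) ≤ c ^ (1 + α) * x ^ (-(1 + α)) := by
  have h1 : x / c ≤ y := by
    rw [div_le_iff₀ hc]
    linarith
  have h2 : y ^ (-(1 + α)) ≤ (x / c) ^ (-(1 + α)) :=
    Real.rpow_le_rpow_of_nonpos (by positivity) h1 (by linarith)
  refine h2.trans (le_of_eq ?_)
  rw [Real.div_rpow hx.le hc.le, Real.rpow_neg hc.le, div_inv_eq_mul, mul_comm]

theorem qq_le {α : ℝ} (h0 : 0 < α) (h1 : α ≤ 1 / 20) {m : ℕ} (hm : 2 ≤ m) :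
    qq α m ≤ 8 * α * (m : ℝ) ^ (-(1 + α)) := by
  unfold qq
  split_ifs with h
  · have h2 : m = 2 := by omega
    subst h2
    have h3 := ud_two_rpow h1
    have h4 : ((2 : ℕ) : ℝ) ^ (-(1 + α)) = 1 / 2 * ((2 : ℝ) ^ α)⁻¹ := by
      push_cast
      rw [neg_add, Real.rpow_add (by norm_num), Real.rpow_neg_one, Real.rpow_neg (by norm_num)]
      norm_num
    rw [h4]
    have h5 : (0 : ℝ) < 2 ^ α := by positivity
    have h6 : (104 / 100 : ℝ)⁻¹ ≤ ((2 : ℝ) ^ α)⁻¹ := inv_anti₀ h5 h3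
    norm_num at h6
    nlinarith
  · have h2 : 3 ≤ m := by omega
    have h3 := ud_two_rpow h1
    have h4 := ud_three_rpow h1
    have h5 : (1 : ℝ) ≤ ((m - 2 : ℕ) : ℝ) := by
      have : 1 ≤ m - 2 := by omega
      exact_mod_cast this
    have h6 : (m : ℝ) ≤ 3 * ((m - 2 : ℕ) : ℝ) := by
      have : m ≤ 3 * (m - 2) := by omega
      exact_mod_cast this
    have h7 := ud_rpow_le h0 (by positivity : (0 : ℝ) < (m : ℝ)) (by norm_num) h6
    have h8 : (3 : ℝ) ^ (1 + α) ≤ 318 / 100 := by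
      rw [Real.rpow_add (by norm_num), Real.rpow_one]
      linarith
    have h9 : (0 : ℝ) ≤ (m : ℝ) ^ (-(1 + α)) := by positivity
    calc 5 / 4 * α * 2 ^ α * ((m - 2 : ℕ) : ℝ) ^ (-(1 + α))
        ≤ 5 / 4 * α * (104 / 100) * (318 / 100 * (m : ℝ) ^ (-(1 + α))) := by
          refine mul_le_mul ?_ ?_ (by positivity) (by positivity)
          · exact mul_le_mul_of_nonneg_left h3 (by positivity)
          · exact h7.trans (mul_le_mul_of_nonneg_right h8 h9)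
      _ ≤ 8 * α * (m : ℝ) ^ (-(1 + α)) := by
          have : 0 ≤ α * (m : ℝ) ^ (-(1 + α)) := by positivity
          nlinarith

theorem ud_GG_zero (α : ℝ) : GG α 0 = 1 := by
  rw [GG]

theorem ud_GG_succ (α : ℝ) (n : ℕ) : GG α (n + 1) =
    ∑ m ∈ Finset.Ico 2 (n + 2), qq α m / 2 * GG α (n + 1 - m) := by
  rw [GG]
  simp only [dite_eq_ite]
  rw [Fin.sum_univ_eq_sum_range
    (fun m => if 2 ≤ m then qq α m / 2 * GG α (n + 1 - m) else 0) (n + 2)]
  rw [← Finset.sum_filter]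
  congr 1
  ext m
  simp only [Finset.mem_filter, Finset.mem_range, Finset.mem_Ico]
  omega

theorem GG_nonneg {α : ℝ} (h0 : 0 < α) (j : ℕ) : 0 ≤ GG α j := by
  induction j using Nat.strong_induction_on with
  | _ j ih =>
    cases j with
    | zero => rw [ud_GG_zero]; norm_num
    | succ n =>
      rw [ud_GG_succ]
      refine Finset.sum_nonneg fun m hm => ?_
      rw [Finset.mem_Ico] at hm
      have := ih (n + 1 - m) (by omega)
      have := qq_nonneg h0 m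
      positivity

/-- the elementary comparison with the integral -/
theorem ud_tele {α : ℝ} (h0 : 0 < α) (j : ℕ) (hj : 1 ≤ j) :
    ((j + 1 : ℕ) : ℝ) ^ (-(1 + α)) ≤
      ((j : ℝ) ^ (-α) - ((j + 1 : ℕ) : ℝ) ^ (-α)) / α := by
  have hjp : (0 : ℝ) < j := by exact_mod_cast hj
  have hj1 : (0 : ℝ) < ((j + 1 : ℕ) : ℝ) := by positivity
  rw [le_div_iff₀ h0]
  have h1 : ((j + 1 : ℕ) : ℝ) ^ (-(1 + α)) = (((j + 1 : ℕ) : ℝ))⁻¹ * ((j + 1 : ℕ) : ℝ) ^ (-α) := by
    rw [neg_add, Real.rpow_add hj1, Real.rpow_neg_one]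
  have h2 : (j : ℝ) ^ (-α) = ((j : ℝ) / ((j + 1 : ℕ) : ℝ)) ^ (-α) * ((j + 1 : ℕ) : ℝ) ^ (-α) := by
    rw [Real.div_rpow hjp.le hj1.le, div_mul_cancel₀]
    positivity
  have h3 : 1 + α * (((j + 1 : ℕ) : ℝ))⁻¹ ≤ ((j : ℝ) / ((j + 1 : ℕ) : ℝ)) ^ (-α) := by
    have hpos : 0 < (j : ℝ) / ((j + 1 : ℕ) : ℝ) := by positivity
    rw [Real.rpow_def_of_pos hpos]
    have h4 : Real.log ((j : ℝ) / ((j + 1 : ℕ) : ℝ)) ≤ (j : ℝ) / ((j + 1 : ℕ) : ℝ) - 1 :=
      Real.log_le_sub_one_of_pos hpos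
    have h5 : (j : ℝ) / ((j + 1 : ℕ) : ℝ) - 1 = -(((j + 1 : ℕ) : ℝ))⁻¹ := by
      field_simp
      push_cast
      ring
    rw [h5] at h4
    have h6 := Real.add_one_le_exp (Real.log ((j : ℝ) / ((j + 1 : ℕ) : ℝ)) * -α)
    nlinarith
  have h4 : (0 : ℝ) < ((j + 1 : ℕ) : ℝ) ^ (-α) := by positivity
  rw [h1, h2]
  nlinarith

theorem ud_sum_rpow {α : ℝ} (h0 : 0 < α) (n : ℕ) :
    ∑ j ∈ Finset.range n, ((j + 1 : ℕ) : ℝ) ^ (-(1 + α)) ≤ 1 + 1 / α := by
  have h1 : ∀ n : ℕ, ∑ j ∈ Finset.range (n + 1), ((j + 1 : ℕ) : ℝ) ^ (-(1 + α)) ≤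
      1 + (1 - ((n + 1 : ℕ) : ℝ) ^ (-α)) / α := by
    intro n
    induction n with
    | zero => simp
    | succ n ih =>
      rw [Finset.sum_range_succ]
      have h2 := ud_tele h0 (n + 1) (by omega)
      have h3 : 1 + (1 - ((n + 1 + 1 : ℕ) : ℝ) ^ (-α)) / α =
          1 + (1 - ((n + 1 : ℕ) : ℝ) ^ (-α)) / α +
          (((n + 1 : ℕ) : ℝ) ^ (-α) - ((n + 1 + 1 : ℕ) : ℝ) ^ (-α)) / α := by
        ring
      rw [h3]
      exact add_le_add ih h2
  cases n with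
  | zero =>
    simp only [Finset.range_zero, Finset.sum_empty]
    positivity
  | succ n =>
    refine (h1 n).trans ?_
    have h2 : 0 ≤ ((n + 1 : ℕ) : ℝ) ^ (-α) := by positivity
    have h3 : (1 - ((n + 1 : ℕ) : ℝ) ^ (-α)) / α ≤ 1 / α :=
      div_le_div_of_nonneg_right (by linarith) h0.le
    linarith

theorem ud_sum_qq {α : ℝ} (h0 : 0 < α) (h1 : α ≤ 1 / 20) (N : ℕ) :
    ∑ m ∈ Finset.Ico 2 N, qq α m / 2 ≤ 76 / 100 := by
  have h2 : ∀ N : ℕ, ∑ m ∈ Finset.Ico 2 N, qq α m ≤ 3 * α + 5 / 4 * α * 2 ^ α *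
      ∑ j ∈ Finset.range (N - 3), ((j + 1 : ℕ) : ℝ) ^ (-(1 + α)) := by
    intro N
    rcases le_or_gt N 2 with hN | hN
    · rw [Finset.Ico_eq_empty (by omega), Finset.sum_empty]
      have : 0 ≤ ∑ j ∈ Finset.range (N - 3), ((j + 1 : ℕ) : ℝ) ^ (-(1 + α)) :=
        Finset.sum_nonneg fun j _ => by positivity
      positivity
    · rw [Finset.sum_eq_sum_Ico_succ_bot hN, Finset.mul_sum]
      refine add_le_add (le_of_eq (by simp [qq])) (le_of_eq ?_)
      rw [Finset.sum_Ico_eq_sum_range]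
      have : N - (2 + 1) = N - 3 := by omega
      rw [this]
      refine Finset.sum_congr rfl fun j _ => ?_
      rw [qq, if_neg (by omega)]
      congr 3
      omega
  rw [← Finset.sum_div, div_le_iff₀ (by norm_num)]
  refine (h2 N).trans ?_
  have h3 := ud_sum_rpow h0 (N - 3)
  have h4 := ud_two_rpow h1
  have h5 : α * ∑ j ∈ Finset.range (N - 3), ((j + 1 : ℕ) : ℝ) ^ (-(1 + α)) ≤ α + 1 := by
    calc α * ∑ j ∈ Finset.range (N - 3), ((j + 1 : ℕ) : ℝ) ^ (-(1 + α)) ≤ α * (1 + 1 / α) :=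
          mul_le_mul_of_nonneg_left h3 h0.le
      _ = α + 1 := by field_simp
  have h6 : 0 ≤ α * ∑ j ∈ Finset.range (N - 3), ((j + 1 : ℕ) : ℝ) ^ (-(1 + α)) :=
    mul_nonneg h0.le (Finset.sum_nonneg fun j _ => by positivity)
  have h7 : (2 : ℝ) ^ α * (α * ∑ j ∈ Finset.range (N - 3), ((j + 1 : ℕ) : ℝ) ^ (-(1 + α))) ≤
      104 / 100 * (α + 1) := mul_le_mul h4 h5 h6 (by norm_num)
  nlinarith

theorem ud_sum_GG {α : ℝ} (h0 : 0 < α) (h1 : α ≤ 1 / 20) (n : ℕ) :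
    ∑ j ∈ Finset.range n, GG α j ≤ 25 / 6 := by
  induction n using Nat.strong_induction_on with
  | _ n ih =>
    cases n with
    | zero => norm_num
    | succ n =>
      rw [Finset.sum_range_succ', ud_GG_zero]
      have h2 : ∑ j ∈ Finset.range n, GG α (j + 1) =
          ∑ m ∈ Finset.Ico 2 (n + 1), ∑ i ∈ Finset.range (n + 1 - m), qq α m / 2 * GG α i := by
        simp only [ud_GG_succ]
        rw [Finset.sum_comm' (t' := Finset.Ico 2 (n + 1))
          (s' := fun m => Finset.Ico (m - 1) n)]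
        · refine Finset.sum_congr rfl fun m hm => ?_
          rw [Finset.mem_Ico] at hm
          rw [Finset.sum_Ico_eq_sum_range]
          have : n - (m - 1) = n + 1 - m := by omega
          rw [this]
          refine Finset.sum_congr rfl fun i _ => ?_
          congr 2
          omega
        · intro j m
          simp only [Finset.mem_range, Finset.mem_Ico]
          omega
      rw [h2]
      have h3 : ∑ m ∈ Finset.Ico 2 (n + 1), ∑ i ∈ Finset.range (n + 1 - m), qq α m / 2 * GG α i ≤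
          ∑ m ∈ Finset.Ico 2 (n + 1), qq α m / 2 * (25 / 6) := by
        refine Finset.sum_le_sum fun m hm => ?_
        rw [Finset.mem_Ico] at hm
        rw [← Finset.mul_sum]
        have := qq_nonneg h0 m
        exact mul_le_mul_of_nonneg_left (ih (n + 1 - m) (by omega)) (by positivity)
      rw [← Finset.sum_mul] at h3
      have h4 := ud_sum_qq h0 h1 (n + 1)
      linarith

theorem green_bound : ∃ K₁ : ℝ, 1 ≤ K₁ ∧ ∀ α : ℝ, 0 < α → α ≤ 1 / 20 → ∀ j : ℕ, 1 ≤ j →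
    GG α j ≤ K₁ * α * (j : ℝ) ^ (-(1 + α)) := by
  refine ⟨2000, by norm_num, ?_⟩
  intro α h0 h1 j
  induction j using Nat.strong_induction_on with
  | _ j ih =>
    intro hj
    obtain ⟨n, rfl⟩ : ∃ n, j = n + 1 := ⟨j - 1, by omega⟩
    rw [ud_GG_succ]
    have hJ : (0 : ℝ) < ((n + 1 : ℕ) : ℝ) := by positivity
    set Z := ((n + 1 : ℕ) : ℝ) ^ (-(1 + α)) with hZ
    have hZ0 : 0 < Z := by positivity
    have h109 : (10 / 9 : ℝ) ^ (1 + α) ≤ 1118 / 1000 := by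
      have h2 : (10 / 9 : ℝ) ^ α ≤ (10 / 9 : ℝ) ^ (1 / 20 : ℝ) :=
        Real.rpow_le_rpow_of_exponent_le (by norm_num) h1
      have h3 : ((10 / 9 : ℝ) ^ (1 / 20 : ℝ)) ^ (20 : ℕ) = 10 / 9 := by
        rw [← Real.rpow_natCast, ← Real.rpow_mul (by norm_num)]
        norm_num
      have h4 : (10 / 9 : ℝ) ^ (1 / 20 : ℝ) ≤ 1006 / 1000 := by
        by_contra hne
        push Not at hne
        have h4 : (1006 / 1000 : ℝ) ^ 20 < ((10 / 9 : ℝ) ^ (1 / 20 : ℝ)) ^ (20 : ℕ) :=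
          pow_lt_pow_left₀ hne (by norm_num) (by norm_num)
        rw [h3] at h4
        norm_num at h4
      rw [Real.rpow_add (by norm_num), Real.rpow_one]
      linarith
    have h10 : (10 : ℝ) ^ (1 + α) ≤ 113 / 10 := by
      rw [Real.rpow_add (by norm_num), Real.rpow_one]
      have := ud_ten_rpow h1
      linarith
    have hZa : 0 < α * Z := by positivity
    -- termwise bound
    have h2 : ∀ m ∈ Finset.Ico 2 (n + 2), qq α m / 2 * GG α (n + 1 - m) ≤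
        qq α m / 2 * (2236 * (α * Z)) + 452 / 10 * (α * Z) * GG α (n + 1 - m) := by
      intro m hm
      rw [Finset.mem_Ico] at hm
      have hq := qq_nonneg h0 m
      have hG := GG_nonneg h0 (n + 1 - m)
      by_cases hc : 10 * m < n + 1
      · have h3 := ih (n + 1 - m) (by omega) (by omega)
        have h4 : ((n + 1 : ℕ) : ℝ) ≤ 10 / 9 * ((n + 1 - m : ℕ) : ℝ) := by
          have : 9 * (n + 1) ≤ 10 * (n + 1 - m) := by omega
          have h5 : (9 : ℝ) * ((n + 1 : ℕ) : ℝ) ≤ 10 * ((n + 1 - m : ℕ) : ℝ) := by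
            exact_mod_cast this
          linarith
        have h5 := ud_rpow_le h0 hJ (by norm_num) h4
        have h6 : ((n + 1 - m : ℕ) : ℝ) ^ (-(1 + α)) ≤ 1118 / 1000 * Z :=
          h5.trans (mul_le_mul_of_nonneg_right h109 hZ0.le)
        have h7 : GG α (n + 1 - m) ≤ 2236 * (α * Z) := by
          refine h3.trans ?_
          have : 2000 * α * ((n + 1 - m : ℕ) : ℝ) ^ (-(1 + α)) ≤
              2000 * α * (1118 / 1000 * Z) := mul_le_mul_of_nonneg_left h6 (by positivity)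
          refine this.trans (le_of_eq (by ring))
        have h8 : qq α m / 2 * GG α (n + 1 - m) ≤ qq α m / 2 * (2236 * (α * Z)) :=
          mul_le_mul_of_nonneg_left h7 (by positivity)
        have h9 : 0 ≤ 452 / 10 * (α * Z) * GG α (n + 1 - m) := by positivity
        linarith
      · have h3 := qq_le h0 h1 hm.1
        have h4 : ((n + 1 : ℕ) : ℝ) ≤ 10 * (m : ℝ) := by
          have : n + 1 ≤ 10 * m := by omega
          exact_mod_cast this
        have h5 := ud_rpow_le h0 hJ (by norm_num) h4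
        have h6 : (m : ℝ) ^ (-(1 + α)) ≤ 113 / 10 * Z :=
          h5.trans (mul_le_mul_of_nonneg_right h10 hZ0.le)
        have h7 : qq α m / 2 ≤ 452 / 10 * (α * Z) := by
          have : 8 * α * (m : ℝ) ^ (-(1 + α)) ≤ 8 * α * (113 / 10 * Z) :=
            mul_le_mul_of_nonneg_left h6 (by positivity)
          nlinarith
        have h8 : qq α m / 2 * GG α (n + 1 - m) ≤ 452 / 10 * (α * Z) * GG α (n + 1 - m) :=
          mul_le_mul_of_nonneg_right h7 hG
        have h9 : 0 ≤ qq α m / 2 * (2236 * (α * Z)) := by positivity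
        linarith
    refine (Finset.sum_le_sum h2).trans ?_
    rw [Finset.sum_add_distrib, ← Finset.sum_mul, ← Finset.mul_sum]
    have h3 : ∑ m ∈ Finset.Ico 2 (n + 2), GG α (n + 1 - m) = ∑ j ∈ Finset.range n, GG α j := by
      rw [Finset.sum_Ico_eq_sum_range, Nat.add_sub_cancel, ← Finset.sum_range_reflect]
      refine Finset.sum_congr rfl fun k hk => ?_
      rw [Finset.mem_range] at hk
      congr 1
      omega
    rw [h3]
    have h4 := ud_sum_GG h0 h1 n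
    have h5 := ud_sum_qq h0 h1 (n + 2)
    have h6 : (∑ m ∈ Finset.Ico 2 (n + 2), qq α m / 2) * (2236 * (α * Z)) ≤
        76 / 100 * (2236 * (α * Z)) := mul_le_mul_of_nonneg_right h5 (by positivity)
    have h7 : 452 / 10 * (α * Z) * ∑ j ∈ Finset.range n, GG α j ≤
        452 / 10 * (α * Z) * (25 / 6) := mul_le_mul_of_nonneg_left h4 (by positivity)
    nlinarith

end Pool.Agent.Lib.MP_3d9a2b_pr
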