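import Pool.Agent.Lib.MP_3d9a2b_pr.U.Defs
import Pool.Agent.Lib.MP_3d9a2b_pr.BM

/-! # Law of the normalised coarse increments (task UI) -/

set_option autoImplicit false
set_option linter.unusedSectionVars false
set_option linter.unusedVariables false

namespace Pool.Agent.Lib.MP_3d9a2b_pr

open MeasureTheory ProbabilityTheory Filter Topology
open scoped NNReal ENNReal

section UI
variable {α : ℝ} {Ω Ω' : Type} [MeasurableSpace Ω] [MeasurableSpace Ω'] {P : Measure Ω}
  {P' : Measure Ω'} [IsProbabilityMeasure P] [IsProbabilityMeasure P'] (M : Model α P P')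

theorem ui_measurable_X (lam h θ : ℝ) (j : ℕ) : Measurable fun ω => M.X lam h θ ω j := by
  unfold Model.X Model.y
  exact (((M.measurable_B _).add_const _).sub ((M.measurable_B _).add_const _)).const_mul _

theorem measurable_X (lam h θ : ℝ) : Measurable (M.X lam h θ) :=
  measurable_pi_lambda _ fun j => ui_measurable_X M lam h θ j

theorem ui_X_eq {lam h θ : ℝ} (hθ : 0 < θ) (ω : Ω) (j : ℕ) :
    M.X lam h θ ω j = lam * (M.B (θ * (j + 1)).toNNReal - M.B (θ * j).toNNReal) ω +
      lam * h * θ := by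
  unfold Model.X Model.y
  simp only [Pi.sub_apply]
  ring

theorem ui_X_bmV {lam h θ : ℝ} (hθ : 0 < θ) (ω : Ω) (j : ℕ) :
    M.X lam h θ ω j = lam * bmV M θ.toNNReal j (0, 1) ω + lam * h * θ := by
  rw [ui_X_eq M hθ]
  have e1 : bmDy (0, 1) = 1 := by simp [bmDy]
  have e2 : (θ * (j + 1)).toNNReal = θ.toNNReal * j + θ.toNNReal * 1 := by
    rw [← mul_add, Real.toNNReal_mul hθ.le, Real.toNNReal_add (by positivity) (by norm_num),
      Real.toNNReal_natCast, Real.toNNReal_one]
  have e3 : (θ * j).toNNReal = θ.toNNReal * j := by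
    rw [Real.toNNReal_mul hθ.le, Real.toNNReal_natCast]
  rw [bmV, e1, e2, e3]
  rfl

theorem law_X {lam h θ : ℝ} (hlam : 0 < lam) (hθ : 0 < θ) :
    P.map (M.X lam h θ) = nuX (lam ^ 2 * θ) (h / lam) := by
  have hB := M.brownian.toIsPreBrownianReal
  have hind : iIndepFun (fun j ω => M.X lam h θ ω j) P := by
    have h1 := (bmV_indep M θ.toNNReal).comp
      (fun _ (v : ℕ × ℕ → ℝ) => lam * v (0, 1) + lam * h * θ)
      (fun _ => ((measurable_pi_apply _).const_mul _).add_const _)
    refine (iIndepFun_congr fun j => ae_of_all _ fun ω => ?_).mp h1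
    exact (ui_X_bmV M hθ ω j).symm
  have h2 := (iIndepFun_iff_map_fun_eq_infinitePi_map
    (fun j => ui_measurable_X M lam h θ j)).mp hind
  have h3 : (fun ω i => M.X lam h θ ω i) = M.X lam h θ := rfl
  rw [h3] at h2
  rw [h2, nuX]
  congr 1
  funext j
  have h4 := hB.hasLaw_sub (θ * (j + 1)).toNNReal (θ * j).toNNReal
  have h5 := gaussianReal_add_const (gaussianReal_const_mul h4 lam) (lam * h * θ)
  have h6 : (fun ω => M.X lam h θ ω j) =
      fun ω => lam * (M.B (θ * (j + 1)).toNNReal - M.B (θ * j).toNNReal) ω + lam * h * θ := by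
    funext ω
    exact ui_X_eq M hθ ω j
  rw [h6, h5.map_eq]
  congr 1
  · field_simp
    ring
  · apply NNReal.eq
    have hd : dist (((θ * (j + 1)).toNNReal : ℝ≥0) : ℝ) (((θ * j).toNNReal : ℝ≥0) : ℝ) = θ := by
      rw [Real.dist_eq, Real.coe_toNNReal _ (by positivity), Real.coe_toNNReal _ (by positivity)]
      have : θ * (j + 1) - θ * j = θ := by ring
      rw [this, abs_of_pos hθ]
    rw [Real.coe_toNNReal _ (by positivity)]
    exact congrArg (fun x => lam ^ 2 * x) hd

end UI

end Pool.Agent.Lib.MP_3d9a2b_pr
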