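import Mathlib

/-!
Choice of the parameters for the upper bound on the critical slope of the copolymer model
(problem MP_3d9a2b_pr, task UG).
-/

set_option autoImplicit false

namespace Pool.Agent.Lib.MP_3d9a2b_pr

theorem ug_step {κ x : ℝ} (hκ : 0 < κ) (hx : 1 < x) :
    κ * x ^ (-(1 + κ)) ≤ (x - 1) ^ (-κ) - x ^ (-κ) := by
  have hx0 : 0 < x := by linarith
  have hx1 : 0 < x - 1 := by linarith
  have h1 : x ^ (-(1 + κ)) = x ^ (-κ) * x⁻¹ := by
    rw [show -(1 + κ) = -κ + -1 by ring, Real.rpow_add hx0, Real.rpow_neg_one]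
  have h2 : (x - 1) ^ (-κ) = x ^ (-κ) * ((x - 1) / x) ^ (-κ) := by
    rw [← Real.mul_rpow hx0.le (by positivity)]
    congr 1
    field_simp
  have h3 : 1 + κ * x⁻¹ ≤ ((x - 1) / x) ^ (-κ) := by
    have hpos : 0 < (x - 1) / x := by positivity
    rw [Real.rpow_def_of_pos hpos]
    have h4 : Real.log ((x - 1) / x) ≤ (x - 1) / x - 1 := Real.log_le_sub_one_of_pos hpos
    have h5 : (x - 1) / x - 1 = - x⁻¹ := by field_simp; ring
    have h6 : Real.log ((x - 1) / x) * (-κ) + 1 ≤ Real.exp (Real.log ((x - 1) / x) * (-κ)) :=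
      Real.add_one_le_exp _
    nlinarith
  rw [h1, h2]
  have h7 : 0 < x ^ (-κ) := Real.rpow_pos_of_pos hx0 _
  nlinarith [mul_le_mul_of_nonneg_left h3 h7.le]

theorem ug_sum {κ : ℝ} (hκ : 0 < κ) (n : ℕ) :
    ∑ j ∈ Finset.Ico 1 n, (j : ℝ) ^ (-(1 + κ)) ≤ 1 + 1 / κ := by
  have key : ∀ n : ℕ, ∑ j ∈ Finset.Ico 1 (n + 2), (j : ℝ) ^ (-(1 + κ)) ≤
      1 + (1 - ((n : ℝ) + 1) ^ (-κ)) / κ := by
    intro n
    induction n with
    | zero => simp
    | succ n ih =>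
      rw [show n + 1 + 2 = (n + 2) + 1 by ring, Finset.sum_Ico_succ_top (by omega)]
      have hn : (0 : ℝ) ≤ n := Nat.cast_nonneg n
      have h := ug_step hκ (x := (n : ℝ) + 2) (by linarith)
      have e1 : (n : ℝ) + 2 - 1 = (n : ℝ) + 1 := by ring
      rw [e1] at h
      have e2 : (((n + 2 : ℕ)) : ℝ) = (n : ℝ) + 2 := by push_cast; ring
      have e3 : (((n + 1 : ℕ)) : ℝ) + 1 = (n : ℝ) + 2 := by push_cast; ring
      rw [e2, e3]
      have h' : ((n : ℝ) + 2) ^ (-(1 + κ)) ≤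
          (((n : ℝ) + 1) ^ (-κ) - ((n : ℝ) + 2) ^ (-κ)) / κ := by
        rw [le_div_iff₀ hκ]; linarith
      calc _ ≤ 1 + (1 - ((n : ℝ) + 1) ^ (-κ)) / κ +
          (((n : ℝ) + 1) ^ (-κ) - ((n : ℝ) + 2) ^ (-κ)) / κ := add_le_add ih h'
        _ = _ := by ring
  have hsub : ∑ j ∈ Finset.Ico 1 n, (j : ℝ) ^ (-(1 + κ)) ≤
      ∑ j ∈ Finset.Ico 1 (n + 2), (j : ℝ) ^ (-(1 + κ)) := by
    apply Finset.sum_le_sum_of_subset_of_nonneg
    · exact Finset.Ico_subset_Ico_right (by omega)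
    · intro i _ _
      exact Real.rpow_nonneg (Nat.cast_nonneg i) _
  refine hsub.trans ((key n).trans ?_)
  have h0 : 0 ≤ ((n : ℝ) + 1) ^ (-κ) := Real.rpow_nonneg (by positivity) _
  have : (1 - ((n : ℝ) + 1) ^ (-κ)) / κ ≤ 1 / κ := by
    apply div_le_div_of_nonneg_right _ hκ.le
    linarith
  linarith

theorem ug_sum2 {κ : ℝ} (hκ : 0 < κ) (n : ℕ) :
    ∑ j ∈ Finset.Ico 2 n, (j : ℝ) ^ (-(1 + κ)) ≤ 1 + 1 / κ := by
  refine le_trans ?_ (ug_sum hκ n)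
  apply Finset.sum_le_sum_of_subset_of_nonneg
  · exact Finset.Ico_subset_Ico_left (by omega)
  · intro i _ _
    exact Real.rpow_nonneg (Nat.cast_nonneg i) _

theorem ug_exp_two : Real.exp 2 ≤ 8 := by
  have h1 : Real.exp 1 < 2.7182818286 := Real.exp_one_lt_d9
  have h2 : Real.exp 2 = Real.exp 1 * Real.exp 1 := by
    rw [← Real.exp_add]; norm_num
  have h3 : 0 < Real.exp 1 := Real.exp_pos 1
  rw [h2]
  nlinarith

/-- `Σ_{2≤m<n} m^{-(1+κ)} e^{-c(m-2)} ≤ 8 log (2/c)`. -/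
theorem ug_log {κ c : ℝ} (hκ : 0 < κ) (hc0 : 0 < c) (hc1 : c ≤ 1) (n : ℕ) :
    ∑ m ∈ Finset.Ico 2 n, (m : ℝ) ^ (-(1 + κ)) * Real.exp (-(c * (m - 2))) ≤
      8 * Real.log (2 / c) := by
  have hx0 : 0 < Real.exp (-c) := Real.exp_pos _
  have hx1 : Real.exp (-c) < 1 := by
    rw [Real.exp_lt_one_iff]; linarith
  have habs : |Real.exp (-c)| < 1 := by rw [abs_of_pos hx0]; exact hx1
  have hs := Real.hasSum_pow_div_log_of_abs_lt_one habs
  have hterm : ∀ m ∈ Finset.Ico 2 n, (m : ℝ) ^ (-(1 + κ)) * Real.exp (-(c * (m - 2))) ≤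
      8 * (Real.exp (-c) ^ ((m - 1) + 1) / (((m - 1 : ℕ) : ℝ) + 1)) := by
    intro m hm
    rw [Finset.mem_Ico] at hm
    have hm1 : 1 ≤ m := by omega
    have e1 : (m - 1) + 1 = m := by omega
    have e2 : (((m - 1 : ℕ) : ℝ) + 1) = m := by
      rw [Nat.cast_sub hm1]; push_cast; ring
    rw [e1, e2]
    have hmR : (1 : ℝ) ≤ m := by exact_mod_cast hm1
    have h1 : (m : ℝ) ^ (-(1 + κ)) ≤ (m : ℝ)⁻¹ := by
      rw [← Real.rpow_neg_one]
      exact Real.rpow_le_rpow_of_exponent_le hmR (by linarith)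
    have h2 : Real.exp (-(c * (m - 2))) = Real.exp (2 * c) * Real.exp (-c) ^ m := by
      rw [← Real.exp_nat_mul, ← Real.exp_add]
      congr 1; ring
    have h3 : Real.exp (2 * c) ≤ 8 := by
      refine le_trans ?_ ug_exp_two
      apply Real.exp_le_exp.mpr; linarith
    rw [h2]
    have h4 : 0 < Real.exp (-c) ^ m := by positivity
    have h5 : (0 : ℝ) < (m : ℝ)⁻¹ := by positivity
    calc (m : ℝ) ^ (-(1 + κ)) * (Real.exp (2 * c) * Real.exp (-c) ^ m)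
        ≤ (m : ℝ)⁻¹ * (8 * Real.exp (-c) ^ m) := by
          apply mul_le_mul h1 _ (by positivity) h5.le
          exact mul_le_mul_of_nonneg_right h3 h4.le
      _ = _ := by ring
  have hsum : ∑ m ∈ Finset.Ico 2 n, (Real.exp (-c) ^ ((m - 1) + 1) / (((m - 1 : ℕ) : ℝ) + 1)) ≤
      -Real.log (1 - Real.exp (-c)) := by
    have himg : ∑ m ∈ Finset.Ico 2 n,
        (Real.exp (-c) ^ ((m - 1) + 1) / (((m - 1 : ℕ) : ℝ) + 1)) =
        ∑ k ∈ (Finset.Ico 2 n).image (fun m : ℕ => m - 1),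
          (Real.exp (-c) ^ (k + 1) / ((k : ℝ) + 1)) := by
      rw [Finset.sum_image]
      intro a ha b hb hab
      have ha' := Finset.mem_Ico.mp (Finset.mem_coe.mp ha)
      have hb' := Finset.mem_Ico.mp (Finset.mem_coe.mp hb)
      have hab' : a - 1 = b - 1 := hab
      omega
    rw [himg]
    exact sum_le_hasSum _ (fun i _ => by positivity) hs
  have hlog : -Real.log (1 - Real.exp (-c)) ≤ Real.log (2 / c) := by
    have h1 : c / 2 ≤ 1 - Real.exp (-c) := by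
      -- `exp (-c) ≤ 1 - c / 2`
      have h2 : 1 + c ≤ Real.exp c := by linarith [Real.add_one_le_exp c]
      have h3 : Real.exp (-c) ≤ 1 / (1 + c) := by
        rw [Real.exp_neg, ← one_div]
        exact one_div_le_one_div_of_le (by linarith) h2
      have h4 : 1 / (1 + c) ≤ 1 - c / 2 := by
        rw [div_le_iff₀ (by linarith)]
        nlinarith
      linarith
    have h5 : Real.log (c / 2) ≤ Real.log (1 - Real.exp (-c)) :=
      Real.log_le_log (by positivity) h1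
    have h6 : Real.log (2 / c) = - Real.log (c / 2) := by
      rw [← Real.log_inv, inv_div]
    linarith
  calc _ ≤ ∑ m ∈ Finset.Ico 2 n,
        8 * (Real.exp (-c) ^ ((m - 1) + 1) / (((m - 1 : ℕ) : ℝ) + 1)) :=
        Finset.sum_le_sum hterm
    _ = 8 * ∑ m ∈ Finset.Ico 2 n,
        (Real.exp (-c) ^ ((m - 1) + 1) / (((m - 1 : ℕ) : ℝ) + 1)) := by
        rw [Finset.mul_sum]
    _ ≤ 8 * (-Real.log (1 - Real.exp (-c))) := by linarith
    _ ≤ _ := by linarith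

/-- `α log (1/α) ≤ 2 √α`. -/
theorem ug_alog {α : ℝ} (h : 0 < α) : α * Real.log (1 / α) ≤ 2 * Real.sqrt α := by
  have hs : 0 < Real.sqrt α := Real.sqrt_pos.mpr h
  have h1 : Real.log (1 / Real.sqrt α) ≤ 1 / Real.sqrt α - 1 :=
    Real.log_le_sub_one_of_pos (by positivity)
  have h2 : Real.log (1 / α) = 2 * Real.log (1 / Real.sqrt α) := by
    rw [one_div, one_div, Real.log_inv, Real.log_inv, Real.log_sqrt h.le]; ring
  rw [h2]
  have h3 : α = Real.sqrt α * Real.sqrt α := (Real.mul_self_sqrt h.le).symm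
  have h4 : α * (2 * (1 / Real.sqrt α)) = 2 * Real.sqrt α := by
    nth_rewrite 1 [h3]
    field_simp
  have h5 : α * (2 * Real.log (1 / Real.sqrt α)) ≤ α * (2 * (1 / Real.sqrt α)) := by
    apply mul_le_mul_of_nonneg_left _ h.le
    linarith
  linarith

/-- `(c α)^ζ ≤ 2 c α`. -/
theorem ug_pow {α c ζ : ℝ} (h0 : 0 < α) (h1 : α ≤ 1) (hc : 1 ≤ c) (hζ1 : ζ ≤ 1)
    (hζ : 1 - α ≤ ζ) (hL : α * Real.log (1 / α) ≤ 1 / 2) : (c * α) ^ ζ ≤ 2 * c * α := by
  rw [Real.mul_rpow (by linarith) h0.le]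
  have h2 : c ^ ζ ≤ c := by
    nth_rewrite 2 [← Real.rpow_one c]
    exact Real.rpow_le_rpow_of_exponent_le hc hζ1
  have h3 : α ^ ζ ≤ 2 * α := by
    have h4 : α ^ ζ ≤ α ^ (1 - α) := Real.rpow_le_rpow_of_exponent_ge h0 h1 hζ
    have h5 : α ^ (1 - α) = α * Real.exp (α * Real.log (1 / α)) := by
      rw [Real.rpow_sub h0, Real.rpow_one, one_div, Real.log_inv, Real.rpow_def_of_pos h0,
        div_eq_mul_inv, ← Real.exp_neg]
      congr 2; ring
    have h6 : Real.exp (α * Real.log (1 / α)) ≤ 2 := by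
      have h7 : Real.exp (1 / 2) ≤ 2 := by
        have h8 : Real.exp (1 / 2) * Real.exp (1 / 2) = Real.exp 1 := by
          rw [← Real.exp_add]; norm_num
        have h9 : Real.exp 1 < 2.7182818286 := Real.exp_one_lt_d9
        have h10 : 0 < Real.exp (1 / 2) := Real.exp_pos _
        nlinarith
      exact (Real.exp_le_exp.mpr hL).trans h7
    rw [h5] at h4
    nlinarith
  have h4 : 0 ≤ α ^ ζ := Real.rpow_nonneg h0.le _
  calc c ^ ζ * α ^ ζ ≤ c * (2 * α) := mul_le_mul h2 h3 h4 (by linarith)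
    _ = _ := by ring

theorem params (K₁ C : ℝ) (hK₁ : 1 ≤ K₁) (hC : 1 ≤ C) : ∃ K α₀ : ℝ, 0 < K ∧ 0 < α₀ ∧
    α₀ ≤ 1 / 20 ∧ ∀ α : ℝ, 0 < α → α ≤ α₀ →
    1 / (1 + α) + K * α ^ 2 * Real.log (1 / α) ≤ 1 ∧
    ∃ ζ a₀ A ρ : ℝ, 1 / 2 ≤ ζ ∧ ζ < 1 ∧ 0 < a₀ ∧ a₀ ≤ 1 ∧ 0 ≤ A ∧ 0 ≤ ρ ∧ A * ρ ≤ 1 / 2 ∧
      (∀ n : ℕ, 1 + ∑ j ∈ Finset.Ico 1 n, (K₁ * α * (j : ℝ) ^ (-(1 + α))) ^ ζ ≤ A) ∧
      ∀ a B : ℝ, a₀ / 2 ≤ a → a ≤ a₀ →
        1 / (1 + α) + K * α ^ 2 * Real.log (1 / α) ≤ B → B ≤ 1 → ζ ≤ B ∧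
        ∀ n : ℕ, ∑ m ∈ Finset.Ico 2 n, (8 * α * (m : ℝ) ^ (-(1 + α))) ^ ζ *
          (C * (a ^ (1 / 4 : ℝ) + Real.exp (-(a * (B - ζ) * (m - 2))))) ≤ ρ := by
  obtain ⟨K, hK⟩ : ∃ K : ℝ, K = 32 * K₁ * (2576 * C) := ⟨_, rfl⟩
  have hK2 : 32 * 2576 * C ≤ K := by
    rw [hK]; nlinarith
  have hKbig : (32 * 2576 : ℝ) ≤ K := by linarith
  have hKpos : 0 < K := by linarith
  refine ⟨K, 1 / (16 * K ^ 2), hKpos, by positivity, ?_, ?_⟩
  · apply one_div_le_one_div_of_le (by norm_num)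
    nlinarith
  intro α h0 hα
  have hα20 : α ≤ 1 / 20 := by
    refine hα.trans ?_
    apply one_div_le_one_div_of_le (by norm_num)
    nlinarith
  obtain ⟨L, hL⟩ : ∃ L : ℝ, L = Real.log (1 / α) := ⟨_, rfl⟩
  rw [← hL]
  have hL1 : 1 ≤ L := by
    rw [hL, Real.le_log_iff_exp_le (by positivity)]
    have h9 : Real.exp 1 < 2.7182818286 := Real.exp_one_lt_d9
    have : (20 : ℝ) ≤ 1 / α := by
      rw [le_div_iff₀ h0]; linarith
    linarith
  have hKL : K * (α * L) ≤ 1 / 2 := by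
    have h1 := ug_alog h0
    rw [← hL] at h1
    have h2 : Real.sqrt α ≤ 1 / (4 * K) := by
      rw [show (1 : ℝ) / (4 * K) = Real.sqrt ((1 / (4 * K)) ^ 2) from
        (Real.sqrt_sq (by positivity)).symm]
      apply Real.sqrt_le_sqrt
      refine hα.trans (le_of_eq ?_)
      field_simp
      norm_num
    have h3 : α * L ≤ 1 / (2 * K) := by
      calc α * L ≤ 2 * Real.sqrt α := h1
        _ ≤ 2 * (1 / (4 * K)) := by linarith
        _ = 1 / (2 * K) := by field_simp; norm_num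
    calc K * (α * L) ≤ K * (1 / (2 * K)) := mul_le_mul_of_nonneg_left h3 hKpos.le
      _ = 1 / 2 := by field_simp
  have hαL : 0 < α * L := by positivity
  have hαL2 : α * L ≤ 1 / 2 := by nlinarith
  obtain ⟨κ, hκ⟩ : ∃ κ : ℝ, κ = K / 2 * α ^ 2 * L := ⟨_, rfl⟩
  have hκpos : 0 < κ := by rw [hκ]; positivity
  have hκα : κ ≤ α / 4 := by
    have : κ = α / 2 * (K * (α * L)) := by rw [hκ]; ring
    rw [this]; nlinarith
  have hκ2 : α ^ 2 ≤ κ := by
    rw [hκ]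
    have h1 : 1 ≤ K / 2 * L := by nlinarith
    have h2 : 0 < α ^ 2 := by positivity
    nlinarith
  have h1α : 0 < 1 + α := by linarith
  have hKeq : K * α ^ 2 * L = 2 * κ := by rw [hκ]; ring
  rw [hKeq]
  refine ⟨?_, ?_⟩
  · have h1 : 1 / (1 + α) ≤ 1 - α / 2 := by
      rw [div_le_iff₀ h1α]; nlinarith
    linarith
  obtain ⟨ζ, hζ⟩ : ∃ ζ : ℝ, ζ = (1 + κ) / (1 + α) := ⟨_, rfl⟩
  have hζ1 : ζ < 1 := by
    rw [hζ, div_lt_one h1α]; linarith
  have hζ0 : 1 - α ≤ ζ := by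
    rw [hζ, le_div_iff₀ h1α]; nlinarith
  have hζhalf : 1 / 2 ≤ ζ := by linarith
  have hζmul : (1 + α) * ζ = 1 + κ := by
    rw [hζ]; field_simp
  have hterm : ∀ (c : ℝ), 1 ≤ c → ∀ j : ℕ,
      (c * α * (j : ℝ) ^ (-(1 + α))) ^ ζ ≤ 2 * c * α * (j : ℝ) ^ (-(1 + κ)) := by
    intro c hc j
    have hj : (0 : ℝ) ≤ (j : ℝ) ^ (-(1 + α)) := Real.rpow_nonneg (Nat.cast_nonneg j) _
    rw [Real.mul_rpow (by positivity) hj, ← Real.rpow_mul (Nat.cast_nonneg j)]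
    have e : -(1 + α) * ζ = -(1 + κ) := by rw [neg_mul, hζmul]
    rw [e]
    have hj' : (0 : ℝ) ≤ (j : ℝ) ^ (-(1 + κ)) := Real.rpow_nonneg (Nat.cast_nonneg j) _
    apply mul_le_mul_of_nonneg_right _ hj'
    exact ug_pow h0 (by linarith) hc hζ1.le hζ0 (by rw [← hL]; exact hαL2)
  refine ⟨ζ, α ^ 16, 1 + 2 * K₁ * α * (1 + 1 / κ), 2576 * C * (α * L), hζhalf, hζ1,
    by positivity, ?_, by positivity, by positivity, ?_, ?_, ?_⟩
  · exact pow_le_one₀ h0.le (by linarith)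
  · -- A ρ ≤ 1/2
    have h1 : 1 + 1 / κ ≤ 2 / κ := by
      rw [show (2 : ℝ) / κ = 1 / κ + 1 / κ by ring]
      have : 1 ≤ 1 / κ := by
        rw [le_div_iff₀ hκpos]; linarith
      linarith
    have h2 : 2 * K₁ * α * (1 + 1 / κ) ≤ 2 * K₁ * α * (2 / κ) :=
      mul_le_mul_of_nonneg_left h1 (by positivity)
    have h3 : 2 * K₁ * α * (2 / κ) * (2576 * C * (α * L)) = 1 / 4 := by
      rw [hκ, hK]
      have hLne : L ≠ 0 := by linarith
      field_simp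
      norm_num
    have h4 : 0 ≤ 2576 * C * (α * L) := by positivity
    have h5 : 2576 * C * (α * L) ≤ 1 / 4 := by
      have : 32 * 2576 * C * (α * L) ≤ 1 / 2 :=
        (mul_le_mul_of_nonneg_right hK2 hαL.le).trans hKL
      nlinarith
    calc (1 + 2 * K₁ * α * (1 + 1 / κ)) * (2576 * C * (α * L))
        = 2576 * C * (α * L) + 2 * K₁ * α * (1 + 1 / κ) * (2576 * C * (α * L)) := by ring
      _ ≤ 1 / 4 + 2 * K₁ * α * (2 / κ) * (2576 * C * (α * L)) :=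
          add_le_add h5 (mul_le_mul_of_nonneg_right h2 h4)
      _ = 1 / 2 := by rw [h3]; norm_num
  · -- the sum defining A
    intro n
    have h1 : ∑ j ∈ Finset.Ico 1 n, (K₁ * α * (j : ℝ) ^ (-(1 + α))) ^ ζ ≤
        ∑ j ∈ Finset.Ico 1 n, 2 * K₁ * α * (j : ℝ) ^ (-(1 + κ)) :=
      Finset.sum_le_sum fun j _ => hterm K₁ hK₁ j
    rw [← Finset.mul_sum] at h1
    have h2 := mul_le_mul_of_nonneg_left (ug_sum hκpos n)
      (show 0 ≤ 2 * K₁ * α by positivity)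
    linarith
  · intro a B ha1 ha2 hB hB1
    have hinv : 1 / (1 + α) ≤ 1 := by
      rw [div_le_one h1α]; linarith
    have hζle : ζ ≤ 1 / (1 + α) + κ := by
      rw [hζ, add_div]
      have : κ / (1 + α) ≤ κ := div_le_self hκpos.le (by linarith)
      linarith
    have hBζ : κ ≤ B - ζ := by linarith
    refine ⟨by linarith, ?_⟩
    intro n
    have ha0 : 0 < a := lt_of_lt_of_le (by positivity) ha1
    have ha01 : a ≤ 1 := ha2.trans (pow_le_one₀ h0.le (by linarith))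
    have hcpos : 0 < a * (B - ζ) := mul_pos ha0 (by linarith)
    have hc1 : a * (B - ζ) ≤ 1 := by
      have : B - ζ ≤ 1 := by linarith
      nlinarith
    have ha4 : a ^ (1 / 4 : ℝ) ≤ α ^ 4 := by
      have h1 : a ^ (1 / 4 : ℝ) ≤ (α ^ 16) ^ (1 / 4 : ℝ) :=
        Real.rpow_le_rpow ha0.le ha2 (by norm_num)
      have h2 : (α ^ 16) ^ (1 / 4 : ℝ) = α ^ 4 := by
        rw [← Real.rpow_natCast α 16, ← Real.rpow_mul h0.le, ← Real.rpow_natCast α 4]
        norm_num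
      rw [h2] at h1; exact h1
    have hlog : Real.log (2 / (a * (B - ζ))) ≤ 20 * L := by
      have h1 : α ^ 18 / 2 ≤ a * (B - ζ) := by
        calc α ^ 18 / 2 = α ^ 16 / 2 * α ^ 2 := by ring
          _ ≤ a * (B - ζ) := by
            apply mul_le_mul ha1 (by linarith) (by positivity) ha0.le
      have h2 : 2 / (a * (B - ζ)) ≤ 4 * (1 / α) ^ 18 := by
        calc 2 / (a * (B - ζ)) ≤ 2 / (α ^ 18 / 2) :=
              div_le_div_of_nonneg_left (by norm_num) (by positivity) h1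
          _ = 4 * (1 / α) ^ 18 := by field_simp; norm_num
      have h3 : Real.log (2 / (a * (B - ζ))) ≤ Real.log (4 * (1 / α) ^ 18) :=
        Real.log_le_log (by positivity) h2
      have h4 : Real.log (4 * (1 / α) ^ 18) = Real.log 4 + 18 * L := by
        rw [Real.log_mul (by norm_num) (by positivity), Real.log_pow, hL]
        norm_num
      have h5 : Real.log 4 ≤ 2 := by
        have h6 : Real.log 4 = 2 * Real.log 2 := by
          rw [show (4 : ℝ) = 2 ^ 2 by norm_num, Real.log_pow]; norm_num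
        have h7 : Real.log 2 < 0.6931471808 := Real.log_two_lt_d9
        rw [h6]; linarith
      linarith
    have hsum1 : ∑ m ∈ Finset.Ico 2 n, (m : ℝ) ^ (-(1 + κ)) *
        (a ^ (1 / 4 : ℝ) + Real.exp (-(a * (B - ζ) * (m - 2)))) ≤ 161 * L := by
      have e1 : ∑ m ∈ Finset.Ico 2 n, (m : ℝ) ^ (-(1 + κ)) *
          (a ^ (1 / 4 : ℝ) + Real.exp (-(a * (B - ζ) * (m - 2)))) =
          a ^ (1 / 4 : ℝ) * ∑ m ∈ Finset.Ico 2 n, (m : ℝ) ^ (-(1 + κ)) +
          ∑ m ∈ Finset.Ico 2 n, (m : ℝ) ^ (-(1 + κ)) *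
            Real.exp (-(a * (B - ζ) * (m - 2))) := by
        rw [Finset.mul_sum, ← Finset.sum_add_distrib]
        apply Finset.sum_congr rfl
        intro m _; ring
      rw [e1]
      have h1 := ug_log hκpos hcpos hc1 n
      have h2 : a ^ (1 / 4 : ℝ) * ∑ m ∈ Finset.Ico 2 n, (m : ℝ) ^ (-(1 + κ)) ≤ L := by
        have h3 : ∑ m ∈ Finset.Ico 2 n, (m : ℝ) ^ (-(1 + κ)) ≤ 2 / α ^ 2 := by
          refine (ug_sum2 hκpos n).trans ?_
          have h4 : 1 / κ ≤ 1 / α ^ 2 := one_div_le_one_div_of_le (by positivity) hκ2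
          have h5 : 1 ≤ 1 / α ^ 2 := by
            rw [le_div_iff₀ (by positivity)]; nlinarith
          rw [show (2 : ℝ) / α ^ 2 = 1 / α ^ 2 + 1 / α ^ 2 by ring]
          linarith
        have h6 : 0 ≤ ∑ m ∈ Finset.Ico 2 n, (m : ℝ) ^ (-(1 + κ)) :=
          Finset.sum_nonneg fun m _ => Real.rpow_nonneg (Nat.cast_nonneg m) _
        calc a ^ (1 / 4 : ℝ) * ∑ m ∈ Finset.Ico 2 n, (m : ℝ) ^ (-(1 + κ))
            ≤ α ^ 4 * (2 / α ^ 2) := mul_le_mul ha4 h3 h6 (by positivity)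
          _ = 2 * α ^ 2 := by field_simp
          _ ≤ 1 := by nlinarith
          _ ≤ L := hL1
      linarith
    have hterm2 : ∀ m ∈ Finset.Ico 2 n, (8 * α * (m : ℝ) ^ (-(1 + α))) ^ ζ *
        (C * (a ^ (1 / 4 : ℝ) + Real.exp (-(a * (B - ζ) * (m - 2))))) ≤
        (16 * α * C) * ((m : ℝ) ^ (-(1 + κ)) *
          (a ^ (1 / 4 : ℝ) + Real.exp (-(a * (B - ζ) * (m - 2))))) := by
      intro m _
      have h1 := hterm 8 (by norm_num) m
      have h2 : 0 ≤ C * (a ^ (1 / 4 : ℝ) + Real.exp (-(a * (B - ζ) * (m - 2)))) := by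
        have : 0 ≤ a ^ (1 / 4 : ℝ) := Real.rpow_nonneg ha0.le _
        positivity
      calc _ ≤ (2 * 8 * α * (m : ℝ) ^ (-(1 + κ))) *
          (C * (a ^ (1 / 4 : ℝ) + Real.exp (-(a * (B - ζ) * (m - 2))))) :=
            mul_le_mul_of_nonneg_right h1 h2
        _ = _ := by ring
    calc _ ≤ ∑ m ∈ Finset.Ico 2 n, (16 * α * C) * ((m : ℝ) ^ (-(1 + κ)) *
          (a ^ (1 / 4 : ℝ) + Real.exp (-(a * (B - ζ) * (m - 2))))) :=
          Finset.sum_le_sum hterm2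
      _ = (16 * α * C) * ∑ m ∈ Finset.Ico 2 n, ((m : ℝ) ^ (-(1 + κ)) *
          (a ^ (1 / 4 : ℝ) + Real.exp (-(a * (B - ζ) * (m - 2))))) := by
          rw [Finset.mul_sum]
      _ ≤ (16 * α * C) * (161 * L) :=
          mul_le_mul_of_nonneg_left hsum1 (by positivity)
      _ = 2576 * C * (α * L) := by ring

end Pool.Agent.Lib.MP_3d9a2b_pr
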