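import Pool.Agent.Lib.MP_3d9a2b_pr.U.Defs

set_option autoImplicit false

namespace Pool.Agent.Lib.MP_3d9a2b_pr

open MeasureTheory ProbabilityTheory Filter Topology
open scoped NNReal ENNReal

/-! ### Elementary facts -/

theorem NN_ge_one {a x : ℝ} (ha : 0 ≤ a) : 1 ≤ NN a x := by
  unfold NN
  have h1 : 1 ≤ Real.exp (a / 2) := Real.one_le_exp (by linarith)
  have h2 : (1 : ℝ) ≤ max 1 (Real.exp (-2 * x)) := le_max_left _ _
  nlinarith

theorem UU_ge_half {a : ℝ} (ha : 0 ≤ a) (m : ℕ) (x : ℕ → ℝ) : 1 / 2 ≤ UU a m x := by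
  unfold UU
  have h1 := NN_ge_one (x := x 0) ha
  have h2 := NN_ge_one (x := x 1) ha
  have h3 : 1 ≤ NN a (x 0) * NN a (x 1) := by nlinarith
  have h4 := Real.exp_pos (-2 * ∑ j ∈ Finset.Ico 2 m, x j)
  nlinarith

theorem ue_qq_nonneg {α : ℝ} (h0 : 0 < α) (m : ℕ) : 0 ≤ qq α m := by
  unfold qq
  split_ifs
  · positivity
  · positivity

theorem ue_YY_eq (a α : ℝ) (n : ℕ) (x : ℕ → ℝ) : YY a α n x = UU a n x +
    ∑ m ∈ Finset.Ico 2 n, qq α m * UU a m x * YY a α (n - m) (shx m x) := by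
  rw [YY]
  congr 1
  have h1 : ∀ m : Fin n, (if _h : 2 ≤ (m : ℕ) then
      qq α m * UU a m x * YY a α (n - m) (shx m x) else 0) =
      (fun m : ℕ => if 2 ≤ m then qq α m * UU a m x * YY a α (n - m) (shx m x) else 0) m := by
    intro m
    by_cases h : 2 ≤ (m : ℕ)
    · simp [h]
    · simp [h]
  rw [Finset.sum_congr rfl (fun m _ => h1 m),
    Fin.sum_univ_eq_sum_range
      (fun m : ℕ => if 2 ≤ m then qq α m * UU a m x * YY a α (n - m) (shx m x) else 0) n,
    ← Finset.sum_filter]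
  refine Finset.sum_congr ?_ fun _ _ => rfl
  ext m
  simp only [Finset.mem_filter, Finset.mem_range, Finset.mem_Ico]
  tauto

theorem ue_GG_zero (α : ℝ) : GG α 0 = 1 := by rw [GG]

theorem ue_GG_eq (α : ℝ) {n : ℕ} (hn : 1 ≤ n) : GG α n =
    ∑ m ∈ Finset.Ico 2 (n + 1), qq α m / 2 * GG α (n - m) := by
  obtain ⟨k, rfl⟩ : ∃ k, n = k + 1 := ⟨n - 1, by omega⟩
  rw [GG]
  have h1 : ∀ m : Fin (k + 2), (if _h : 2 ≤ (m : ℕ) then
      qq α m / 2 * GG α (k + 1 - m) else 0) =
      (fun m : ℕ => if 2 ≤ m then qq α m / 2 * GG α (k + 1 - m) else 0) m := by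
    intro m
    by_cases h : 2 ≤ (m : ℕ)
    · simp [h]
    · simp [h]
  rw [Finset.sum_congr rfl (fun m _ => h1 m),
    Fin.sum_univ_eq_sum_range
      (fun m : ℕ => if 2 ≤ m then qq α m / 2 * GG α (k + 1 - m) else 0) (k + 2),
    ← Finset.sum_filter]
  refine Finset.sum_congr ?_ fun _ _ => rfl
  ext m
  simp only [Finset.mem_filter, Finset.mem_range, Finset.mem_Ico]
  omega

theorem ue_GG_nonneg {α : ℝ} (h0 : 0 < α) (j : ℕ) : 0 ≤ GG α j := by
  induction j using Nat.strong_induction_on with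
  | _ j ih =>
    rcases Nat.eq_zero_or_pos j with rfl | hj
    · rw [ue_GG_zero]; norm_num
    · rw [ue_GG_eq α hj]
      refine Finset.sum_nonneg fun m hm => ?_
      rw [Finset.mem_Ico] at hm
      exact mul_nonneg (div_nonneg (ue_qq_nonneg h0 m) (by norm_num)) (ih _ (by omega))

theorem YY_ge_half {a α : ℝ} (ha : 0 ≤ a) (h0 : 0 < α) (n : ℕ) (x : ℕ → ℝ) :
    1 / 2 ≤ YY a α n x := by
  induction n using Nat.strong_induction_on generalizing x with
  | _ n ih =>
    rw [ue_YY_eq]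
    have h1 := UU_ge_half ha n x
    have h2 : 0 ≤ ∑ m ∈ Finset.Ico 2 n, qq α m * UU a m x * YY a α (n - m) (shx m x) := by
      refine Finset.sum_nonneg fun m hm => ?_
      rw [Finset.mem_Ico] at hm
      have h3 := ih (n - m) (by omega) (shx m x)
      have h4 := UU_ge_half ha m x
      exact mul_nonneg (mul_nonneg (ue_qq_nonneg h0 m) (by linarith)) (by linarith)
    linarith

theorem ue_measurable_shx (m : ℕ) : Measurable (shx m) := by
  unfold shx
  fun_prop

theorem measurable_UU (a : ℝ) (m : ℕ) : Measurable (UU a m) := by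
  unfold UU NN
  fun_prop

theorem measurable_YY (a α : ℝ) (n : ℕ) : Measurable (YY a α n) := by
  induction n using Nat.strong_induction_on with
  | _ n ih =>
    have h1 : YY a α n = fun x => UU a n x +
        ∑ m ∈ Finset.Ico 2 n, qq α m * UU a m x * YY a α (n - m) (shx m x) := by
      funext x
      exact ue_YY_eq a α n x
    rw [h1]
    refine (measurable_UU a n).add (Finset.measurable_sum _ fun m hm => ?_)
    rw [Finset.mem_Ico] at hm
    exact ((measurable_const.mul (measurable_UU a m))).mul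
      ((ih (n - m) (by omega)).comp (ue_measurable_shx m))

theorem ue_shx_shx (i j : ℕ) (x : ℕ → ℝ) : shx i (shx j x) = shx (j + i) x := by
  funext k
  simp only [shx]
  congr 1
  omega

theorem ue_shx_zero (x : ℕ → ℝ) : shx 0 x = x := rfl

/-! ### Resummation -/

theorem ue_conv (n : ℕ) (A : ℕ → ℕ → ℝ) :
    ∑ m ∈ Finset.Ico 2 n, ∑ j ∈ Finset.range (n - m), A m j =
      ∑ k ∈ Finset.Ico 2 n, ∑ m ∈ Finset.Ico 2 (k + 1), A m (k - m) := by
  have h1 : ∀ m ∈ Finset.Ico 2 n, ∑ j ∈ Finset.range (n - m), A m j =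
      ∑ k ∈ Finset.Ico m n, A m (k - m) := by
    intro m _
    rw [Finset.sum_Ico_eq_sum_range]
    refine Finset.sum_congr rfl fun j _ => ?_
    rw [Nat.add_sub_cancel_left]
  rw [Finset.sum_congr rfl h1]
  apply Finset.sum_comm'
  intro m k
  simp only [Finset.mem_Ico]
  omega

theorem YY_resum (a α : ℝ) {n : ℕ} (hn : 1 ≤ n) (x : ℕ → ℝ) : YY a α n x =
    ∑ j ∈ Finset.range n, GG α j * (UU a (n - j) (shx j x) +
      ∑ m ∈ Finset.Ico 2 (n - j), qq α m * (UU a m (shx j x) - 1 / 2) *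
        YY a α (n - j - m) (shx (j + m) x)) := by
  induction n using Nat.strong_induction_on generalizing x with
  | _ n ih =>
    set F : ℕ → ℝ := fun k => UU a (n - k) (shx k x) +
      ∑ m ∈ Finset.Ico 2 (n - k), qq α m * (UU a m (shx k x) - 1 / 2) *
        YY a α (n - k - m) (shx (k + m) x) with hF
    have h1 : YY a α n x = F 0 +
        ∑ m ∈ Finset.Ico 2 n, qq α m / 2 * YY a α (n - m) (shx m x) := by
      rw [ue_YY_eq, hF]
      simp only [Nat.sub_zero, ue_shx_zero, zero_add]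
      rw [add_assoc, ← Finset.sum_add_distrib]
      congr 1
      refine Finset.sum_congr rfl fun m _ => ?_
      ring
    have h2 : ∀ m ∈ Finset.Ico 2 n, qq α m / 2 * YY a α (n - m) (shx m x) =
        ∑ j ∈ Finset.range (n - m), qq α m / 2 * GG α j * F (m + j) := by
      intro m hm
      rw [Finset.mem_Ico] at hm
      rw [ih (n - m) (by omega) (by omega), Finset.mul_sum]
      refine Finset.sum_congr rfl fun j _ => ?_
      rw [hF]
      simp only [ue_shx_shx, Nat.sub_sub, add_assoc, mul_assoc]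
    rw [h1, Finset.sum_congr rfl h2, ue_conv n (fun m j => qq α m / 2 * GG α j * F (m + j))]
    have h3 : ∑ k ∈ Finset.Ico 2 n, ∑ m ∈ Finset.Ico 2 (k + 1),
        qq α m / 2 * GG α (k - m) * F (m + (k - m)) = ∑ k ∈ Finset.Ico 2 n, GG α k * F k := by
      refine Finset.sum_congr rfl fun k hk => ?_
      rw [Finset.mem_Ico] at hk
      rw [ue_GG_eq α (by omega : 1 ≤ k), Finset.sum_mul]
      refine Finset.sum_congr rfl fun m hm => ?_
      rw [Finset.mem_Ico] at hm
      rw [Nat.add_sub_cancel' (by omega : m ≤ k)]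
    rw [h3]
    have h4 : GG α 1 = 0 := by
      rw [ue_GG_eq α le_rfl]
      simp
    rw [Finset.range_eq_Ico, Finset.sum_eq_sum_Ico_succ_bot (by omega : 0 < n), ue_GG_zero,
      one_mul]
    congr 1
    rcases Nat.lt_or_ge 1 n with h5 | h5
    · rw [Finset.sum_eq_sum_Ico_succ_bot h5, h4, zero_mul, zero_add]
    · rw [Finset.Ico_eq_empty (by omega), Finset.Ico_eq_empty (by omega)]

/-! ### Splitting the sequence of increments -/

/-- glue the first `D` coordinates with a tail -/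
def ue_glue (D : ℕ) (p : (Fin D → ℝ) × (ℕ → ℝ)) : ℕ → ℝ := fun n =>
  if h : n < D then p.1 ⟨n, h⟩ else p.2 (n - D)

theorem ue_measurable_glue (D : ℕ) : Measurable (ue_glue D) := by
  rw [measurable_pi_iff]
  intro n
  unfold ue_glue
  by_cases h : n < D
  · simp only [h, dif_pos]; fun_prop
  · simp only [h, dif_neg, not_false_eq_true]; fun_prop

theorem ue_map_glue (μ : Measure ℝ) [IsProbabilityMeasure μ] (D : ℕ) :
    ((Measure.pi (fun _ : Fin D => μ)).prod (Measure.infinitePi (fun _ : ℕ => μ))).map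
      (ue_glue D) = Measure.infinitePi (fun _ : ℕ => μ) := by
  apply Measure.eq_infinitePi
  intro s t ht
  rw [Measure.map_apply (ue_measurable_glue D) (.pi s.countable_toSet fun _ _ => ht _)]
  have h1 : ue_glue D ⁻¹' (Set.pi s t) =
      (Set.pi Set.univ (fun i : Fin D => if (i : ℕ) ∈ s then t i else Set.univ)) ×ˢ
      (Set.pi ((s.filter (fun n => D ≤ n)).image (fun n => n - D)) (fun n => t (n + D))) := by
    ext ⟨a, b⟩
    simp only [Set.mem_preimage, Set.mem_pi, Set.mem_prod, ue_glue]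
    constructor
    · intro h
      constructor
      · intro i _
        by_cases hi : (i : ℕ) ∈ s
        · have := h i hi
          simpa [hi] using this
        · simp [hi]
      · intro n hn
        simp only [Finset.coe_image, Finset.coe_filter, Set.mem_image, Set.mem_ofPred_eq] at hn
        obtain ⟨m, ⟨hm, hD⟩, rfl⟩ := hn
        have := h m hm
        rw [dif_neg (by omega)] at this
        rwa [Nat.sub_add_cancel hD]
    · rintro ⟨ha, hb⟩ n hn
      by_cases h : n < D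
      · rw [dif_pos h]
        have := ha ⟨n, h⟩ trivial
        simpa [Finset.mem_coe.1 hn] using this
      · rw [dif_neg h]
        have hD : D ≤ n := by omega
        have := hb (n - D) (by
          simp only [Finset.coe_image, Finset.coe_filter, Set.mem_image, Set.mem_ofPred_eq]
          exact ⟨n, ⟨hn, hD⟩, rfl⟩)
        rwa [Nat.sub_add_cancel hD] at this
  rw [h1, Measure.prod_prod, Measure.pi_pi]
  have h2 : Measure.infinitePi (fun _ : ℕ => μ)
      (Set.pi ((s.filter (fun n => D ≤ n)).image (fun n => n - D)) (fun n => t (n + D))) =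
      ∏ n ∈ (s.filter (fun n => D ≤ n)).image (fun n => n - D), μ (t (n + D)) :=
    Measure.infinitePi_pi (fun _ : ℕ => μ) (fun i _ => ht _)
  rw [h2, Finset.prod_image]
  · have h3 : ∏ n ∈ s.filter (fun n => D ≤ n), μ (t (n - D + D)) =
        ∏ n ∈ s.filter (fun n => D ≤ n), μ (t n) := by
      apply Finset.prod_congr rfl
      intro n hn
      rw [Nat.sub_add_cancel (Finset.mem_filter.1 hn).2]
    have h4 : ∏ i : Fin D, μ (if (i : ℕ) ∈ s then t i else Set.univ) =
        ∏ n ∈ s.filter (fun n => ¬ D ≤ n), μ (t n) := by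
      have h5 : ∀ i : Fin D, μ (if (i : ℕ) ∈ s then t i else Set.univ) =
          (fun n : ℕ => if n ∈ s then μ (t n) else 1) i := by
        intro i
        by_cases hi : (i : ℕ) ∈ s
        · simp [hi]
        · simp [hi]
      rw [Finset.prod_congr rfl (fun i _ => h5 i),
        Fin.prod_univ_eq_prod_range (fun n : ℕ => if n ∈ s then μ (t n) else 1) D,
        ← Finset.prod_filter]
      apply Finset.prod_congr _ (fun _ _ => rfl)
      ext n
      simp only [Finset.mem_filter, Finset.mem_range, not_le]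
      tauto
    rw [h3, h4, mul_comm, Finset.prod_filter_mul_prod_filter_not]
  · intro x hx y hy hxy
    simp only [Finset.coe_filter, Set.mem_ofPred_eq] at hx hy
    simp only at hxy
    omega

theorem ue_shx_glue (D : ℕ) (p : (Fin D → ℝ) × (ℕ → ℝ)) : shx D (ue_glue D p) = p.2 := by
  funext n
  simp [shx, ue_glue]

/-- functions of the first `D` coordinates and of the shifted sequence are independent -/
theorem ue_lintegral_split (μ : Measure ℝ) [IsProbabilityMeasure μ] (D : ℕ)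
    {f g : (ℕ → ℝ) → ℝ≥0∞} (hf : Measurable f) (hg : Measurable g)
    (hfD : ∀ x y : ℕ → ℝ, (∀ i < D, x i = y i) → f x = f y) :
    ∫⁻ x, f x * g (shx D x) ∂Measure.infinitePi (fun _ : ℕ => μ) =
      (∫⁻ x, f x ∂Measure.infinitePi (fun _ : ℕ => μ)) *
        ∫⁻ x, g x ∂Measure.infinitePi (fun _ : ℕ => μ) := by
  have hf' : Measurable (fun q : Fin D → ℝ => f (ue_glue D (q, 0))) :=
    hf.comp ((ue_measurable_glue D).comp (by fun_prop))
  have hfg : ∀ p : (Fin D → ℝ) × (ℕ → ℝ), f (ue_glue D p) = f (ue_glue D (p.1, 0)) := by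
    intro p
    apply hfD
    intro i hi
    simp [ue_glue, hi]
  have key : ∀ G : (ℕ → ℝ) → ℝ≥0∞, Measurable G →
      ∫⁻ x, f x * G (shx D x) ∂Measure.infinitePi (fun _ : ℕ => μ) =
        (∫⁻ q, f (ue_glue D (q, 0)) ∂Measure.pi (fun _ : Fin D => μ)) *
          ∫⁻ x, G x ∂Measure.infinitePi (fun _ : ℕ => μ) := by
    intro G hG
    conv_lhs => rw [← ue_map_glue μ D]
    have hm : Measurable (fun x : ℕ → ℝ => f x * G (shx D x)) :=
      hf.mul (hG.comp (ue_measurable_shx D))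
    rw [lintegral_map hm (ue_measurable_glue D)]
    simp only [ue_shx_glue]
    rw [← lintegral_prod_mul hf'.aemeasurable hG.aemeasurable]
    refine lintegral_congr fun p => ?_
    rw [hfg p]
  rw [key g hg]
  have h1 := key (fun _ => 1) measurable_const
  simp only [mul_one, lintegral_const, measure_univ] at h1
  rw [h1]

theorem ue_lintegral_shx (μ : Measure ℝ) [IsProbabilityMeasure μ] (D : ℕ)
    {g : (ℕ → ℝ) → ℝ≥0∞} (hg : Measurable g) :
    ∫⁻ x, g (shx D x) ∂Measure.infinitePi (fun _ : ℕ => μ) =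
      ∫⁻ x, g x ∂Measure.infinitePi (fun _ : ℕ => μ) := by
  have h := ue_lintegral_split μ D (f := fun _ => 1) measurable_const hg (fun _ _ _ => rfl)
  simpa using h

theorem ue_UU_congr (a : ℝ) {m : ℕ} (hm : 2 ≤ m) (x y : ℕ → ℝ) (h : ∀ i < m, x i = y i) :
    UU a m x = UU a m y := by
  unfold UU
  rw [h 0 (by omega), h 1 (by omega)]
  congr 4
  refine congrArg _ (Finset.sum_congr rfl fun j hj => ?_)
  rw [Finset.mem_Ico] at hj
  exact h j hj.2

/-! ### The recursion for the fractional moments -/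

theorem ue_rpow_sum_le {ι : Type*} (s : Finset ι) (f : ι → ℝ≥0∞) {ζ : ℝ} (h0 : 0 < ζ)
    (h1 : ζ ≤ 1) : (∑ i ∈ s, f i) ^ ζ ≤ ∑ i ∈ s, f i ^ ζ := by
  classical
  induction s using Finset.induction_on with
  | empty => simp [ENNReal.zero_rpow_of_pos h0]
  | insert a s ha ih =>
    rw [Finset.sum_insert ha, Finset.sum_insert ha]
    exact (ENNReal.rpow_add_le_add_rpow _ _ h0.le h1).trans (by gcongr)

/-- the pathwise inequality for the fractional power -/
theorem ue_pathwise {a α ζ : ℝ} (ha : 0 < a) (h0 : 0 < α) (hζ0 : 0 < ζ) (hζ1 : ζ ≤ 1) {n : ℕ}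
    (hn : 1 ≤ n) (x : ℕ → ℝ) : ENNReal.ofReal ((YY a α n x) ^ ζ) ≤
      ∑ j ∈ Finset.range n, ENNReal.ofReal ((GG α j) ^ ζ) *
        (ENNReal.ofReal ((UU a (n - j) (shx j x)) ^ ζ) +
        ∑ m ∈ Finset.Ico 2 (n - j), ENNReal.ofReal ((qq α m) ^ ζ) *
          (ENNReal.ofReal ((UU a m (shx j x) - 1 / 2) ^ ζ) *
          ENNReal.ofReal ((YY a α (n - j - m) (shx m (shx j x))) ^ ζ))) := by
  have hU : ∀ m x, 0 ≤ UU a m x - 1 / 2 := fun m x => by linarith [UU_ge_half ha.le m x]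
  have hU' : ∀ m x, 0 ≤ UU a m x := fun m x => by linarith [UU_ge_half ha.le m x]
  have hY : ∀ m x, 0 ≤ YY a α m x := fun m x => by linarith [YY_ge_half ha.le h0 m x]
  have hG := ue_GG_nonneg h0
  have hq := ue_qq_nonneg h0
  simp only [← ENNReal.ofReal_rpow_of_nonneg (hY _ _) hζ0.le,
    ← ENNReal.ofReal_rpow_of_nonneg (hU' _ _) hζ0.le,
    ← ENNReal.ofReal_rpow_of_nonneg (hU _ _) hζ0.le,
    ← ENNReal.ofReal_rpow_of_nonneg (hG _) hζ0.le,
    ← ENNReal.ofReal_rpow_of_nonneg (hq _) hζ0.le]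
  rw [YY_resum a α hn x, ENNReal.ofReal_sum_of_nonneg]
  · refine (ue_rpow_sum_le _ _ hζ0 hζ1).trans (Finset.sum_le_sum fun j _ => ?_)
    rw [ENNReal.ofReal_mul (hG j), ENNReal.mul_rpow_of_nonneg _ _ hζ0.le]
    gcongr
    rw [ENNReal.ofReal_add (hU' _ _) (Finset.sum_nonneg fun m _ =>
      mul_nonneg (mul_nonneg (hq m) (hU _ _)) (hY _ _))]
    refine (ENNReal.rpow_add_le_add_rpow _ _ hζ0.le hζ1).trans ?_
    gcongr
    rw [ENNReal.ofReal_sum_of_nonneg (fun m _ =>
      mul_nonneg (mul_nonneg (hq m) (hU _ _)) (hY _ _))]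
    refine (ue_rpow_sum_le _ _ hζ0 hζ1).trans (Finset.sum_le_sum fun m _ => ?_)
    rw [ENNReal.ofReal_mul (mul_nonneg (hq m) (hU _ _)), ENNReal.ofReal_mul (hq m),
      ENNReal.mul_rpow_of_nonneg _ _ hζ0.le, ENNReal.mul_rpow_of_nonneg _ _ hζ0.le, mul_assoc,
      ue_shx_shx]
  · intro j _
    exact mul_nonneg (hG j) (add_nonneg (hU' _ _) (Finset.sum_nonneg fun m _ =>
      mul_nonneg (mul_nonneg (hq m) (hU _ _)) (hY _ _)))

theorem frac_rec {a α B ζ A ρ CU : ℝ} (ha : 0 < a) (h0 : 0 < α) (hζ0 : 0 < ζ) (hζ1 : ζ ≤ 1)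
    (hA0 : 0 ≤ A) (hρ0 : 0 ≤ ρ) (hCU : 0 ≤ CU)
    (hA : ∀ n : ℕ, ∑ j ∈ Finset.range n, (GG α j) ^ ζ ≤ A)
    (hU : ∀ m : ℕ, ∫⁻ x, ENNReal.ofReal ((UU a m x) ^ ζ) ∂nuX a B ≤ ENNReal.ofReal CU)
    (hV : ∀ n : ℕ, ∑ m ∈ Finset.Ico 2 n, ENNReal.ofReal ((qq α m) ^ ζ) *
      ∫⁻ x, ENNReal.ofReal ((UU a m x - 1 / 2) ^ ζ) ∂nuX a B ≤ ENNReal.ofReal ρ)
    (hAρ : A * ρ ≤ 1 / 2) {n : ℕ} (hn : 1 ≤ n) :
    ∫⁻ x, ENNReal.ofReal ((YY a α n x) ^ ζ) ∂nuX a B ≤ ENNReal.ofReal (2 * A * CU) := by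
  induction n using Nat.strong_induction_on with
  | _ n ih =>
    have mU : ∀ m, Measurable (fun x => ENNReal.ofReal ((UU a m x) ^ ζ)) := fun m =>
      ENNReal.measurable_ofReal.comp ((measurable_UU a m).pow_const ζ)
    have mV : ∀ m, Measurable (fun x => ENNReal.ofReal ((UU a m x - 1 / 2) ^ ζ)) := fun m =>
      ENNReal.measurable_ofReal.comp (((measurable_UU a m).sub_const _).pow_const ζ)
    have mY : ∀ m, Measurable (fun x => ENNReal.ofReal ((YY a α m x) ^ ζ)) := fun m =>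
      ENNReal.measurable_ofReal.comp ((measurable_YY a α m).pow_const ζ)
    have mS := ue_measurable_shx
    set H : ℕ → (ℕ → ℝ) → ℝ≥0∞ := fun j x => ENNReal.ofReal ((UU a (n - j) x) ^ ζ) +
        ∑ m ∈ Finset.Ico 2 (n - j), ENNReal.ofReal ((qq α m) ^ ζ) *
          (ENNReal.ofReal ((UU a m x - 1 / 2) ^ ζ) *
          ENNReal.ofReal ((YY a α (n - j - m) (shx m x)) ^ ζ)) with hH
    have mVY : ∀ j m, Measurable (fun x => ENNReal.ofReal ((UU a m x - 1 / 2) ^ ζ) *
          ENNReal.ofReal ((YY a α (n - j - m) (shx m x)) ^ ζ)) := fun j m =>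
      (mV m).mul ((mY (n - j - m)).comp (mS m))
    have mH : ∀ j, Measurable (H j) := fun j =>
      (mU (n - j)).add (Finset.measurable_sum _ fun m _ => (mVY j m).const_mul _)
    have hpath : ∀ x, ENNReal.ofReal ((YY a α n x) ^ ζ) ≤
        ∑ j ∈ Finset.range n, ENNReal.ofReal ((GG α j) ^ ζ) * H j (shx j x) := fun x =>
      ue_pathwise ha h0 hζ0 hζ1 hn x
    have mHS : ∀ j, Measurable (fun x => H j (shx j x)) := fun j => (mH j).comp (mS j)
    refine (lintegral_mono hpath).trans ?_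
    rw [lintegral_finsetSum _ (fun j _ => (mHS j).const_mul _)]
    have key : ∀ j ∈ Finset.range n, ∫⁻ x, ENNReal.ofReal ((GG α j) ^ ζ) * H j (shx j x) ∂nuX a B ≤
        ENNReal.ofReal ((GG α j) ^ ζ) * ENNReal.ofReal (CU + ρ * (2 * A * CU)) := by
      intro j hj
      rw [Finset.mem_range] at hj
      rw [lintegral_const_mul _ (mHS j)]
      gcongr
      have e1 : ∫⁻ x, H j (shx j x) ∂nuX a B = ∫⁻ x, H j x ∂nuX a B :=
        ue_lintegral_shx _ j (mH j)
      rw [e1, hH]
      simp only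
      rw [lintegral_add_left (mU (n - j)), ENNReal.ofReal_add hCU (by positivity),
        lintegral_finsetSum _ (fun m _ => (mVY j m).const_mul _)]
      refine add_le_add (hU _) ?_
      have e2 : ∀ m ∈ Finset.Ico 2 (n - j), ∫⁻ x, ENNReal.ofReal ((qq α m) ^ ζ) *
          (ENNReal.ofReal ((UU a m x - 1 / 2) ^ ζ) *
          ENNReal.ofReal ((YY a α (n - j - m) (shx m x)) ^ ζ)) ∂nuX a B ≤
          (ENNReal.ofReal ((qq α m) ^ ζ) *
            ∫⁻ x, ENNReal.ofReal ((UU a m x - 1 / 2) ^ ζ) ∂nuX a B) *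
            ENNReal.ofReal (2 * A * CU) := by
        intro m hm
        rw [Finset.mem_Ico] at hm
        rw [lintegral_const_mul _ (mVY j m), mul_assoc]
        gcongr
        have e3 := ue_lintegral_split (gaussianReal (B * a) a.toNNReal) m (mV m)
          (mY (n - j - m)) (fun x y h => by
            rw [ue_UU_congr a hm.1 x y h])
        have e4 : ∫⁻ x, ENNReal.ofReal ((UU a m x - 1 / 2) ^ ζ) *
            ENNReal.ofReal ((YY a α (n - j - m) (shx m x)) ^ ζ) ∂nuX a B =
            (∫⁻ x, ENNReal.ofReal ((UU a m x - 1 / 2) ^ ζ) ∂nuX a B) *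
            ∫⁻ x, ENNReal.ofReal ((YY a α (n - j - m) x) ^ ζ) ∂nuX a B := e3
        rw [e4]
        gcongr
        exact ih (n - j - m) (by omega) (by omega)
      refine (Finset.sum_le_sum e2).trans ?_
      rw [← Finset.sum_mul, ENNReal.ofReal_mul hρ0]
      gcongr
      exact hV (n - j)
    refine (Finset.sum_le_sum key).trans ?_
    rw [← Finset.sum_mul, ← ENNReal.ofReal_sum_of_nonneg
      (fun j _ => Real.rpow_nonneg (ue_GG_nonneg h0 j) ζ), ← ENNReal.ofReal_mul
      (Finset.sum_nonneg fun j _ => Real.rpow_nonneg (ue_GG_nonneg h0 j) ζ)]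
    apply ENNReal.ofReal_le_ofReal
    have h1 : 0 ≤ CU + ρ * (2 * A * CU) := by positivity
    calc (∑ j ∈ Finset.range n, GG α j ^ ζ) * (CU + ρ * (2 * A * CU)) ≤
        A * (CU + ρ * (2 * A * CU)) := mul_le_mul_of_nonneg_right (hA n) h1
      _ = A * CU + 2 * (A * ρ) * (A * CU) := by ring
      _ ≤ A * CU + 2 * (1 / 2) * (A * CU) := by gcongr
      _ = 2 * A * CU := by ring

end Pool.Agent.Lib.MP_3d9a2b_pr
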