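import Pool.Agent.Lib.MP_3d9a2b_pr.U.Partition
import Pool.Agent.Lib.MP_3d9a2b_pr.U.Coarse
import Pool.Agent.Lib.MP_3d9a2b_pr.U.LawX
import Pool.Agent.Lib.MP_3d9a2b_pr.U.Green
import Pool.Agent.Lib.MP_3d9a2b_pr.U.Recur
import Pool.Agent.Lib.MP_3d9a2b_pr.U.GaussU
import Pool.Agent.Lib.MP_3d9a2b_pr.U.Params
import Pool.Agent.Lib.MP_3d9a2b_pr.Final

set_option autoImplicit false

namespace Pool.Agent.Lib.MP_3d9a2b_pr

open MeasureTheory ProbabilityTheory Filter Topology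
open scoped NNReal ENNReal

lemma uj_qq_rpow {α ζ : ℝ} (h0 : 0 < α) (h1 : α ≤ 1 / 20) (hζ : 0 ≤ ζ) {m : ℕ} (hm : 2 ≤ m) :
    (qq α m) ^ ζ ≤ (8 * α * (m : ℝ) ^ (-(1 + α))) ^ ζ :=
  Real.rpow_le_rpow (qq_nonneg h0 m) (qq_le h0 h1 hm) hζ

/-- uniform bound for the fractional moments of the renewal sums -/
theorem frac_bound : ∃ K α₀ : ℝ, 0 < K ∧ 0 < α₀ ∧ α₀ ≤ 1 / 20 ∧ ∀ α : ℝ, 0 < α → α ≤ α₀ →
    1 / (1 + α) + K * α ^ 2 * Real.log (1 / α) ≤ 1 ∧
    ∃ ζ a₀ D : ℝ, 1 / 2 ≤ ζ ∧ ζ < 1 ∧ 0 < a₀ ∧ a₀ ≤ 1 ∧ 0 ≤ D ∧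
      ∀ a B : ℝ, a₀ / 2 ≤ a → a ≤ a₀ →
        1 / (1 + α) + K * α ^ 2 * Real.log (1 / α) ≤ B → B ≤ 1 → ∀ n : ℕ, 1 ≤ n →
        ∫⁻ x, ENNReal.ofReal ((YY a α n x) ^ ζ) ∂nuX a B ≤ ENNReal.ofReal D := by
  obtain ⟨K₁, hK₁, hG⟩ := green_bound
  obtain ⟨C, hC, hgauss⟩ := gauss_est
  obtain ⟨K, α₀, hK, hα₀, hα₀', hpar⟩ := params K₁ C hK₁ hC
  refine ⟨K, α₀, hK, hα₀, hα₀', fun α h0 h1 => ?_⟩
  obtain ⟨hle, ζ, a₀, A, ρ, hζ, hζ1, ha₀, ha₀1, hA0, hρ0, hAρ, hAs, hrest⟩ := hpar α h0 h1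
  refine ⟨hle, ζ, a₀, 2 * A * C, hζ, hζ1, ha₀, ha₀1, by positivity, ?_⟩
  intro a B ha ha' hB hB1 n hn
  obtain ⟨hζB, hρs⟩ := hrest a B ha ha' hB hB1
  have ha0 : 0 < a := by linarith
  have hζ0 : 0 < ζ := by linarith
  obtain ⟨g1, g2⟩ := hgauss a B ζ ha0 (by linarith) hB1 hζ hζB
  refine frac_rec ha0 h0 hζ0 hζ1.le hA0 hρ0 (by linarith) ?_ g1 ?_ hAρ hn
  · intro n
    refine le_trans ?_ (hAs n)
    rcases Nat.eq_zero_or_pos n with rfl | hn
    · simp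
    · rw [Finset.sum_range_eq_add_Ico _ hn]
      have h3 : GG α 0 = 1 := by rw [GG]
      rw [h3, Real.one_rpow]
      gcongr with j hj
      · exact GG_nonneg h0 j
      · exact hG α h0 (h1.trans hα₀') j (Finset.mem_Ico.1 hj).1
  · intro n
    have h3 : ∀ m ∈ Finset.Ico 2 n, 0 ≤ (8 * α * (m : ℝ) ^ (-(1 + α))) ^ ζ *
        (C * (a ^ (1 / 4 : ℝ) + Real.exp (-(a * (B - ζ) * (m - 2))))) := by
      intro m _
      positivity
    calc ∑ m ∈ Finset.Ico 2 n, ENNReal.ofReal ((qq α m) ^ ζ) *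
          ∫⁻ x, ENNReal.ofReal ((UU a m x - 1 / 2) ^ ζ) ∂nuX a B
        ≤ ∑ m ∈ Finset.Ico 2 n, ENNReal.ofReal ((8 * α * (m : ℝ) ^ (-(1 + α))) ^ ζ *
          (C * (a ^ (1 / 4 : ℝ) + Real.exp (-(a * (B - ζ) * (m - 2)))))) := by
          refine Finset.sum_le_sum fun m hm => ?_
          have hm2 := (Finset.mem_Ico.1 hm).1
          rw [ENNReal.ofReal_mul (by positivity)]
          exact mul_le_mul' (ENNReal.ofReal_le_ofReal
            (uj_qq_rpow h0 (h1.trans hα₀') hζ0.le hm2)) (g2 m hm2)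
      _ = ENNReal.ofReal (∑ m ∈ Finset.Ico 2 n, (8 * α * (m : ℝ) ^ (-(1 + α))) ^ ζ *
          (C * (a ^ (1 / 4 : ℝ) + Real.exp (-(a * (B - ζ) * (m - 2)))))) :=
          (ENNReal.ofReal_sum_of_nonneg h3).symm
      _ ≤ ENNReal.ofReal ρ := ENNReal.ofReal_le_ofReal (hρs n)

section UJ
variable {α : ℝ} {Ω Ω' : Type} [MeasurableSpace Ω] [MeasurableSpace Ω'] {P : Measure Ω}
  {P' : Measure Ω'} [IsProbabilityMeasure P] [IsProbabilityMeasure P'] (M : Model α P P')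

lemma uj_psi_pos (a p x : ℝ) : 0 < psi a p x := Real.exp_pos _

lemma uj_measurable_psi (a : ℝ) : Measurable (fun q : ℝ × ℝ => psi a q.1 q.2) := by
  unfold psi; fun_prop

lemma uj_measurable_prod {lam h θ : ℝ} (hθ : 0 < θ) (n : ℕ) (a : ℝ) :
    Measurable (fun q : Ω × Ω' => ∏ j ∈ Finset.range n,
      psi a (M.pp θ j q.2) (M.X lam h θ q.1 j)) := by
  refine Finset.measurable_prod _ fun j _ => ?_
  have h1 : Measurable fun q : Ω × Ω' => M.pp θ j q.2 := (measurable_pp M hθ j).comp measurable_snd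
  have h2 : Measurable fun q : Ω × Ω' => M.X lam h θ q.1 j :=
    ((measurable_pi_apply j).comp (measurable_X M lam h θ)).comp measurable_fst
  exact (uj_measurable_psi a).comp (h1.prodMk h2)

lemma uj_integrable_prod {θ : ℝ} (hθ : 0 < θ) (n : ℕ) {a : ℝ} (ha : 0 ≤ a) (x : ℕ → ℝ) :
    Integrable (fun ω' => ∏ j ∈ Finset.range n, psi a (M.pp θ j ω') (x j)) P' := by
  have hm : Measurable (fun ω' => ∏ j ∈ Finset.range n, psi a (M.pp θ j ω') (x j)) := by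
    refine Finset.measurable_prod _ fun j _ => ?_
    exact (uj_measurable_psi a).comp ((measurable_pp M hθ j).prodMk measurable_const)
  refine (integrable_const (∏ j ∈ Finset.range n, NN a (x j))).mono' hm.aestronglyMeasurable
    (ae_of_all _ fun ω' => ?_)
  rw [Real.norm_eq_abs, abs_of_nonneg (Finset.prod_nonneg fun j _ => (uj_psi_pos _ _ _).le)]
  exact Finset.prod_le_prod (fun j _ => (uj_psi_pos _ _ _).le)
    fun j _ => psi_le ha (pp_mem M hθ j ω').1 (pp_mem M hθ j ω').2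

lemma uj_rpow_le {z y ζ : ℝ} (hz : 0 ≤ z) (hy : 0 < y) (hζ0 : 0 ≤ ζ) (hζ1 : ζ ≤ 1) :
    z ^ ζ ≤ (1 - ζ) * y ^ ζ + ζ * (y ^ (ζ - 1) * z) := by
  have h1 := Real.geom_mean_le_arith_mean2_weighted hζ0 (by linarith : 0 ≤ 1 - ζ) hz hy.le
    (by ring)
  have h2 : 0 < y ^ (ζ - 1) := Real.rpow_pos_of_pos hy _
  have h3 := mul_le_mul_of_nonneg_right h1 h2.le
  have h4 : y ^ (1 - ζ) * y ^ (ζ - 1) = 1 := by
    rw [← Real.rpow_add hy]; simp
  have h5 : y * y ^ (ζ - 1) = y ^ ζ := by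
    nth_rewrite 1 [← Real.rpow_one y]
    rw [← Real.rpow_add hy]; congr 1; ring
  calc z ^ ζ = z ^ ζ * (y ^ (1 - ζ) * y ^ (ζ - 1)) := by rw [h4, mul_one]
    _ = z ^ ζ * y ^ (1 - ζ) * y ^ (ζ - 1) := by ring
    _ ≤ (ζ * z + (1 - ζ) * y) * y ^ (ζ - 1) := h3
    _ = (1 - ζ) * (y * y ^ (ζ - 1)) + ζ * (y ^ (ζ - 1) * z) := by ring
    _ = (1 - ζ) * y ^ ζ + ζ * (y ^ (ζ - 1) * z) := by rw [h5]

/-- fractional moment of the partition function -/
theorem lintegral_Z_rpow_le {lam h θ ζ D : ℝ} (hlam : 0 < lam) (hh : 0 ≤ h) (hθ : 0 < θ)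
    (h0 : 0 < α) (h1 : α ≤ 1 / 2) (hζ0 : 0 < ζ) (hζ1 : ζ ≤ 1) (n : ℕ)
    (hD : ∫⁻ x, ENNReal.ofReal ((YY (lam ^ 2 * θ) α n x) ^ ζ) ∂nuX (lam ^ 2 * θ) (h / lam) ≤
      ENNReal.ofReal D) :
    ∫⁻ ω, ENNReal.ofReal ((M.Z lam h (θ * n) ω) ^ ζ) ∂P ≤ ENNReal.ofReal D := by
  set a := lam ^ 2 * θ with ha
  have ha0 : 0 < a := by positivity
  have ht : 0 ≤ θ * n := by positivity
  have hXm := measurable_X M lam h θ
  set Y : Ω → ℝ := fun ω => YY a α n (M.X lam h θ ω) with hY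
  have hYm : Measurable Y := (measurable_YY a α n).comp hXm
  have hY2 : ∀ ω, 1 / 2 ≤ Y ω := fun ω => YY_ge_half ha0.le h0 n _
  have hYp : ∀ ω, 0 < Y ω := fun ω => lt_of_lt_of_le (by norm_num) (hY2 ω)
  -- the moment of `Y`
  have hYD : ∫⁻ ω, ENNReal.ofReal (Y ω ^ ζ) ∂P ≤ ENNReal.ofReal D := by
    refine le_trans (le_of_eq ?_) hD
    rw [← law_X M hlam hθ, lintegral_map _ hXm]
    exact ((measurable_YY a α n).pow_const ζ).ennreal_ofReal
  have hZ0 : ∀ ω, 0 ≤ M.Z lam h (θ * n) ω := fun ω => integral_nonneg fun _ => (Real.exp_pos _).le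
  have hFi := lzF_integrable M hlam hh ht (h := h) (t := θ * n)
  have hFm := lzF_measurable M lam h (θ * n) ht
  -- the mixed term
  have hmix : ∫⁻ ω, ENNReal.ofReal (Y ω ^ (ζ - 1) * M.Z lam h (θ * n) ω) ∂P ≤
      ENNReal.ofReal D := by
    set g : (ℕ → ℝ) → ℝ := fun x => (YY a α n x) ^ (ζ - 1) with hg
    have hgm : Measurable g := (measurable_YY a α n).pow_const _
    have hg0 : ∀ x, 0 ≤ g x := fun x =>
      Real.rpow_nonneg (le_trans (by norm_num) (YY_ge_half ha0.le h0 n x)) _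
    have hgC : ∀ x, g x ≤ (1 / 2 : ℝ) ^ (ζ - 1) := fun x =>
      Real.rpow_le_rpow_of_nonpos (by norm_num) (YY_ge_half ha0.le h0 n x) (by linarith)
    have hco := coarse M (h := h) hlam hθ n g hgm hg0 _ hgC
    have hm1 : Measurable (fun q : Ω × Ω' => ENNReal.ofReal (g (M.X lam h θ q.1) *
        Real.exp (-2 * lam * (M.J (θ * n) q.1 q.2 + h * M.T (θ * n) q.2)))) :=
      ((hgm.comp (hXm.comp measurable_fst)).mul hFm).ennreal_ofReal
    have hm2 : Measurable (fun q : Ω × Ω' => ENNReal.ofReal (g (M.X lam h θ q.1) *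
        ∏ j ∈ Finset.range n, psi a (M.pp θ j q.2) (M.X lam h θ q.1 j))) :=
      ((hgm.comp (hXm.comp measurable_fst)).mul
        (uj_measurable_prod M hθ n a)).ennreal_ofReal
    calc ∫⁻ ω, ENNReal.ofReal (Y ω ^ (ζ - 1) * M.Z lam h (θ * n) ω) ∂P
        = ∫⁻ ω, ∫⁻ ω', ENNReal.ofReal (g (M.X lam h θ ω) *
          Real.exp (-2 * lam * (M.J (θ * n) ω ω' + h * M.T (θ * n) ω'))) ∂P' ∂P := by
          refine lintegral_congr_ae ?_
          filter_upwards [hFi.prod_right_ae] with ω hω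
          have h3 : Integrable (fun ω' => g (M.X lam h θ ω) *
              Real.exp (-2 * lam * (M.J (θ * n) ω ω' + h * M.T (θ * n) ω'))) P' :=
            Integrable.const_mul hω _
          rw [← ofReal_integral_eq_lintegral_ofReal h3 (ae_of_all _ fun ω' =>
            mul_nonneg (hg0 _) (Real.exp_pos _).le), integral_const_mul]
          rfl
      _ = ∫⁻ ω', ∫⁻ ω, ENNReal.ofReal (g (M.X lam h θ ω) *
          Real.exp (-2 * lam * (M.J (θ * n) ω ω' + h * M.T (θ * n) ω'))) ∂P ∂P' :=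
          lintegral_lintegral_swap hm1.aemeasurable
      _ ≤ ∫⁻ ω', ∫⁻ ω, ENNReal.ofReal (g (M.X lam h θ ω) *
          ∏ j ∈ Finset.range n, psi a (M.pp θ j ω') (M.X lam h θ ω j)) ∂P ∂P' :=
          lintegral_mono_ae hco
      _ = ∫⁻ ω, ∫⁻ ω', ENNReal.ofReal (g (M.X lam h θ ω) *
          ∏ j ∈ Finset.range n, psi a (M.pp θ j ω') (M.X lam h θ ω j)) ∂P' ∂P :=
          (lintegral_lintegral_swap hm2.aemeasurable).symm
      _ ≤ ∫⁻ ω, ENNReal.ofReal (Y ω ^ ζ) ∂P := by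
          refine lintegral_mono fun ω => ?_
          have h3 : Integrable (fun ω' => g (M.X lam h θ ω) *
              ∏ j ∈ Finset.range n, psi a (M.pp θ j ω') (M.X lam h θ ω j)) P' :=
            (uj_integrable_prod M hθ n ha0.le _).const_mul _
          rw [← ofReal_integral_eq_lintegral_ofReal h3 (ae_of_all _ fun ω' =>
            mul_nonneg (hg0 _) (Finset.prod_nonneg fun j _ => (uj_psi_pos _ _ _).le)),
            integral_const_mul]
          refine ENNReal.ofReal_le_ofReal ?_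
          have h4 := partition_le M hθ h0 h1 (n := n) ha0.le (M.X lam h θ ω)
          have h5 : Y ω ^ (ζ - 1) * Y ω = Y ω ^ ζ := by
            nth_rewrite 2 [← Real.rpow_one (Y ω)]
            rw [← Real.rpow_add (hYp ω)]; congr 1; ring
          rw [← h5]
          exact mul_le_mul_of_nonneg_left h4 (hg0 _)
      _ ≤ ENNReal.ofReal D := hYD
  -- conclusion
  have hZm : Measurable (M.Z lam h (θ * n)) :=
    (StronglyMeasurable.integral_prod_right' (ν := P') (f := lzF M lam h (θ * n))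
      hFm.stronglyMeasurable).measurable
  calc ∫⁻ ω, ENNReal.ofReal ((M.Z lam h (θ * n) ω) ^ ζ) ∂P
      ≤ ∫⁻ ω, (ENNReal.ofReal (1 - ζ) * ENNReal.ofReal (Y ω ^ ζ) +
        ENNReal.ofReal ζ * ENNReal.ofReal (Y ω ^ (ζ - 1) * M.Z lam h (θ * n) ω)) ∂P := by
        refine lintegral_mono fun ω => ?_
        rw [← ENNReal.ofReal_mul (by linarith), ← ENNReal.ofReal_mul hζ0.le,
          ← ENNReal.ofReal_add]
        · exact ENNReal.ofReal_le_ofReal (uj_rpow_le (hZ0 ω) (hYp ω) hζ0.le hζ1)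
        · exact mul_nonneg (by linarith) (Real.rpow_nonneg (hYp ω).le _)
        · exact mul_nonneg hζ0.le (mul_nonneg (Real.rpow_nonneg (hYp ω).le _) (hZ0 ω))
    _ = ENNReal.ofReal (1 - ζ) * ∫⁻ ω, ENNReal.ofReal (Y ω ^ ζ) ∂P +
        ENNReal.ofReal ζ * ∫⁻ ω, ENNReal.ofReal (Y ω ^ (ζ - 1) * M.Z lam h (θ * n) ω) ∂P := by
        have hm3 : Measurable fun ω => ENNReal.ofReal (Y ω ^ (ζ - 1) * M.Z lam h (θ * n) ω) :=
          ((hYm.pow_const (ζ - 1)).mul hZm).ennreal_ofReal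
        rw [lintegral_add_left ((hYm.pow_const ζ).ennreal_ofReal.const_mul _),
          lintegral_const_mul _ (hYm.pow_const ζ).ennreal_ofReal, lintegral_const_mul _ hm3]
    _ ≤ ENNReal.ofReal (1 - ζ) * ENNReal.ofReal D + ENNReal.ofReal ζ * ENNReal.ofReal D := by
        gcongr
    _ = ENNReal.ofReal D := by
        rw [← add_mul, ← ENNReal.ofReal_add (by linarith) hζ0.le]
        simp

/-- the averaged logarithm is bounded -/
theorem integral_log_Z_le {lam h θ ζ D : ℝ} (hlam : 0 < lam) (hh : 0 ≤ h) (hθ : 0 < θ)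
    (h0 : 0 < α) (h1 : α ≤ 1 / 2) (hζ0 : 0 < ζ) (hζ1 : ζ ≤ 1) (hD0 : 0 ≤ D) (n : ℕ)
    (hD : ∫⁻ x, ENNReal.ofReal ((YY (lam ^ 2 * θ) α n x) ^ ζ) ∂nuX (lam ^ 2 * θ) (h / lam) ≤
      ENNReal.ofReal D) :
    ∫ ω, Real.log (M.Z lam h (θ * n) ω) ∂P ≤ D / ζ := by
  have ht : 0 ≤ θ * n := by positivity
  have hZ0 : ∀ ω, 0 ≤ M.Z lam h (θ * n) ω := fun ω => integral_nonneg fun _ => (Real.exp_pos _).le
  have hFm := lzF_measurable M lam h (θ * n) ht
  have hZm : Measurable (M.Z lam h (θ * n)) :=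
    (StronglyMeasurable.integral_prod_right' (ν := P') (f := lzF M lam h (θ * n))
      hFm.stronglyMeasurable).measurable
  have h2 := lintegral_Z_rpow_le M hlam hh hθ h0 h1 hζ0 hζ1 n hD
  have h3 : Integrable (fun ω => (M.Z lam h (θ * n) ω) ^ ζ) P := by
    refine (lintegral_ofReal_ne_top_iff_integrable (hZm.pow_const ζ).aestronglyMeasurable
      (ae_of_all _ fun ω => Real.rpow_nonneg (hZ0 ω) _)).1 ?_
    exact ne_top_of_le_ne_top ENNReal.ofReal_ne_top h2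
  have h4 : ∫ ω, (M.Z lam h (θ * n) ω) ^ ζ ∂P ≤ D := by
    rw [← ofReal_integral_eq_lintegral_ofReal h3 (ae_of_all _ fun ω =>
      Real.rpow_nonneg (hZ0 ω) _)] at h2
    exact (ENNReal.ofReal_le_ofReal_iff hD0).1 h2
  calc ∫ ω, Real.log (M.Z lam h (θ * n) ω) ∂P
      ≤ ∫ ω, (M.Z lam h (θ * n) ω) ^ ζ / ζ ∂P :=
        integral_mono (integrable_log_Z M hlam hh ht) (h3.div_const ζ)
          fun ω => Real.log_le_rpow_div (hZ0 ω) hζ0
    _ = (∫ ω, (M.Z lam h (θ * n) ω) ^ ζ ∂P) / ζ := integral_div _ _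
    _ ≤ D / ζ := by gcongr

/-- lower bound for the averaged logarithm: one long excursion above -/
lemma uj_integral_ge {γ η c : ℝ} (hγ : 0 < γ) (hγ1 : γ ≤ 1) (hη : 0 ≤ η) (hc : 0 < c)
    (hR : ∀ (θ : ℝ), 0 < θ → ∀ (p : ℕ → ℕ) (k : ℕ), p 0 = 0 → (∀ i < k, p i < p (i + 1)) →
        ∏ i ∈ Finset.range k, (c * ((p (i + 1) - p i : ℕ) : ℝ) ^ (-(1 + α))) ≤
          P'.real {ω | ∀ i < k, nextPt (M.R ω) (θ * (p i + 1)) ∈
            Set.Ioc (θ * p (i + 1)) (θ * (p (i + 1) + 1 / 2))})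
    {lam t : ℝ} (hlam : 0 < lam) (N : ℕ) (hN : 1 ≤ N) (ht : (lam ^ 2)⁻¹ * (N + 1) ≤ t) :
    - kap α (Real.log (2 / c)) N - 2 * (100 + 2 * η)
      - lam * ((γ + η) * lam * (t - (lam ^ 2)⁻¹ * N)) ≤
      ∫ ω, Real.log (M.Z lam ((γ + η) * lam) t ω) ∂P := by
  obtain ⟨μ, hμ, hμ1, hμ2, hμ3, hμ4, hμ5, hμ6⟩ := env_law M γ hγ hγ1 hlam
  have hθ : 0 < (lam ^ 2)⁻¹ := by positivity
  have ht0 : 0 ≤ t := le_trans (by positivity) ht
  have hWi : ∀ n : ℕ, Integrable (fun ω => (env M lam (γ * lam) ω n).2) P := by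
    intro n
    have h := law_integrable_eval (g := fun z : ℝ × ℝ => z.2) hμ3 n
    rw [← hμ5] at h
    exact h.comp_measurable hμ6
  have hWe : ∀ n : ℕ, ∫ ω, (env M lam (γ * lam) ω n).2 ∂P ≤ 100 := by
    intro n
    have h1 : ∫ ω, (env M lam (γ * lam) ω n).2 ∂P = ∫ ζ, (ζ n).2 ∂nu μ := by
      have h := law_integrable_eval (g := fun z : ℝ × ℝ => z.2) hμ3 n
      rw [← hμ5, integral_map hμ6.aemeasurable]
      rw [hμ5]
      exact h.aestronglyMeasurable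
    rw [h1, law_integral_eval (g := fun z => z.2) hμ3.aestronglyMeasurable n]
    exact hμ4
  obtain ⟨hyi, hye⟩ := integral_y M ((γ + η) * lam) t ((lam ^ 2)⁻¹ * N)
  set CC := Real.log (2 / c) with hCC
  have hae : ∀ᵐ ω ∂P, - kap α CC N - (env M lam (γ * lam) ω 0).2
      - (env M lam (γ * lam) ω N).2 - 2 * (2 * η)
      - lam * (M.y ((γ + η) * lam) t ω - M.y ((γ + η) * lam) ((lam ^ 2)⁻¹ * N) ω) ≤
      Real.log (M.Z lam ((γ + η) * lam) t ω) := by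
    filter_upwards [logZ_ge_L M hc hR hlam (h := (γ + η) * lam) (by positivity) N ht] with ω hω
    rw [← hCC] at hω
    have h1 := L_ge (α := α) (C := CC) (l := N) (N := N) hN le_rfl false
      (env M lam ((γ + η) * lam) ω)
    have h2 := env_snd M (γ := γ) hlam hη ω N
    have h3 := env_snd M (γ := γ) hlam hη ω 0
    have h4 : L α CC (N - N) (sh N (env M lam ((γ + η) * lam) ω)) = 0 := by
      rw [Nat.sub_self, L]
    rw [h4] at h1
    simp only [Bool.false_eq_true, if_false] at h1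
    linarith
  have hint : Integrable (fun ω => - kap α CC N - (env M lam (γ * lam) ω 0).2
      - (env M lam (γ * lam) ω N).2 - 2 * (2 * η)
      - lam * (M.y ((γ + η) * lam) t ω - M.y ((γ + η) * lam) ((lam ^ 2)⁻¹ * N) ω)) P :=
    ((((integrable_const _).sub (hWi 0)).sub (hWi N)).sub (integrable_const _)).sub
      (hyi.const_mul _)
  have hle := integral_mono_ae hint
    (integrable_log_Z M hlam (by positivity : 0 ≤ (γ + η) * lam) ht0) hae
  refine le_trans ?_ hle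
  have e1 := integral_sub ((((integrable_const (μ := P) (- kap α CC N)).sub (hWi 0)).sub
    (hWi N)).sub (integrable_const (μ := P) (2 * (2 * η)))) (hyi.const_mul lam)
  have e2 := integral_sub (((integrable_const (μ := P) (- kap α CC N)).sub (hWi 0)).sub
    (hWi N)) (integrable_const (μ := P) (2 * (2 * η)))
  have e3 := integral_sub ((integrable_const (μ := P) (- kap α CC N)).sub (hWi 0)) (hWi N)
  have e4 := integral_sub (integrable_const (μ := P) (- kap α CC N)) (hWi 0)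
  simp only [Pi.sub_apply] at e1 e2 e3 e4
  rw [e1, e2, e3, e4, integral_const_mul (μ := P) lam, hye]
  simp only [integral_const, probReal_univ, smul_eq_mul, one_mul]
  have h5 := hWe 0
  have h6 := hWe N
  linarith

end UJ

/-- the free energy vanishes above the line of slope `1 / (1 + α) + K α ^ 2 log (1 / α)` -/
theorem deloc : ∃ K α₀ : ℝ, 0 < K ∧ 0 < α₀ ∧ α₀ ≤ 1 / 20 ∧ ∀ α : ℝ, 0 < α → α ≤ α₀ →
    ∀ {Ω Ω' : Type} [MeasurableSpace Ω] [MeasurableSpace Ω'] (P : Measure Ω) (P' : Measure Ω')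
      [IsProbabilityMeasure P] [IsProbabilityMeasure P'] (M : Model α P P') (lam h : ℝ),
      0 < lam → (1 / (1 + α) + K * α ^ 2 * Real.log (1 / α)) * lam ≤ h →
      ∃ C : ℝ, ∀ᶠ t in atTop, ∫ ω, Real.log (M.Z lam h t ω) ∂P ≤ C := by
  obtain ⟨K, α₀, hK, hα₀, hα₀', hfr⟩ := frac_bound
  refine ⟨K, α₀, hK, hα₀, hα₀', ?_⟩
  intro α h0 h1 Ω Ω' _ _ P P' _ _ M lam h hlam hh
  obtain ⟨hle, ζ, a₀, D, hζ, hζ1, ha₀, ha₀1, hD0, hfrac⟩ := hfr α h0 h1
  have hlog : 0 ≤ Real.log (1 / α) := Real.log_nonneg (by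
    rw [le_div_iff₀ h0]; linarith)
  set s := 1 / (1 + α) + K * α ^ 2 * Real.log (1 / α) with hs
  have hs0 : 0 < s := by positivity
  set h₁ := min h lam with hh₁
  have hh₁0 : 0 ≤ h₁ := le_min (le_trans (by positivity) hh) hlam.le
  have hh₁s : s * lam ≤ h₁ := le_min hh (by nlinarith)
  refine ⟨D / ζ, ?_⟩
  filter_upwards [eventually_ge_atTop (a₀ / lam ^ 2), eventually_gt_atTop 0] with t ht1 ht0
  have hr1 : 1 ≤ lam ^ 2 * t / a₀ := by
    rw [div_le_iff₀ (by positivity)] at ht1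
    rw [le_div_iff₀ ha₀]
    linarith
  set n := ⌈lam ^ 2 * t / a₀⌉₊ with hn
  have hn1 : lam ^ 2 * t / a₀ ≤ n := Nat.le_ceil _
  have hn2 : (n : ℝ) < lam ^ 2 * t / a₀ + 1 := Nat.ceil_lt_add_one (by linarith)
  have hn0 : (0 : ℝ) < n := by linarith
  have hn3 : 1 ≤ n := by exact_mod_cast hn0
  set θ := t / n with hθ
  have hθ0 : 0 < θ := by positivity
  have hθn : θ * n = t := by rw [hθ]; field_simp
  have ha1 : lam ^ 2 * θ ≤ a₀ := by
    rw [hθ, ← mul_div_assoc, div_le_iff₀ hn0]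
    rw [div_le_iff₀ ha₀] at hn1
    linarith
  have ha2 : a₀ / 2 ≤ lam ^ 2 * θ := by
    rw [hθ, ← mul_div_assoc, le_div_iff₀ hn0]
    have h3 : (n : ℝ) ≤ 2 * (lam ^ 2 * t / a₀) := by linarith
    calc a₀ / 2 * n ≤ a₀ / 2 * (2 * (lam ^ 2 * t / a₀)) := by gcongr
      _ = lam ^ 2 * t := by field_simp
  have hB1 : s ≤ h₁ / lam := by rw [le_div_iff₀ hlam]; exact hh₁s
  have hB2 : h₁ / lam ≤ 1 := by
    rw [div_le_one hlam]
    exact min_le_right _ _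
  have hmain := integral_log_Z_le M hlam hh₁0 hθ0 h0 (by linarith) (by linarith) hζ1.le hD0 n
    (hfrac (lam ^ 2 * θ) (h₁ / lam) ha2 ha1 hB1 hB2 n hn3)
  rw [hθn] at hmain
  have hh0 : 0 ≤ h := le_trans (by positivity) hh
  exact (integral_mono_ae (integrable_log_Z M hlam hh0 ht0.le)
    (integrable_log_Z M hlam hh₁0 ht0.le)
    (log_Z_anti M hlam hh₁0 (min_le_left _ _) ht0.le)).trans hmain

end Pool.Agent.Lib.MP_3d9a2b_pr
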