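import Pool.Agent.Lib.MP_3d9a2b_pr.U.Defs
import Pool.Agent.Lib.MP_3d9a2b_pr.Regen

set_option autoImplicit false

namespace Pool.Agent.Lib.MP_3d9a2b_pr

open MeasureTheory ProbabilityTheory Filter Topology
open scoped NNReal ENNReal

/-- the normalising constant of the beta law -/
lemma ub_const (α : ℝ) (h0 : 0 < α) (_h1 : α < 1) : 1 / beta α (1 - α) ≤ α := by
  have e1 : beta α (1 - α) = Real.pi / Real.sin (Real.pi * α) := by
    rw [beta]
    have e2 : α + (1 - α) = 1 := by ring
    rw [e2, Real.Gamma_one, div_one, Real.Gamma_mul_Gamma_one_sub]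
  rw [e1, one_div_div, div_le_iff₀ Real.pi_pos]
  have h2 := Real.sin_le (x := Real.pi * α) (by positivity)
  linarith [mul_comm Real.pi α]

/-- upper bound for the beta measure of an interval -/
lemma ub_beta (α : ℝ) (h0 : 0 < α) (h1 : α < 1) {a b : ℝ} (ha : 0 < a) (hab : a < b) (hb : b < 1) :
    (betaMeasure α (1 - α)).real (Set.Ioc a b) ≤
      α * a ^ (α - 1) * (1 - b) ^ (-α) * (b - a) := by
  have hB : 0 < beta α (1 - α) := beta_pos h0 (by linarith)
  have hprob : IsProbabilityMeasure (betaMeasure α (1 - α)) :=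
    isProbabilityMeasureBeta h0 (by linarith)
  have hb1 : 0 < 1 - b := by linarith
  set c : ℝ := α * a ^ (α - 1) * (1 - b) ^ (-α) with hc
  have hc0 : 0 ≤ c := by positivity
  have key : betaMeasure α (1 - α) (Set.Ioc a b) ≤ ENNReal.ofReal c * volume (Set.Ioc a b) := by
    calc betaMeasure α (1 - α) (Set.Ioc a b)
        = ∫⁻ x in Set.Ioc a b, betaPDF α (1 - α) x := by
          rw [betaMeasure, withDensity_apply _ measurableSet_Ioc]
      _ ≤ ∫⁻ _ in Set.Ioc a b, ENNReal.ofReal c := by
          refine setLIntegral_mono' measurableSet_Ioc fun x hx => ?_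
          have hx0 : 0 < x := ha.trans hx.1
          have hx1 : x < 1 := hx.2.trans_lt hb
          rw [betaPDF_of_pos_lt_one hx0 hx1]
          refine ENNReal.ofReal_le_ofReal ?_
          have e1 : x ^ (α - 1) ≤ a ^ (α - 1) :=
            Real.rpow_le_rpow_of_nonpos ha hx.1.le (by linarith)
          have e2 : (1 - x) ^ (1 - α - 1) ≤ (1 - b) ^ (-α) := by
            have e3 : 1 - α - 1 = -α := by ring
            rw [e3]
            exact Real.rpow_le_rpow_of_nonpos hb1 (by linarith [hx.2]) (by linarith)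
          have e3 : 0 ≤ (1 - x) ^ (1 - α - 1) := Real.rpow_nonneg (by linarith) _
          have e4 : 0 ≤ a ^ (α - 1) := Real.rpow_nonneg ha.le _
          refine mul_le_mul ?_ e2 e3 (by positivity)
          exact mul_le_mul (ub_const α h0 h1) e1 (Real.rpow_nonneg hx0.le _) h0.le
      _ = ENNReal.ofReal c * volume (Set.Ioc a b) := by rw [setLIntegral_const]
  rw [Real.volume_Ioc, ← ENNReal.ofReal_mul hc0] at key
  have h2 := ENNReal.toReal_mono ENNReal.ofReal_ne_top key
  rwa [ENNReal.toReal_ofReal (mul_nonneg hc0 (by linarith))] at h2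

/-- upper bound for the beta measure near one -/
lemma ub_beta_one (α : ℝ) (h0 : 0 < α) (h1 : α ≤ 1 / 2) :
    (betaMeasure α (1 - α)).real (Set.Ici (8 / 17)) ≤ 3 * α := by
  have hB : 0 < beta α (1 - α) := beta_pos h0 (by linarith)
  have hprob : IsProbabilityMeasure (betaMeasure α (1 - α)) :=
    isProbabilityMeasureBeta h0 (by linarith)
  set c : ℝ := α * (8 / 17 : ℝ) ^ (α - 1) with hc
  have hc0 : 0 ≤ c := by positivity
  have hint : IntervalIntegrable (fun x : ℝ => (1 - x) ^ (-α)) volume (8 / 17) 1 := by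
    have h2 : IntervalIntegrable (fun x : ℝ => x ^ (-α)) volume 0 (9 / 17) :=
      intervalIntegral.intervalIntegrable_rpow' (by linarith)
    have h3 := (h2.comp_sub_left 1).symm
    norm_num at h3
    exact h3
  have hval : ∫ x in (8 / 17 : ℝ)..1, (1 - x) ^ (-α) = (9 / 17 : ℝ) ^ (1 - α) / (1 - α) := by
    rw [intervalIntegral.integral_comp_sub_left (fun x : ℝ => x ^ (-α)) 1]
    rw [integral_rpow (Or.inl (by linarith))]
    have e1 : -α + 1 = 1 - α := by ring
    rw [e1, sub_self, Real.zero_rpow (by linarith)]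
    norm_num
  have key : betaMeasure α (1 - α) (Set.Ici (8 / 17)) ≤
      ENNReal.ofReal c * ∫⁻ x in Set.Ioc (8 / 17 : ℝ) 1, ENNReal.ofReal ((1 - x) ^ (-α)) := by
    calc betaMeasure α (1 - α) (Set.Ici (8 / 17))
        = ∫⁻ x in Set.Ici (8 / 17 : ℝ), betaPDF α (1 - α) x := by
          rw [betaMeasure, withDensity_apply _ measurableSet_Ici]
      _ = ∫⁻ x in Set.Ioi (8 / 17 : ℝ), betaPDF α (1 - α) x := by
          rw [Measure.restrict_congr_set Ioi_ae_eq_Ici]
      _ ≤ ∫⁻ x in Set.Ioc (8 / 17 : ℝ) 1, ENNReal.ofReal c * ENNReal.ofReal ((1 - x) ^ (-α)) := by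
          rw [← lintegral_indicator measurableSet_Ioi, ← lintegral_indicator measurableSet_Ioc]
          refine lintegral_mono fun x => ?_
          by_cases hx : x ∈ Set.Ioi (8 / 17 : ℝ)
          · rw [Set.indicator_of_mem hx]
            have hx' : (8 / 17 : ℝ) < x := hx
            rcases lt_or_ge x 1 with hx1 | hx1
            · rw [Set.indicator_of_mem (show x ∈ Set.Ioc (8 / 17 : ℝ) 1 from ⟨hx', hx1.le⟩)]
              have hx0 : 0 < x := by linarith
              rw [betaPDF_of_pos_lt_one hx0 hx1, ← ENNReal.ofReal_mul hc0]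
              refine ENNReal.ofReal_le_ofReal ?_
              have e1 : x ^ (α - 1) ≤ (8 / 17 : ℝ) ^ (α - 1) :=
                Real.rpow_le_rpow_of_nonpos (by norm_num) hx'.le (by linarith)
              have e2 : 1 - α - 1 = -α := by ring
              rw [e2]
              refine mul_le_mul_of_nonneg_right ?_ (Real.rpow_nonneg (by linarith) _)
              exact mul_le_mul (ub_const α h0 (by linarith)) e1 (Real.rpow_nonneg hx0.le _) h0.le
            · rw [betaPDF_eq_zero_of_one_le hx1]
              simp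
          · rw [Set.indicator_of_notMem hx]
            simp
      _ = _ := by rw [lintegral_const_mul' _ _ ENNReal.ofReal_ne_top]
  have h3 : ∫⁻ x in Set.Ioc (8 / 17 : ℝ) 1, ENNReal.ofReal ((1 - x) ^ (-α)) =
      ENNReal.ofReal ((9 / 17 : ℝ) ^ (1 - α) / (1 - α)) := by
    rw [← hval, intervalIntegral.integral_of_le (by norm_num),
      ofReal_integral_eq_lintegral_ofReal]
    · exact (intervalIntegrable_iff_integrableOn_Ioc_of_le (by norm_num)).1 hint
    · refine (ae_restrict_iff' measurableSet_Ioc).2 (ae_of_all _ fun x hx => ?_)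
      exact Real.rpow_nonneg (by linarith [hx.2]) _
  rw [h3, ← ENNReal.ofReal_mul hc0] at key
  have h4 := ENNReal.toReal_mono ENNReal.ofReal_ne_top key
  have h1' : 0 < 1 - α := by linarith
  rw [ENNReal.toReal_ofReal (by positivity)] at h4
  refine h4.trans ?_
  have e5 : (8 / 17 : ℝ) ^ (α - 1) * (9 / 17 : ℝ) ^ (1 - α) = (9 / 8 : ℝ) ^ (1 - α) := by
    have e6 : α - 1 = -(1 - α) := by ring
    rw [e6, Real.rpow_neg (by norm_num), ← Real.inv_rpow (by norm_num),
      ← Real.mul_rpow (by norm_num) (by norm_num)]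
    norm_num
  have e7 : (9 / 8 : ℝ) ^ (1 - α) ≤ 9 / 8 := by
    calc (9 / 8 : ℝ) ^ (1 - α) ≤ (9 / 8 : ℝ) ^ (1 : ℝ) :=
          Real.rpow_le_rpow_of_exponent_le (by norm_num) (by linarith)
      _ = 9 / 8 := Real.rpow_one _
  calc c * ((9 / 17 : ℝ) ^ (1 - α) / (1 - α))
      = α * ((8 / 17 : ℝ) ^ (α - 1) * (9 / 17 : ℝ) ^ (1 - α)) / (1 - α) := by rw [hc]; ring
    _ = α * (9 / 8 : ℝ) ^ (1 - α) / (1 - α) := by rw [e5]
    _ ≤ 3 * α := by
        rw [div_le_iff₀ h1']
        nlinarith

section
variable {α : ℝ} {Ω' : Type} [MeasurableSpace Ω'] {P' : Measure Ω'} [IsProbabilityMeasure P']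
  {R : Ω' → Set ℝ}

lemma ub_law (h0 : 0 < α) (h1 : α < 1) (hR : IsStableRegenerative α R P') {s u v : ℝ}
    (hs : 0 < s) (hsu : s < u) (huv : u < v) :
    P'.real {ω | nextPt (R ω) s ∈ Set.Ico u v} ≤ α * (v - u) * s ^ α * u⁻¹ * (u - s) ^ (-α) := by
  have hu : 0 < u := hs.trans hsu
  have hv : 0 < v := hu.trans huv
  have e1 := ub_beta α h0 h1 (a := s / v) (b := s / u) (by positivity)
    (div_lt_div_of_pos_left hs hu huv) ((div_lt_one hu).2 hsu)
  have hm : Measurable fun ω => s / nextPt (R ω) s := measurable_const.div (hR.measurable_nextPt s)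
  rw [← hR.law s hs, measureReal_def, Measure.map_apply hm measurableSet_Ioc, ← measureReal_def] at e1
  refine le_trans (measureReal_mono ?_ (measure_ne_top _ _)) (e1.trans ?_)
  · intro ω hω
    simp only [Set.mem_preimage, Set.mem_Ioc, Set.mem_ofPred_eq, Set.mem_Ico] at hω ⊢
    have h6 : 0 < nextPt (R ω) s := hu.trans_le hω.1
    exact ⟨div_lt_div_of_pos_left hs h6 hω.2, div_le_div_of_nonneg_left hs.le hu hω.1⟩
  · have e2 : (1 - s / u) ^ (-α) = u ^ α * (u - s) ^ (-α) := by
      have e3 : 1 - s / u = (u - s) / u := by field_simp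
      rw [e3, Real.div_rpow (by linarith) hu.le, Real.rpow_neg hu.le, div_inv_eq_mul, mul_comm]
    have e4 : (s / v) ^ (α - 1) * (s / u - s / v) = s ^ α * v ^ (-α) * ((v - u) * u⁻¹) := by
      have e5 : s / u - s / v = (s / v) * ((v - u) * u⁻¹) := by field_simp
      rw [e5, ← mul_assoc]
      congr 1
      rw [← Real.rpow_add_one (by positivity), sub_add_cancel, Real.div_rpow hs.le hv.le,
        Real.rpow_neg hv.le, div_eq_mul_inv]
    have e6 : v ^ (-α) * u ^ α ≤ 1 := by
      rw [Real.rpow_neg hv.le, inv_mul_le_iff₀ (Real.rpow_pos_of_pos hv _), mul_one]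
      exact Real.rpow_le_rpow hu.le huv.le h0.le
    have e7 : 0 ≤ (u - s) ^ (-α) := Real.rpow_nonneg (by linarith) _
    have e8 : 0 ≤ s ^ α := Real.rpow_nonneg hs.le _
    have e9 : 0 ≤ (v - u) * u⁻¹ := mul_nonneg (by linarith) (by positivity)
    calc α * (s / v) ^ (α - 1) * (1 - s / u) ^ (-α) * (s / u - s / v)
        = α * ((s / v) ^ (α - 1) * (s / u - s / v)) * (1 - s / u) ^ (-α) := by ring
      _ = (α * s ^ α * ((v - u) * u⁻¹) * (u - s) ^ (-α)) * (v ^ (-α) * u ^ α) := by
          rw [e4, e2]; ring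
      _ ≤ (α * s ^ α * ((v - u) * u⁻¹) * (u - s) ^ (-α)) * 1 :=
          mul_le_mul_of_nonneg_left e6 (by positivity)
      _ = α * (v - u) * s ^ α * u⁻¹ * (u - s) ^ (-α) := by ring

lemma ub_num (h0 : 0 < α) (h1 : α ≤ 1 / 2) {θ l s u w : ℝ} (hθ : 0 < θ) (hl : 1 ≤ l) (hs : 0 < s)
    (hs2 : s ≤ 2 * θ) (hu : θ * l ≤ u) (hus : 7 / 8 * (θ * l) ≤ u - s)
    (hw : w ≤ 9 / 8 * θ) :
    α * w * s ^ α * u⁻¹ * (u - s) ^ (-α) ≤ 5 / 4 * α * 2 ^ α * l ^ (-(1 + α)) := by
  have hθl : 0 < θ * l := by positivity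
  have a1 : s ^ α ≤ 2 ^ α * θ ^ α := by
    rw [← Real.mul_rpow (by norm_num) hθ.le]
    exact Real.rpow_le_rpow hs.le hs2 h0.le
  have a2 : u⁻¹ ≤ (θ * l)⁻¹ := inv_anti₀ hθl hu
  have a3 : (u - s) ^ (-α) ≤ (7 / 8 * (θ * l)) ^ (-α) :=
    Real.rpow_le_rpow_of_nonpos (by positivity) hus (by linarith)
  have a4 : (7 / 8 * (θ * l)) ^ (-α) = (8 / 7) ^ α * (θ ^ (-α) * l ^ (-α)) := by
    rw [Real.mul_rpow (by norm_num) hθl.le, Real.mul_rpow hθ.le (by linarith),
      Real.rpow_neg (by norm_num), ← Real.inv_rpow (by norm_num)]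
    norm_num
  have a5 : (8 / 7 : ℝ) ^ α ≤ 10 / 9 := by
    calc (8 / 7 : ℝ) ^ α ≤ (8 / 7 : ℝ) ^ (1 / 2 : ℝ) :=
          Real.rpow_le_rpow_of_exponent_le (by norm_num) h1
      _ = Real.sqrt (8 / 7) := (Real.sqrt_eq_rpow _).symm
      _ ≤ 10 / 9 := by
          rw [Real.sqrt_le_left (by norm_num)]
          norm_num
  have hu0 : 0 < u := hθl.trans_le hu
  have p1 : 0 ≤ s ^ α := Real.rpow_nonneg hs.le _
  have p2 : 0 ≤ (u - s) ^ (-α) := Real.rpow_nonneg (by linarith) _
  have p3 : 0 < θ ^ α := Real.rpow_pos_of_pos hθ _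
  have p4 : 0 < l ^ (-α) := Real.rpow_pos_of_pos (by linarith) _
  have p5 : 0 < θ ^ (-α) := Real.rpow_pos_of_pos hθ _
  have p6 : (0 : ℝ) < 2 ^ α := Real.rpow_pos_of_pos (by norm_num) _
  have p7 : θ ^ α * θ ^ (-α) = 1 := by
    rw [← Real.rpow_add hθ]; simp
  have p8 : l ^ (-(1 + α)) = l⁻¹ * l ^ (-α) := by
    have : -(1 + α) = -1 + -α := by ring
    rw [this, Real.rpow_add (by linarith), Real.rpow_neg_one]
  calc α * w * s ^ α * u⁻¹ * (u - s) ^ (-α)
      ≤ α * (9 / 8 * θ) * (2 ^ α * θ ^ α) * (θ * l)⁻¹ * ((8 / 7) ^ α * (θ ^ (-α) * l ^ (-α))) := by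
        rw [a4] at a3
        gcongr
    _ = α * (9 / 8) * 2 ^ α * (8 / 7) ^ α * (θ ^ α * θ ^ (-α)) * (l⁻¹ * l ^ (-α)) := by
        field_simp
    _ = α * (9 / 8) * 2 ^ α * (8 / 7) ^ α * (l⁻¹ * l ^ (-α)) := by rw [p7, mul_one]
    _ ≤ α * (9 / 8) * 2 ^ α * (10 / 9) * (l⁻¹ * l ^ (-α)) := by gcongr
    _ = 5 / 4 * α * 2 ^ α * l ^ (-(1 + α)) := by rw [p8]; ring

lemma ub_near (h0 : 0 < α) (h1 : α ≤ 1 / 2) (hR : IsStableRegenerative α R P') {s v : ℝ}
    (hs : 0 < s) (hv : 8 * v ≤ 17 * s) :
    P'.real {ω | nextPt (R ω) s ∈ Set.Ioo 0 v} ≤ 3 * α := by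
  have hm : Measurable fun ω => s / nextPt (R ω) s := measurable_const.div (hR.measurable_nextPt s)
  have e1 := ub_beta_one α h0 h1
  rw [← hR.law s hs, measureReal_def, Measure.map_apply hm measurableSet_Ici, ← measureReal_def] at e1
  refine le_trans (measureReal_mono ?_ (measure_ne_top _ _)) e1
  intro ω hω
  simp only [Set.mem_preimage, Set.mem_Ici, Set.mem_ofPred_eq, Set.mem_Ioo] at hω ⊢
  rw [div_le_div_iff₀ (by norm_num) hω.1]
  linarith [hω.2]

lemma ub_self_le {S : Set ℝ} (hu : ∀ t : ℝ, ∃ r ∈ S, t < r) (t : ℝ) : t ≤ nextPt S t := by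
  obtain ⟨r, hr, htr⟩ := hu t
  exact le_csInf ⟨r, hr, htr⟩ fun r hr => hr.2.le

lemma ub_mono {S : Set ℝ} (hu : ∀ t : ℝ, ∃ r ∈ S, t < r) {s t : ℝ} (h : s ≤ t) :
    nextPt S s ≤ nextPt S t := by
  obtain ⟨r, hr, htr⟩ := hu t
  exact csInf_le_csInf ⟨s, fun r hr => hr.2.le⟩ ⟨r, hr, htr⟩ fun r hr => ⟨hr.1, h.trans_lt hr.2⟩

end

theorem regen_upper (α : ℝ) (h0 : 0 < α) (h1 : α ≤ 1 / 2)
    {Ω' : Type} [MeasurableSpace Ω'] (P' : Measure Ω') [IsProbabilityMeasure P']
    (R : Ω' → Set ℝ) (hR : IsStableRegenerative α R P') (θ : ℝ) (hθ : 0 < θ) (p : ℕ → ℕ) (k : ℕ)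
    (hp0 : p 0 = 0) (hp : ∀ i < k, p i + 2 ≤ p (i + 1)) :
    P'.real {ω | ∀ i < k, nextPt (R ω) (θ * (p i + 2)) ∈
      Set.Ico (θ * p (i + 1)) (θ * (p (i + 1) + 1))} ≤
    ∏ i ∈ Finset.range k, qq α (p (i + 1) - p i) := by
  have h1' : α < 1 := by linarith
  have hqq : ∀ m, 0 ≤ qq α m := by
    intro m
    rw [qq]
    split_ifs <;> positivity
  induction k with
  | zero =>
    simp
  | succ k ih =>
    have ih' := ih fun i hi => hp i (by omega)
    rw [Finset.prod_range_succ]
    have hpk := hp k (by omega)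
    set m : ℕ := p (k + 1) - p k with hm
    have hm2 : 2 ≤ m := by omega
    have hpl : (p (k + 1) : ℝ) = p k + m := by
      have : p (k + 1) = p k + m := by omega
      rw [this]; push_cast; ring
    rcases Nat.eq_zero_or_pos k with rfl | hk
    · -- first step
      simp only [Finset.range_zero, Finset.prod_empty, one_mul]
      have hsub : {ω | ∀ i < 0 + 1, nextPt (R ω) (θ * (p i + 2)) ∈
          Set.Ico (θ * p (i + 1)) (θ * (p (i + 1) + 1))} ⊆
          {ω | nextPt (R ω) (2 * θ) ∈ Set.Ico (θ * m) (θ * (m + 1))} := by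
        intro ω hω
        have h2 := hω 0 (by omega)
        rw [hpl, hp0] at h2
        push_cast at h2
        simp only [zero_add] at h2
        have e : θ * 2 = 2 * θ := by ring
        rw [e] at h2
        exact h2
      refine (measureReal_mono hsub (measure_ne_top _ _)).trans ?_
      rcases Nat.lt_or_ge 2 m with hm3 | hm3
      · have hm3' : (3 : ℝ) ≤ m := by exact_mod_cast hm3
        have hcast : ((m - 2 : ℕ) : ℝ) = m - 2 := by
          rw [Nat.cast_sub hm2]; norm_num
        rw [qq, if_neg (by omega), hcast]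
        refine (ub_law h0 h1' hR (by positivity) ?_ ?_).trans
          (ub_num h0 h1 hθ (by linarith) (by positivity) le_rfl ?_ ?_ ?_)
        all_goals nlinarith
      · have hm' : m = 2 := by omega
        rw [qq, if_pos hm3]
        have hs2 : {ω | nextPt (R ω) (2 * θ) ∈ Set.Ico (θ * m) (θ * (m + 1))} ⊆
            {ω | nextPt (R ω) (2 * θ) ∈ Set.Ioo 0 (3 * θ)} := by
          intro ω hω
          simp only [Set.mem_ofPred_eq, Set.mem_Ico, Set.mem_Ioo, hm'] at hω ⊢
          push_cast at hω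
          constructor
          · nlinarith [hω.1]
          · nlinarith [hω.2]
        refine (measureReal_mono hs2 (measure_ne_top _ _)).trans
          (ub_near h0 h1 hR (by positivity) (by linarith))
    · -- induction step
      obtain ⟨q, rfl⟩ : ∃ q, k = q + 1 := ⟨k - 1, by omega⟩
      set t : ℝ := θ * (p q + 2) with ht
      have ht0 : 0 ≤ t := by positivity
      have hmono : ∀ i ≤ q, p i ≤ p q := by
        intro i hi
        have : ∀ j, i + j ≤ q → p i ≤ p (i + j) := by
          intro j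
          induction j with
          | zero => intro _; exact le_refl _
          | succ j ihj =>
            intro hj
            have h3 := hp (i + j) (by omega)
            have h4 := ihj (by omega)
            rw [← add_assoc]; omega
        have h5 := this (q - i) (by omega)
        rwa [Nat.add_sub_cancel' hi] at h5
      have hti : ∀ i < q + 1, θ * (p i + 2) ∈ Set.Icc (0 : ℝ) t := by
        intro i hi
        have h3 : (p i : ℝ) ≤ p q := by exact_mod_cast hmono i (by omega)
        exact ⟨by positivity, by rw [ht]; nlinarith⟩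
      set c : ℝ := (p (q + 1) : ℝ) with hc
      set A0 : Set (Set.Icc (0 : ℝ) t → ℝ) := {φ | ∀ i : Fin (q + 1),
        φ ⟨θ * (p i + 2), hti i i.2⟩ ∈ Set.Ico (θ * p (i + 1)) (θ * (p (i + 1) + 1))} with hA0
      set A1 : ℕ → Set (Set.Icc (0 : ℝ) t → ℝ) := fun j => {φ | φ ⟨t, ht0, le_refl t⟩ ∈
        Set.Ico (θ * (c + j / 8)) (θ * (c + (j + 1) / 8))} with hA1
      have hA0m : MeasurableSet A0 := by
        have : A0 = ⋂ i : Fin (q + 1), {φ | φ ⟨θ * (p i + 2), hti i i.2⟩ ∈
            Set.Ico (θ * p (i + 1)) (θ * (p (i + 1) + 1))} := by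
          ext φ; simp [hA0]
        rw [this]
        exact MeasurableSet.iInter fun i => (measurable_pi_apply _) measurableSet_Ico
      have hA1m : ∀ j, MeasurableSet (A1 j) := fun j => (measurable_pi_apply _) measurableSet_Ico
      set E : Set Ω' := {ω | ∀ i < q + 1, nextPt (R ω) (θ * (p i + 2)) ∈
            Set.Ico (θ * p (i + 1)) (θ * (p (i + 1) + 1))} with hE
      set E' : Set Ω' := {ω | ∀ i < q + 1 + 1, nextPt (R ω) (θ * (p i + 2)) ∈
            Set.Ico (θ * p (i + 1)) (θ * (p (i + 1) + 1))} with hE'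
      set F : ℕ → Set Ω' := fun j => {ω | nextPt (R ω) t ∈
        Set.Ico (θ * (c + j / 8)) (θ * (c + (j + 1) / 8))} with hF
      have hFm : ∀ j, MeasurableSet (F j) := fun j => (hR.measurable_nextPt t) measurableSet_Ico
      have hEA : E = {ω | (fun r : Set.Icc (0 : ℝ) t => nextPt (R ω) r) ∈ A0} := by
        ext ω
        simp only [hE, hA0, Set.mem_ofPred_eq]
        exact ⟨fun h i => h i i.2, fun h i hi => h ⟨i, hi⟩⟩
      have hEm : MeasurableSet E := by
        have : E = ⋂ i : Fin (q + 1), {ω | nextPt (R ω) (θ * (p i + 2)) ∈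
            Set.Ico (θ * p (i + 1)) (θ * (p (i + 1) + 1))} := by
          ext ω
          simp only [hE, Set.mem_ofPred_eq, Set.mem_iInter]
          exact ⟨fun h i => h i i.2, fun h i hi => h ⟨i, hi⟩⟩
        rw [this]
        exact MeasurableSet.iInter fun i => (hR.measurable_nextPt _) measurableSet_Ico
      have hEF : ∀ j, E ∩ F j = {ω | (fun r : Set.Icc (0 : ℝ) t => nextPt (R ω) r) ∈ A0 ∩ A1 j} := by
        intro j
        rw [hEA]; rfl
      have hdisj : Set.PairwiseDisjoint (↑(Finset.range 8) : Set ℕ) (fun j => E ∩ F j) := by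
        intro i _ j _ hij
        refine Set.disjoint_left.2 fun ω h2 h3 => ?_
        have h2' := h2.2
        have h3' := h3.2
        simp only [hF, Set.mem_ofPred_eq, Set.mem_Ico] at h2' h3'
        rcases Nat.lt_or_gt_of_ne hij with hlt | hlt
        · have h4 : (i : ℝ) + 1 ≤ j := by exact_mod_cast hlt
          nlinarith
        · have h4 : (j : ℝ) + 1 ≤ i := by exact_mod_cast hlt
          nlinarith
      have hcov : E' ⊆ ⋃ j ∈ Finset.range 8, (E' ∩ F j) := by
        intro ω hω
        have h2 := hω q (by omega)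
        rw [← ht, ← hc, Set.mem_Ico] at h2
        set z : ℝ := 8 * (nextPt (R ω) t / θ - c) with hz
        have hz0 : 0 ≤ z := by
          have : c ≤ nextPt (R ω) t / θ := by
            rw [le_div_iff₀ hθ]; linarith [h2.1, mul_comm θ c]
          linarith
        have hz8 : z < 8 := by
          have : nextPt (R ω) t / θ < c + 1 := by
            rw [div_lt_iff₀ hθ]; linarith [h2.2, mul_comm θ (c + 1)]
          linarith
        have hfl := Nat.floor_le hz0
        have hfl2 := Nat.lt_floor_add_one z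
        have hzt : nextPt (R ω) t = θ * (c + z / 8) := by
          rw [hz]; field_simp; ring
        simp only [Set.mem_iUnion]
        refine ⟨⌊z⌋₊, ?_, hω, ?_⟩
        · rw [Finset.mem_range, Nat.floor_lt hz0]
          exact_mod_cast hz8
        · simp only [hF, Set.mem_ofPred_eq, Set.mem_Ico]
          rw [hzt]
          constructor
          · exact mul_le_mul_of_nonneg_left (by linarith) hθ.le
          · exact mul_lt_mul_of_pos_left (by linarith) hθ
      have key : ∀ j ∈ Finset.range 8, P'.real (E' ∩ F j) ≤ P'.real (E ∩ F j) * qq α m := by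
        intro j hj
        have hj8 : j < 8 := Finset.mem_range.1 hj
        have hj8' : (j : ℝ) + 1 ≤ 8 := by exact_mod_cast hj8
        have hj0 : (0 : ℝ) ≤ j := Nat.cast_nonneg j
        rcases Nat.lt_or_ge 2 m with hm3 | hm3
        · have hm3' : (3 : ℝ) ≤ m := by exact_mod_cast hm3
          have hcast : ((m - 2 : ℕ) : ℝ) = m - 2 := by
            rw [Nat.cast_sub hm2]; norm_num
          set s : ℝ := θ * (2 - j / 8) with hs
          have hs0 : 0 < s := by rw [hs]; exact mul_pos hθ (by linarith)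
          set u : ℝ := θ * (m - (j + 1) / 8) with hu
          set v : ℝ := u + 9 / 8 * θ with hv
          have hsub : E' ∩ F j ⊆ (E ∩ F j) ∩ {ω | nextPt (R ω) (nextPt (R ω) t + s) -
              nextPt (R ω) t ∈ Set.Ioo u v} := by
            rintro ω ⟨h3, h4⟩
            have h5 := h3 (q + 1) (by omega)
            rw [hpl, ← hc, Set.mem_Ico] at h5
            refine ⟨⟨fun i hi => h3 i (by omega), h4⟩, ?_⟩
            simp only [hF, Set.mem_ofPred_eq, Set.mem_Ico, Set.mem_Ioo] at h4 ⊢
            obtain ⟨h6, h7⟩ := h4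
            have f1 : θ * (c + 2) ≤ nextPt (R ω) t + s := by
              rw [hs]; nlinarith
            have f2 : nextPt (R ω) t + s < θ * (c + m) := by
              rw [hs]; nlinarith
            have e1 : nextPt (R ω) (nextPt (R ω) t + s) = nextPt (R ω) (θ * (c + 2)) :=
              G_next (hR.isClosed ω) (hR.unbounded ω) f1 (f2.trans_le h5.1)
            rw [e1]
            constructor
            · rw [hu]; nlinarith [h5.1]
            · rw [hv, hu]; nlinarith [h5.2]
          have i1 := G_indep hR ht0 (A0 ∩ A1 j) (hA0m.inter (hA1m j)) hs0.le u v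
          rw [← hEF j] at i1
          refine (measureReal_mono hsub (measure_ne_top _ _)).trans ?_
          rw [i1]
          refine mul_le_mul_of_nonneg_left ?_ measureReal_nonneg
          rw [qq, if_neg (by omega), hcast]
          have f3 : 7 / 8 * (θ * (m - 2)) ≤ u - s := by
            rw [hu, hs]; nlinarith
          have f4 : θ * ((m : ℝ) - 2) ≤ u := by
            rw [hu]; nlinarith
          have f5 : s < u := by nlinarith
          have f6 : u < v := by rw [hv]; linarith
          have f7 : {ω | nextPt (R ω) s ∈ Set.Ioo u v} ⊆ {ω | nextPt (R ω) s ∈ Set.Ico u v} :=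
            fun ω hω => Set.Ioo_subset_Ico_self hω
          refine (measureReal_mono f7 (measure_ne_top _ _)).trans
            ((ub_law h0 h1' hR hs0 f5 f6).trans
            (ub_num h0 h1 hθ (by linarith) hs0 ?_ f4 f3 ?_))
          · rw [hs]; nlinarith
          · rw [hv]; linarith
        · have hm' : m = 2 := by omega
          set s : ℝ := θ * (2 - (j + 1) / 8) with hs
          have hs0 : 0 < s := by rw [hs]; exact mul_pos hθ (by linarith)
          set v : ℝ := s + 9 / 8 * θ with hv
          have hsub : E' ∩ F j ⊆ (E ∩ F j) ∩ {ω | nextPt (R ω) (nextPt (R ω) t + s) -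
              nextPt (R ω) t ∈ Set.Ioo 0 v} := by
            rintro ω ⟨h3, h4⟩
            have h5 := h3 (q + 1) (by omega)
            rw [hpl, ← hc, Set.mem_Ico, hm'] at h5
            push_cast at h5
            refine ⟨⟨fun i hi => h3 i (by omega), h4⟩, ?_⟩
            simp only [hF, Set.mem_ofPred_eq, Set.mem_Ico, Set.mem_Ioo] at h4 ⊢
            obtain ⟨h6, h7⟩ := h4
            have f1 : nextPt (R ω) t + s ≤ θ * (c + 2) := by
              rw [hs]; nlinarith
            have f2 := ub_mono (hR.unbounded ω) f1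
            have f3 := ub_self_le (hR.unbounded ω) (nextPt (R ω) t + s)
            constructor
            · linarith
            · rw [hv, hs]; nlinarith [h5.2]
          have i1 := G_indep hR ht0 (A0 ∩ A1 j) (hA0m.inter (hA1m j)) hs0.le 0 v
          rw [← hEF j] at i1
          refine (measureReal_mono hsub (measure_ne_top _ _)).trans ?_
          rw [i1]
          refine mul_le_mul_of_nonneg_left ?_ measureReal_nonneg
          rw [qq, if_pos hm3]
          refine ub_near h0 h1 hR hs0 ?_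
          rw [hv, hs]; nlinarith
      calc P'.real E' ≤ P'.real (⋃ j ∈ Finset.range 8, (E' ∩ F j)) :=
            measureReal_mono hcov (measure_ne_top _ _)
        _ ≤ ∑ j ∈ Finset.range 8, P'.real (E' ∩ F j) := measureReal_biUnion_finset_le _ _
        _ ≤ ∑ j ∈ Finset.range 8, P'.real (E ∩ F j) * qq α m := Finset.sum_le_sum key
        _ = P'.real (⋃ j ∈ Finset.range 8, (E ∩ F j)) * qq α m := by
            rw [← Finset.sum_mul, measureReal_biUnion_finset hdisj fun j _ => hEm.inter (hFm j)]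
        _ ≤ P'.real E * qq α m := by
            refine mul_le_mul_of_nonneg_right (measureReal_mono ?_ (measure_ne_top _ _)) (hqq m)
            exact Set.iUnion₂_subset fun j _ => Set.inter_subset_left
        _ ≤ _ := mul_le_mul_of_nonneg_right ih' (hqq m)

end Pool.Agent.Lib.MP_3d9a2b_pr
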