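import Pool.Agent.Lib.MP_3d9a2b_pr.U.Core
import Pool.Agent.Lib.MP_3d9a2b_pr.U.RegenUp

set_option autoImplicit false

namespace Pool.Agent.Lib.MP_3d9a2b_pr

open MeasureTheory ProbabilityTheory Filter Topology
open scoped NNReal ENNReal

section UC2
variable {α : ℝ} {Ω Ω' : Type} [MeasurableSpace Ω] [MeasurableSpace Ω'] {P : Measure Ω}
  {P' : Measure Ω'} [IsProbabilityMeasure P] [IsProbabilityMeasure P'] (M : Model α P P')

lemma uc2_psi_pos (a p x : ℝ) : 0 < psi a p x := Real.exp_pos _

lemma uc2_measurable_psi (a x : ℝ) : Measurable (fun p => psi a p x) := by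
  unfold psi; fun_prop

lemma uc2_NN_ge {a x : ℝ} (ha : 0 ≤ a) : 1 ≤ NN a x := by
  unfold NN
  have h1 : 1 ≤ Real.exp (a / 2) := Real.one_le_exp (by linarith)
  have h2 : (1 : ℝ) ≤ max 1 (Real.exp (-2 * x)) := le_max_left _ _
  nlinarith

lemma uc2_integrable {θ : ℝ} (hθ : 0 < θ) {n : ℕ} {a : ℝ} (ha : 0 ≤ a) (x : ℕ → ℝ) :
    Integrable (fun ω' => ∏ j ∈ Finset.range n, psi a (M.pp θ j ω') (x j)) P' := by
  have hm : Measurable (fun ω' => ∏ j ∈ Finset.range n, psi a (M.pp θ j ω') (x j)) :=
    Finset.measurable_prod _ fun j _ => (uc2_measurable_psi a (x j)).comp (measurable_pp M hθ j)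
  refine (integrable_const (∏ j ∈ Finset.range n, NN a (x j))).mono' hm.aestronglyMeasurable
    (ae_of_all _ fun ω' => ?_)
  rw [Real.norm_eq_abs, abs_of_nonneg (Finset.prod_nonneg fun j _ => (uc2_psi_pos _ _ _).le)]
  exact Finset.prod_le_prod (fun j _ => (uc2_psi_pos _ _ _).le)
    fun j _ => psi_le ha (pp_mem M hθ j ω').1 (pp_mem M hθ j ω').2

lemma uc2_le_nextPt {R : Set ℝ} (hu : ∀ t : ℝ, ∃ r ∈ R, t < r) (t : ℝ) : t ≤ nextPt R t := by
  obtain ⟨r, hr, htr⟩ := hu t
  exact le_csInf ⟨r, hr, htr⟩ fun r hr => hr.2.le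

/-- the event that the skeleton starts with `p 0, ..., p k` -/
def uc2E (θ : ℝ) (p : ℕ → ℕ) (k : ℕ) : Set Ω' :=
  {ω | ∀ i < k, nextPt (M.R ω) (θ * (p i + 2)) ∈
    Set.Ico (θ * p (i + 1)) (θ * (p (i + 1) + 1))}

omit [IsProbabilityMeasure P] [IsProbabilityMeasure P'] in
lemma uc2_measurable_E (θ : ℝ) (p : ℕ → ℕ) (k : ℕ) : MeasurableSet (uc2E M θ p k) := by
  have : uc2E M θ p k = ⋂ i : Fin k, {ω | nextPt (M.R ω) (θ * (p i + 2)) ∈
    Set.Ico (θ * p (i + 1)) (θ * (p (i + 1) + 1))} := by
    ext ω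
    simp only [uc2E, Set.mem_ofPred_eq, Set.mem_iInter]
    exact ⟨fun h i => h i i.2, fun h i hi => h ⟨i, hi⟩⟩
  rw [this]
  exact MeasurableSet.iInter fun i => (M.regen.measurable_nextPt _) measurableSet_Ico

lemma uc2_YY (a α : ℝ) (n : ℕ) (x : ℕ → ℝ) : YY a α n x = UU a n x +
    ∑ m ∈ Finset.Ico 2 n, qq α m * UU a m x * YY a α (n - m) (shx m x) := by
  rw [YY]
  congr 1
  simp only [dite_eq_ite]
  rw [Fin.sum_univ_eq_sum_range (fun m => if 2 ≤ m then
    qq α m * UU a m x * YY a α (n - m) (shx m x) else 0) n, ← Finset.sum_filter]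
  congr 1
  ext m
  simp only [Finset.mem_filter, Finset.mem_range, Finset.mem_Ico]
  omega

lemma uc2_shx_shx (m k : ℕ) (x : ℕ → ℝ) : shx m (shx k x) = shx (k + m) x := by
  funext j
  simp only [shx]
  congr 1
  omega

lemma uc2_UU_nonneg {a : ℝ} (ha : 0 ≤ a) (m : ℕ) (x : ℕ → ℝ) : 0 ≤ UU a m x := by
  unfold UU
  have h1 := uc2_NN_ge (x := x 0) ha
  have h2 := uc2_NN_ge (x := x 1) ha
  positivity

lemma uc2_prefix {θ : ℝ} (hθ : 0 < θ) (h0 : 0 < α) (h1 : α ≤ 1 / 2) {n : ℕ} {a : ℝ}
    (ha : 0 ≤ a) (x : ℕ → ℝ) : ∀ (d : ℕ) (p : ℕ → ℕ) (k : ℕ), p 0 = 0 →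
    (∀ i < k, p i + 2 ≤ p (i + 1)) → p k < n → n - p k ≤ d →
    ∫ ω' in uc2E M θ p k, ∏ j ∈ Finset.range n, psi a (M.pp θ j ω') (x j) ∂P' ≤
      (∏ i ∈ Finset.range k, qq α (p (i + 1) - p i) *
        UU a (p (i + 1) - p i) (shx (p i) x)) * YY a α (n - p k) (shx (p k) x) := by
  intro d
  induction d with
  | zero => intro p k _ _ h3 h4; omega
  | succ d ih =>
    intro p k hp0 hp hpn hd
    set g : Ω' → ℝ := fun ω' => ∏ j ∈ Finset.range n, psi a (M.pp θ j ω') (x j) with hg
    have hg0 : ∀ ω', 0 ≤ g ω' := fun ω' => Finset.prod_nonneg fun j _ => (uc2_psi_pos _ _ _).le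
    have hgi : Integrable g P' := uc2_integrable M hθ ha x
    set W : ℝ := ∏ i ∈ Finset.range k, qq α (p (i + 1) - p i) *
        UU a (p (i + 1) - p i) (shx (p i) x) with hW
    set F : Set Ω' := {ω | (∀ i < k, nextPt (M.R ω) (θ * (p i + 2)) ∈
          Set.Ico (θ * p (i + 1)) (θ * (p (i + 1) + 1))) ∧
          θ * n ≤ nextPt (M.R ω) (θ * (p k + 2))} with hF
    have hFm : MeasurableSet F :=
      (uc2_measurable_E M θ p k).inter ((M.regen.measurable_nextPt _) measurableSet_Ici)
    -- the continued prefixes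
    set q : ℕ → ℕ → ℕ := fun m => Function.update p (k + 1) (p k + m) with hq
    have hqi : ∀ m i, i ≤ k → q m i = p i := fun m i hi => by
      simp only [hq]
      rw [Function.update_of_ne (by omega)]
    have hqk : ∀ m, q m (k + 1) = p k + m := fun m => by
      simp only [hq]
      rw [Function.update_self]
    have hEm : ∀ m, MeasurableSet (uc2E M θ (q m) (k + 1)) := fun m =>
      uc2_measurable_E M θ _ _
    -- pointwise decomposition
    have hpt : ∀ ω', (uc2E M θ p k).indicator g ω' ≤ F.indicator g ω' +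
        ∑ m ∈ Finset.Ico 2 (n - p k), (uc2E M θ (q m) (k + 1)).indicator g ω' := by
      intro ω'
      by_cases hE : ω' ∈ uc2E M θ p k
      swap
      · rw [Set.indicator_of_notMem hE]
        exact add_nonneg (Set.indicator_nonneg (fun ω _ => hg0 ω) _)
          (Finset.sum_nonneg fun m _ => Set.indicator_nonneg (fun ω _ => hg0 ω) _)
      rw [Set.indicator_of_mem hE]
      have hsum0 : 0 ≤ ∑ m ∈ Finset.Ico 2 (n - p k),
          (uc2E M θ (q m) (k + 1)).indicator g ω' :=
        Finset.sum_nonneg fun m _ => Set.indicator_nonneg (fun ω _ => hg0 ω) _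
      by_cases hD : θ * n ≤ nextPt (M.R ω') (θ * (p k + 2))
      · have hFω : ω' ∈ F := ⟨hE, hD⟩
        rw [Set.indicator_of_mem hFω]
        linarith
      · push Not at hD
        have hF0 : 0 ≤ F.indicator g ω' := Set.indicator_nonneg (fun ω _ => hg0 ω) _
        set D := nextPt (M.R ω') (θ * (p k + 2)) with hDdef
        have hDge : θ * (p k + 2) ≤ D := uc2_le_nextPt (M.regen.unbounded ω') _
        have hD0 : 0 ≤ D / θ := by
          have : 0 ≤ D := le_trans (by positivity) hDge
          positivity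
        set c := ⌊D / θ⌋₊ with hc
        have hc1 : (c : ℝ) ≤ D / θ := Nat.floor_le hD0
        have hc2 : D / θ < c + 1 := Nat.lt_floor_add_one _
        rw [le_div_iff₀ hθ] at hc1
        rw [div_lt_iff₀ hθ] at hc2
        have hc3 : p k + 2 ≤ c := by
          apply Nat.le_floor
          rw [le_div_iff₀ hθ]
          push_cast
          linarith
        have hc4 : c < n := by
          have : (c : ℝ) < n := by
            have : (c : ℝ) * θ < n * θ := by linarith
            exact lt_of_mul_lt_mul_right this hθ.le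
          exact_mod_cast this
        have hmem : c - p k ∈ Finset.Ico 2 (n - p k) := by
          rw [Finset.mem_Ico]
          omega
        have hωm : ω' ∈ uc2E M θ (q (c - p k)) (k + 1) := by
          intro i hi
          rcases Nat.lt_succ_iff_lt_or_eq.1 hi with hi' | rfl
          · rw [hqi _ i hi'.le, hqi _ (i + 1) hi']
            exact hE i hi'
          · rw [hqi _ i le_rfl, hqk]
            have e : p i + (c - p i) = c := by omega
            rw [e, ← hDdef]
            exact ⟨by linarith, by linarith⟩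
        have h1 := Finset.single_le_sum (f := fun m =>
          (uc2E M θ (q m) (k + 1)).indicator g ω')
          (fun m _ => Set.indicator_nonneg (fun ω _ => hg0 ω) _) hmem
        rw [Set.indicator_of_mem hωm] at h1
        linarith
    -- integrate
    have hint : ∫ ω' in uc2E M θ p k, g ω' ∂P' ≤ ∫ ω' in F, g ω' ∂P' +
        ∑ m ∈ Finset.Ico 2 (n - p k), ∫ ω' in uc2E M θ (q m) (k + 1), g ω' ∂P' := by
      rw [← integral_indicator (uc2_measurable_E M θ p k), ← integral_indicator hFm]
      simp_rw [← integral_indicator (hEm _)]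
      rw [← integral_finsetSum _ (fun m _ => hgi.indicator (hEm m)), ← integral_add
        (hgi.indicator hFm) (integrable_finsetSum _ fun m _ => hgi.indicator (hEm m))]
      exact integral_mono (hgi.indicator (uc2_measurable_E M θ p k))
        ((hgi.indicator hFm).add (integrable_finsetSum _ fun m _ => hgi.indicator (hEm m))) hpt
    -- the last excursion
    have hlast : ∫ ω' in F, g ω' ∂P' ≤ W * UU a (n - p k) (shx (p k) x) := by
      refine (core_le M hθ ha x p k hp0 hp hpn).trans ?_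
      have hr := regen_upper α h0 h1 P' M.R M.regen θ hθ p k hp0 hp
      have hUU : 0 ≤ ∏ i ∈ Finset.range k, UU a (p (i + 1) - p i) (shx (p i) x) :=
        Finset.prod_nonneg fun i _ => uc2_UU_nonneg ha _ _
      rw [hW, Finset.prod_mul_distrib]
      exact mul_le_mul_of_nonneg_right (mul_le_mul_of_nonneg_right hr hUU)
        (uc2_UU_nonneg ha _ _)
    -- the others
    have hrec : ∀ m ∈ Finset.Ico 2 (n - p k), ∫ ω' in uc2E M θ (q m) (k + 1), g ω' ∂P' ≤
        W * (qq α m * UU a m (shx (p k) x) *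
          YY a α (n - p k - m) (shx m (shx (p k) x))) := by
      intro m hm
      rw [Finset.mem_Ico] at hm
      have h3 := ih (q m) (k + 1) (by rw [hqi m 0 (by omega), hp0]) (fun i hi => by
        rcases Nat.lt_succ_iff_lt_or_eq.1 hi with hi' | rfl
        · rw [hqi _ i hi'.le, hqi _ (i + 1) hi']
          exact hp i hi'
        · rw [hqi _ i le_rfl, hqk]
          omega) (by rw [hqk]; omega) (by rw [hqk]; omega)
      refine h3.trans (le_of_eq ?_)
      rw [Finset.prod_range_succ, hqk, hqi m k le_rfl]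
      have e1 : ∏ i ∈ Finset.range k, qq α (q m (i + 1) - q m i) *
          UU a (q m (i + 1) - q m i) (shx (q m i) x) = W := by
        rw [hW]
        refine Finset.prod_congr rfl fun i hi => ?_
        have hi' := Finset.mem_range.1 hi
        rw [hqi _ i hi'.le, hqi _ (i + 1) hi']
      have e2 : p k + m - p k = m := by omega
      have e3 : n - (p k + m) = n - p k - m := by omega
      rw [e1, e2, e3, uc2_shx_shx]
      ring
    calc ∫ ω' in uc2E M θ p k, g ω' ∂P'
        ≤ W * UU a (n - p k) (shx (p k) x) + ∑ m ∈ Finset.Ico 2 (n - p k),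
          W * (qq α m * UU a m (shx (p k) x) *
            YY a α (n - p k - m) (shx m (shx (p k) x))) :=
          hint.trans (add_le_add hlast (Finset.sum_le_sum hrec))
      _ = W * YY a α (n - p k) (shx (p k) x) := by
          rw [uc2_YY a α (n - p k), mul_add, Finset.mul_sum]

theorem partition_le {θ : ℝ} (hθ : 0 < θ) (h0 : 0 < α) (h1 : α ≤ 1 / 2) {n : ℕ} {a : ℝ}
    (ha : 0 ≤ a) (x : ℕ → ℝ) :
    ∫ ω', ∏ j ∈ Finset.range n, psi a (M.pp θ j ω') (x j) ∂P' ≤ YY a α n x := by
  rcases Nat.eq_zero_or_pos n with rfl | hn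
  · rw [uc2_YY]
    simp only [Finset.range_zero, Finset.prod_empty, integral_const, probReal_univ, smul_eq_mul,
      mul_one]
    have h2 := uc2_NN_ge (x := x 0) ha
    have h3 := uc2_NN_ge (x := x 1) ha
    have h4 : 1 ≤ NN a (x 0) * NN a (x 1) := by nlinarith
    unfold UU
    simp
    linarith
  · have h2 := uc2_prefix M hθ h0 h1 (n := n) ha x n (fun _ => 0) 0 rfl (by simp) hn (by simp)
    have h3 : uc2E M θ (fun _ => 0) 0 = Set.univ := by
      ext ω; simp [uc2E]
    have h4 : shx 0 x = x := by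
      funext j; simp [shx]
    rw [h3] at h2
    simpa [h4] using h2

end UC2

end Pool.Agent.Lib.MP_3d9a2b_pr
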