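import Pool.Agent.Lib.MP_3d9a2b_pr.U.FinalU

set_option autoImplicit false

namespace Pool.Agent.Lib.MP_3d9a2b_pr

open MeasureTheory ProbabilityTheory Filter Topology
open scoped NNReal ENNReal

/-- the averaged logarithm decreases at most logarithmically -/
theorem integral_log_Z_lower {α : ℝ} (h0 : 0 < α) (h1 : α < 1) {Ω Ω' : Type} [MeasurableSpace Ω]
    [MeasurableSpace Ω'] (P : Measure Ω) (P' : Measure Ω') [IsProbabilityMeasure P]
    [IsProbabilityMeasure P'] (M : Model α P P') {lam h : ℝ} (hlam : 0 < lam)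
    (hh : 1 / (1 + α) * lam ≤ h) : ∃ C : ℝ, ∀ᶠ t in atTop,
      - ((1 + α) * Real.log (lam ^ 2 * t) + C) ≤ ∫ ω, Real.log (M.Z lam h t ω) ∂P := by
  obtain ⟨c, hc, hc1, hR⟩ := regen_scenario α h0 h1
  set γ := 1 / (1 + α) with hγ
  have hγ0 : 0 < γ := by positivity
  have hγ1 : γ ≤ 1 := by
    rw [hγ, div_le_one (by linarith)]
    linarith
  set η := h / lam - γ with hη
  have hη0 : 0 ≤ η := by
    rw [hη, sub_nonneg, le_div_iff₀ hlam]
    exact hh
  have hγη : (γ + η) * lam = h := by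
    rw [hη]; field_simp; ring
  have hh0 : 0 ≤ h := le_trans (by positivity) hh
  have hθ : 0 < (lam ^ 2)⁻¹ := by positivity
  refine ⟨Real.log (2 / c) + 2 * (100 + 2 * η) + lam * (h * (2 * (lam ^ 2)⁻¹)), ?_⟩
  filter_upwards [eventually_ge_atTop (2 * (lam ^ 2)⁻¹), eventually_gt_atTop 0] with t ht1 ht0
  have hlt : 2 ≤ lam ^ 2 * t := by
    have := mul_le_mul_of_nonneg_left ht1 (by positivity : 0 ≤ lam ^ 2)
    have e : lam ^ 2 * (2 * (lam ^ 2)⁻¹) = 2 := by field_simp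
    linarith
  have hfl : 2 ≤ ⌊lam ^ 2 * t⌋₊ := Nat.le_floor (by exact_mod_cast hlt)
  obtain ⟨N, hN⟩ : ∃ N, ⌊lam ^ 2 * t⌋₊ = N + 1 := ⟨⌊lam ^ 2 * t⌋₊ - 1, by omega⟩
  have hN1 : (N : ℝ) + 1 ≤ lam ^ 2 * t := by
    have := Nat.floor_le (by positivity : 0 ≤ lam ^ 2 * t)
    rw [hN] at this
    exact_mod_cast this
  have hN2 : lam ^ 2 * t < N + 2 := by
    have := Nat.lt_floor_add_one (lam ^ 2 * t)
    rw [hN] at this
    push_cast at this
    linarith
  have hN3 : 1 ≤ N := by omega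
  have hN4 : (1 : ℝ) ≤ N := by exact_mod_cast hN3
  have hcancel : (lam ^ 2)⁻¹ * (lam ^ 2 * t) = t := by field_simp
  have ht : (lam ^ 2)⁻¹ * (N + 1) ≤ t := by
    calc (lam ^ 2)⁻¹ * ((N : ℝ) + 1) ≤ (lam ^ 2)⁻¹ * (lam ^ 2 * t) := by gcongr
      _ = t := hcancel
  have ht' : t - (lam ^ 2)⁻¹ * N ≤ 2 * (lam ^ 2)⁻¹ := by
    have : t ≤ (lam ^ 2)⁻¹ * (N + 2) := by
      calc t = (lam ^ 2)⁻¹ * (lam ^ 2 * t) := hcancel.symm
        _ ≤ (lam ^ 2)⁻¹ * (N + 2) := by gcongr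
    linarith
  have hb := uj_integral_ge M hγ0 hγ1 hη0 hc (hR P' M.R M.regen) hlam N hN3 ht
  rw [hγη] at hb
  refine le_trans ?_ hb
  have h5 : lam * (h * (t - (lam ^ 2)⁻¹ * N)) ≤ lam * (h * (2 * (lam ^ 2)⁻¹)) := by gcongr
  have h6 : Real.log N ≤ Real.log (lam ^ 2 * t) :=
    Real.log_le_log (by linarith) (by linarith)
  have h7 : (1 + α) * Real.log N ≤ (1 + α) * Real.log (lam ^ 2 * t) := by gcongr
  rw [kap]
  linarith

/-- **Asymptotics of the slope as `α → 0`.** -/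
theorem slope_asymp : ∃ K α₀ : ℝ, 0 < K ∧ 0 < α₀ ∧ α₀ < 1 ∧ ∀ α : ℝ, 0 < α → α ≤ α₀ →
    ∀ {Ω Ω' : Type} [MeasurableSpace Ω] [MeasurableSpace Ω'] (P : Measure Ω) (P' : Measure Ω')
      [IsProbabilityMeasure P] [IsProbabilityMeasure P'] (M : Model α P P') (lam h : ℝ),
      0 < lam → 0 ≤ h →
      (∀ t : ℝ, 0 ≤ t → Integrable (fun ω => Real.log (M.Z lam h t ω)) P) ∧
      (h ≤ 1 / (1 + α) * lam →
        ∃ c > 0, ∀ᶠ t in atTop, c ≤ 1 / t * ∫ ω, Real.log (M.Z lam h t ω) ∂P) ∧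
      ((1 / (1 + α) + K * α ^ 2 * Real.log (1 / α)) * lam ≤ h →
        Tendsto (fun t => 1 / t * ∫ ω, Real.log (M.Z lam h t ω) ∂P) atTop (𝓝 0)) := by
  obtain ⟨K, α₀, hK, hα₀, hα₀', hdel⟩ := deloc
  refine ⟨K, α₀, hK, hα₀, by linarith, ?_⟩
  intro α h0 hαα₀ Ω Ω' _ _ P P' _ _ M lam h hlam hh
  have h1 : α < 1 := by linarith
  have hlog : 0 ≤ Real.log (1 / α) := Real.log_nonneg (by
    rw [le_div_iff₀ h0]; linarith)
  refine ⟨fun t ht => integrable_log_Z M hlam hh ht, fun hlow => ?_, fun hup => ?_⟩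
  · obtain ⟨m, hm, hloc⟩ := slope_gt α h0 h1
    obtain ⟨c, hc, hev⟩ := hloc P P' M lam h hlam hh
      (hlow.trans (mul_le_mul_of_nonneg_right hm.le hlam.le))
    exact ⟨c, hc, hev.mono fun t ht => ht.2⟩
  · obtain ⟨C, hC⟩ := hdel α h0 hαα₀ P P' M lam h hlam hup
    have hh' : 1 / (1 + α) * lam ≤ h := by
      refine le_trans ?_ hup
      have : 0 ≤ K * α ^ 2 * Real.log (1 / α) := by positivity
      nlinarith
    obtain ⟨C', hC'⟩ := integral_log_Z_lower h0 h1 P P' M hlam hh'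
    have hlam2 : 0 < lam ^ 2 := by positivity
    have hT : Tendsto (fun t => Real.log (lam ^ 2 * t) / t) atTop (𝓝 0) := by
      have h2 := (Real.tendsto_pow_log_div_mul_add_atTop (1 / lam ^ 2) 0 1
        (by positivity : 1 / lam ^ 2 ≠ 0)).comp (tendsto_id.const_mul_atTop hlam2)
      refine h2.congr fun t => ?_
      simp only [Function.comp_apply, id, pow_one, add_zero]
      congr 1
      field_simp
    have hI : Tendsto (fun t : ℝ => t⁻¹) atTop (𝓝 0) := tendsto_inv_atTop_zero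
    have hlo : Tendsto (fun t => - ((1 + α) * (Real.log (lam ^ 2 * t) / t) + C' * t⁻¹))
        atTop (𝓝 0) := by
      have := ((hT.const_mul (1 + α)).add (hI.const_mul C')).neg
      simpa using this
    have hhi : Tendsto (fun t : ℝ => C * t⁻¹) atTop (𝓝 0) := by
      simpa using hI.const_mul C
    refine tendsto_of_tendsto_of_tendsto_of_le_of_le' hlo hhi ?_ ?_
    · filter_upwards [hC', eventually_gt_atTop 0] with t h3 ht
      have e : - ((1 + α) * (Real.log (lam ^ 2 * t) / t) + C' * t⁻¹) =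
          1 / t * (- ((1 + α) * Real.log (lam ^ 2 * t) + C')) := by
        field_simp
      rw [e]
      gcongr
    · filter_upwards [hC, eventually_gt_atTop 0] with t h3 ht
      rw [one_div, mul_comm]
      gcongr

end Pool.Agent.Lib.MP_3d9a2b_pr
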